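import Pool.Agent.Lib.MP_7b7e48_nt.T3S.D

/-!
# T3S.N: everything which holds for large `N` (definition), first consequences
-/

set_option autoImplicit false

open Finset

namespace Pool.Agent.Lib.TC

namespace MPar

theorem hf_ok {Q : MPar} (hQ : Q.Ok) : Q.hf.Ok where
  ko := hQ.ko
  k3 := hQ.k3
  W0 := hQ.W0
  Cp := hQ.Cp
  e0 := by
    have := hQ.e0
    change 0 < Q.e1 / 2
    linarith
  e1 := by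
    have h1 := hQ.e1
    have h0 := hQ.e0
    have hk : (0 : ℝ) ≤ Q.k := Nat.cast_nonneg _
    change 80 * ((Q.k : ℝ) + 1) * (Q.e1 / 2) ≤ 1
    have : 0 ≤ 80 * ((Q.k : ℝ) + 1) * Q.e1 := by positivity
    linarith
  bc := hQ.bc
  bp := hQ.bp

/-- everything which holds for large `N` -/
structure Lg3 (Q : MPar) (N : ℕ) : Prop where
  lg : Q.Lg N
  lh : Q.hf.Lg N
  wx : ∀ i ≤ Q.k, 2 / (Real.log N) ^ 2 ≤ ∑ p ∈ Q.WX3 N i, 1 / (p : ℝ)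
  wa : ∀ i ≤ Q.k, 2 / (Real.log N) ^ 2 ≤ ∑ p ∈ Q.WA3 N i, 1 / (p : ℝ)
  wb : ∀ i ≤ Q.k, 2 / (Real.log N) ^ 2 ≤ ∑ p ∈ Q.WB3 N i, 1 / (p : ℝ)
  f1 : ∀ i < Q.k, 1 / (100 * Q.l0 N) ≤ ∑ p ∈ Q.U1 N i, 1 / (p : ℝ)
  f2 : ∀ i < Q.k, 1 / (100 * Q.l0 N) ≤ ∑ p ∈ Q.U2 N i, 1 / (p : ℝ)
  f3 : ∀ i < Q.k, 1 / (100 * Q.l0 N) ≤ ∑ p ∈ Q.U3 N i, 1 / (p : ℝ)
  fp : (100 * Q.l0 N) ^ (3 * Q.k) ≤ Real.log N

end MPar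

end Pool.Agent.Lib.TC
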