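import Pool.Agent.Lib.MP_7b7e48_nt.BR3.F
import Pool.Agent.Lib.MP_7b7e48_nt.T3S.N

/-!
# T3S.FS (50 minutes): the masses of the parity fixers

`short4`: copy of `F.short` for intervals of length `1/4`: `OW.theta_int 1` with `q = 1`: `∑_{PR s (s+1/4)} log p ≥ e^(s+1/4) - e^s - C e^(s+1/4)/s ≥ 0.2 e^(s + 1/4)` for `s ≥ 100 C` (`1 - e^(-1/4) ≥ 0.22`), and every `p ≤ e^(s+1/4)`, `log p ≤ s + 1/4`.
`ev_fix`: `U1 i`, `U2 i`: `s = 3/2 l0 + i (+ 1/2)`, `s + 1 ≤ 2 l0` (`k + 2 ≤ l0 / 2` for large `N`), `U3 i`: `s = 3 l0 + 2 i + 1/4 ≤ 4 l0 - 1`; so the sum over all primes is `≥ 0.1 / (4 l0) = 1 / (40 l0)`; the primes which divide `N`: `div_loss`: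
`≤ K exp (-s) / s`-like `≤ 1 / (1000 l0)` since `s ≥ 3/2 l0 ≥ (3/2) log K`: `K e^(-s) ≤ K^(-1/2)` (see `G2.ev_prm` for the same argument). `ev_fp`: `l0 = (Cp + 1) log K`, as in `C.ev_ppd` (much easier).
-/

set_option autoImplicit false

open Finset Filter

namespace Pool.Agent.Lib.TC

namespace MPar

open Pool.Agent.Lib.OW (PR)

theorem short4 : ∃ s0 : ℝ, 1 ≤ s0 ∧ ∀ s : ℝ, s0 ≤ s → 0.1 / (s + 1) ≤ ∑ p ∈ PR s (s + 1 / 4), 1 / (p : ℝ) := by
  obtain ⟨C, hC, h⟩ := Pool.Agent.Lib.OW.theta_int 1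
  refine ⟨30 * C, by linarith, ?_⟩
  intro s hs
  have hs1 : 1 ≤ s := by linarith
  have hs0 : 0 < s := by linarith
  have h1 := h 1 0 le_rfl (by norm_num) s (s + 1 / 4) hs1 (by linarith)
  have h2 : (PR s (s + 1 / 4)).filter (fun p => p ≡ 0 [MOD 1]) = PR s (s + 1 / 4) :=
    filter_true_of_mem fun p _ => Nat.modEq_one
  rw [h2, Nat.totient_one, Nat.cast_one, div_one, mul_one, pow_one] at h1
  have h3 := (abs_le.mp h1).1
  have he := Real.exp_pos s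
  have h4 : Real.exp (s + 1 / 4) = Real.exp s * Real.exp (1 / 4) := Real.exp_add s (1 / 4)
  have h5 : 1.25 ≤ Real.exp (1 / 4) := by
    have := Real.add_one_le_exp (1 / 4 : ℝ)
    norm_num at this ⊢
    linarith
  have h6 : Real.exp (1 / 4) ≤ 1.3 := by
    have h7 : Real.exp (1 / 4) ^ 4 = Real.exp 1 := by
      rw [← Real.exp_nat_mul]
      norm_num
    have h8 := Real.exp_one_lt_d9
    refine le_of_pow_le_pow_left₀ (by norm_num : (4 : ℕ) ≠ 0) (by norm_num) ?_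
    rw [h7]
    norm_num at h8 ⊢
    linarith
  have h7 : C * Real.exp (s + 1 / 4) / s ≤ 0.05 * Real.exp s := by
    rw [div_le_iff₀ hs0, h4]
    have h8 : C * Real.exp (1 / 4) ≤ 0.05 * s := by nlinarith
    nlinarith
  have h8 : 0.2 * Real.exp s ≤ ∑ p ∈ PR s (s + 1 / 4), Real.log p := by
    rw [h4] at h3 h7
    nlinarith
  have h9 : (∑ p ∈ PR s (s + 1 / 4), Real.log p) * (1 / ((s + 1) * Real.exp (s + 1 / 4))) ≤
      ∑ p ∈ PR s (s + 1 / 4), 1 / (p : ℝ) := by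
    rw [sum_mul]
    refine sum_le_sum fun p hp => ?_
    have hpp := (Pool.Agent.Lib.OW.mem_PR.mp hp)
    have hp0 : (0 : ℝ) < p := by exact_mod_cast hpp.1.pos
    have hl := ((Pool.Agent.Lib.OW.mem_PR_log hpp.1).mp hp)
    have h10 : Real.log p * (1 / ((s + 1) * Real.exp (s + 1 / 4))) ≤
        (s + 1) * (1 / ((s + 1) * Real.exp (s + 1 / 4))) :=
      mul_le_mul_of_nonneg_right (by linarith [hl.2]) (by positivity)
    refine h10.trans ?_
    have h11 : (s + 1) * (1 / ((s + 1) * Real.exp (s + 1 / 4))) = 1 / Real.exp (s + 1 / 4) := by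
      field_simp
    rw [h11]
    exact one_div_le_one_div_of_le hp0 hpp.2.2
  refine le_trans ?_ h9
  refine le_trans ?_ (mul_le_mul_of_nonneg_right h8 (by positivity))
  rw [h4]
  have h10 : 0.2 * Real.exp s * (1 / ((s + 1) * (Real.exp s * Real.exp (1 / 4)))) = 0.2 / Real.exp (1 / 4) / (s + 1) := by
    field_simp
  rw [h10]
  refine div_le_div_of_nonneg_right ?_ (by linarith)
  rw [le_div_iff₀ (by linarith)]
  linarith

private theorem FS_l0 (Q : MPar) : Tendsto (fun N : ℕ => Q.l0 N) atTop atTop := by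
  have h1 : Tendsto (fun N : ℕ => Real.log (Real.log N)) atTop atTop :=
    Real.tendsto_log_atTop.comp (Real.tendsto_log_atTop.comp tendsto_natCast_atTop_atTop)
  exact h1.const_mul_atTop (by positivity : (0 : ℝ) < (Q.Cp : ℝ) + 1)

private theorem FS_gen {Q : MPar} (hQ : Q.Ok) : ∀ᶠ N : ℕ in atTop, ∀ s : ℝ, Q.l0 N ≤ s → s ≤ 4 * Q.l0 N →
    1 / (100 * Q.l0 N) ≤ ∑ p ∈ (PR s (s + 1 / 4)).filter (fun p => ¬ p ∣ N), 1 / (p : ℝ) := by
  obtain ⟨s0, hs0, hshort⟩ := short4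
  filter_upwards [(FS_l0 Q).eventually_ge_atTop s0, (FS_l0 Q).eventually_ge_atTop 100,
    (Real.tendsto_log_atTop.comp (tendsto_natCast_atTop_atTop (R := ℝ))).eventually_ge_atTop 1000,
    eventually_ge_atTop 1] with N h1 h2 h3 hN s hs1 hs2
  have h3' : (1000 : ℝ) ≤ Real.log N := h3
  have hl0 : 0 < Q.l0 N := by linarith
  have hs : 0 < s := by linarith
  have hK0 : 0 < Real.log N := by linarith
  have hsum := hshort s (h1.trans hs1)
  have hloss := div_loss hN hs (s + 1 / 4)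
  have hsplit := Finset.sum_filter_add_sum_filter_not (PR s (s + 1 / 4))
    (fun p => p ∣ N) (fun p => 1 / (p : ℝ))
  have hexp : Real.exp (-s) ≤ 1 / (Real.log N * Real.log N) := by
    have h4 : Real.exp (-s) ≤ Real.exp (-(2 * Real.log (Real.log N))) := by
      refine Real.exp_le_exp.2 (neg_le_neg (le_trans ?_ hs1))
      have h5 : Q.l0 N = ((Q.Cp : ℝ) + 1) * Real.log (Real.log N) := rfl
      rw [h5]
      refine mul_le_mul_of_nonneg_right ?_ (Real.log_nonneg (by linarith))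
      have : (1 : ℝ) ≤ Q.Cp := by exact_mod_cast hQ.Cp
      linarith
    refine h4.trans (le_of_eq ?_)
    rw [two_mul, Real.exp_neg, Real.exp_add, Real.exp_log hK0, one_div]
  have hloss2 : Real.log N / s * Real.exp (-s) ≤ 0.001 / Q.l0 N := by
    calc Real.log N / s * Real.exp (-s) ≤ Real.log N / Q.l0 N * (1 / (Real.log N * Real.log N)) :=
          mul_le_mul (div_le_div_of_nonneg_left hK0.le hl0 hs1) hexp (Real.exp_pos _).le
            (by positivity)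
      _ = 1 / Real.log N / Q.l0 N := by field_simp
      _ ≤ 0.001 / Q.l0 N := by
          refine div_le_div_of_nonneg_right ?_ hl0.le
          rw [div_le_iff₀ hK0]
          linarith
  have hmain : 0.02 / Q.l0 N ≤ 0.1 / (s + 1) := by
    rw [div_le_div_iff₀ hl0 (by linarith)]
    linarith
  have h5 : 1 / (100 * Q.l0 N) = 0.01 / Q.l0 N := by
    field_simp
    norm_num
  have h6 : 0.02 / Q.l0 N = 0.01 / Q.l0 N + 0.01 / Q.l0 N := by ring
  have h7 : 0.001 / Q.l0 N ≤ 0.01 / Q.l0 N := div_le_div_of_nonneg_right (by norm_num) hl0.le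
  rw [h5]
  linarith

theorem ev_fix {Q : MPar} (hQ : Q.Ok) : ∀ᶠ N : ℕ in atTop, (∀ i < Q.k, 1 / (100 * Q.l0 N) ≤ ∑ p ∈ Q.U1 N i, 1 / (p : ℝ)) ∧
    (∀ i < Q.k, 1 / (100 * Q.l0 N) ≤ ∑ p ∈ Q.U2 N i, 1 / (p : ℝ)) ∧ ∀ i < Q.k, 1 / (100 * Q.l0 N) ≤ ∑ p ∈ Q.U3 N i, 1 / (p : ℝ) := by
  filter_upwards [FS_gen hQ, (FS_l0 Q).eventually_ge_atTop (2 * (Q.k : ℝ) + 1)] with N h1 h2
  have hk : (0 : ℝ) ≤ Q.k := Nat.cast_nonneg _
  refine ⟨fun i hi => ?_, fun i hi => ?_, fun i hi => ?_⟩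
  · have hi0 : (0 : ℝ) ≤ i := Nat.cast_nonneg _
    have hi' : (i : ℝ) < Q.k := by exact_mod_cast hi
    have h3 := h1 (3 / 2 * Q.l0 N + i) (by linarith) (by linarith)
    exact h3
  · have hi0 : (0 : ℝ) ≤ i := Nat.cast_nonneg _
    have hi' : (i : ℝ) < Q.k := by exact_mod_cast hi
    have h3 := h1 (3 / 2 * Q.l0 N + i + 1 / 2) (by linarith) (by linarith)
    have h4 : 3 / 2 * Q.l0 N + i + 1 / 2 + 1 / 4 = 3 / 2 * Q.l0 N + i + 3 / 4 := by ring
    rw [h4] at h3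
    exact h3
  · have hi0 : (0 : ℝ) ≤ i := Nat.cast_nonneg _
    have hi' : (i : ℝ) < Q.k := by exact_mod_cast hi
    have h3 := h1 (3 * Q.l0 N + 2 * i + 1 / 4) (by linarith) (by linarith)
    have h4 : 3 * Q.l0 N + 2 * i + 1 / 4 + 1 / 4 = 3 * Q.l0 N + 2 * i + 1 / 2 := by ring
    rw [h4] at h3
    exact h3

theorem ev_fp (Q : MPar) : ∀ᶠ N : ℕ in atTop, (100 * Q.l0 N) ^ (3 * Q.k) ≤ Real.log N := by
  have h1 := (Real.isLittleO_pow_log_id_atTop (n := 3 * Q.k)).bound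
    (show (0 : ℝ) < ((100 * ((Q.Cp : ℝ) + 1)) ^ (3 * Q.k))⁻¹ by positivity)
  have h2 : Tendsto (fun N : ℕ => Real.log (N : ℝ)) atTop atTop :=
    Real.tendsto_log_atTop.comp tendsto_natCast_atTop_atTop
  filter_upwards [h2.eventually h1, h2.eventually_ge_atTop 1] with N h3 h4
  have hl : 0 ≤ Real.log (Real.log N) := Real.log_nonneg h4
  rw [Real.norm_of_nonneg (pow_nonneg hl _), id, Real.norm_of_nonneg (by linarith)] at h3
  have h5 : Q.l0 N = ((Q.Cp : ℝ) + 1) * Real.log (Real.log N) := rfl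
  rw [h5, ← mul_assoc, mul_pow]
  have h6 : (0 : ℝ) < (100 * ((Q.Cp : ℝ) + 1)) ^ (3 * Q.k) := by positivity
  calc (100 * ((Q.Cp : ℝ) + 1)) ^ (3 * Q.k) * Real.log (Real.log N) ^ (3 * Q.k)
      ≤ (100 * ((Q.Cp : ℝ) + 1)) ^ (3 * Q.k) * (((100 * ((Q.Cp : ℝ) + 1)) ^ (3 * Q.k))⁻¹ * Real.log N) :=
        mul_le_mul_of_nonneg_left h3 h6.le
    _ = Real.log N := by
        rw [← mul_assoc, mul_inv_cancel₀ h6.ne', one_mul]

end MPar

end Pool.Agent.Lib.TC
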