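import Pool.Agent.Lib.MP_7b7e48_nt.T3S.WM
import Pool.Agent.Lib.MP_7b7e48_nt.T3S.FS

/-!
# T3S.G: all facts hold for large `N`
-/

set_option autoImplicit false

open Finset Filter

namespace Pool.Agent.Lib.TC

namespace MPar

theorem ev_Lg3 {Q : MPar} (hQ : Q.Ok) : ∀ᶠ N : ℕ in atTop, Q.Lg3 N := by
  filter_upwards [ev_Lg hQ, ev_Lg (hf_ok hQ), ev_w3 hQ, ev_fix hQ, ev_fp Q] with N h1 h2 h3 h4 h5
  exact ⟨h1, h2, h3.1, h3.2.1, h3.2.2, h4.1, h4.2.1, h4.2.2, h5⟩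

end MPar

end Pool.Agent.Lib.TC
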