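import Pool.Agent.Lib.MP_7b7e48_nt.BR3.A2
import Pool.Agent.Lib.MP_7b7e48_nt.T3S.N

/-!
# T3S.FL (40 minutes): the logarithms of the parity fixers

`p ∈ PR s t` iff `p` is a prime with `exp s < p ≤ exp t` (`OW.mem_PR`). `i < k`, `k + 1 ≤ l0 / 1000` (`lb : 10^6 (k+1)^4 ≤ l0`), so `3/2 l0 < log u ≤ 3/2 l0 + i + 1/4 < 8/5 l0`, `log u' ≤ 3/2 l0 + i + 3/4 < 8/5 l0`, `3 l0 < log w ≤ 3 l0 + 2 i + 1/2 ≤ 4 l0 ≤ 4 κ`.
`fix_cmp`: `log u + log u' ∈ (3 l0 + 2 i + 1/2, 3 l0 + 2 i + 1]`, `log w ∈ (3 l0 + 2 i + 1/4, 3 l0 + 2 i + 1/2]`: so `w < u u'` and `u u' ≤ exp (3/4) w`.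
`u_dis`: different sets among `U1 i`, `U2 j` are disjoint (disjoint intervals of logarithms, half open), the same for `U3 i`, `U3 j`.
-/

set_option autoImplicit false

open Finset

namespace Pool.Agent.Lib.TC

namespace MPar

variable {Q : MPar} {N : ℕ}

private theorem FL_pr {s t : ℝ} {p : ℕ} (hp : p ∈ (Pool.Agent.Lib.OW.PR s t).filter fun p => ¬ p ∣ N) :
    p.Prime ∧ ¬ p ∣ N ∧ s < Real.log p ∧ Real.log p ≤ t := by
  obtain ⟨h1, h2⟩ := mem_filter.1 hp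
  have h3 : p.Prime := (Pool.Agent.Lib.OW.mem_PR.1 h1).1
  obtain ⟨h4, h5⟩ := (Pool.Agent.Lib.OW.mem_PR_log h3).1 h1
  exact ⟨h3, h2, h4, h5⟩

private theorem FL_k (h : Q.Lg N) {i : ℕ} (hi : i < Q.k) : (i : ℝ) + 1 ≤ Q.l0 N / 10 ^ 6 := by
  have h1 := h.lb
  have h2 : (i : ℝ) + 1 ≤ (Q.k : ℝ) + 1 := by
    have : (i : ℝ) ≤ Q.k := by exact_mod_cast hi.le
    linarith
  have h3 : (1 : ℝ) ≤ (Q.k : ℝ) + 1 := by
    have : (0 : ℝ) ≤ Q.k := Nat.cast_nonneg _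
    linarith
  have h4 : (Q.k : ℝ) + 1 ≤ ((Q.k : ℝ) + 1) ^ 4 := le_self_pow₀ h3 (by norm_num)
  rw [le_div_iff₀ (by norm_num)]
  nlinarith

theorem u1_log (hQ : Q.Ok) (h : Q.Lg N) {i p : ℕ} (hi : i < Q.k) (hp : p ∈ Q.U1 N i ∨ p ∈ Q.U2 N i) :
    p.Prime ∧ ¬ p ∣ N ∧ 3 / 2 * Q.l0 N < Real.log p ∧ Real.log p < 8 / 5 * Q.l0 N := by
  have hk := FL_k h hi
  have hi0 : (0 : ℝ) ≤ i := Nat.cast_nonneg _
  rcases hp with hp | hp
  · unfold U1 at hp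
    obtain ⟨h1, h2, h3, h4⟩ := FL_pr hp
    exact ⟨h1, h2, by linarith, by linarith⟩
  · unfold U2 at hp
    obtain ⟨h1, h2, h3, h4⟩ := FL_pr hp
    exact ⟨h1, h2, by linarith, by linarith⟩

theorem u3_log (hQ : Q.Ok) (h : Q.Lg N) {i p : ℕ} (hi : i < Q.k) (hp : p ∈ Q.U3 N i) :
    p.Prime ∧ ¬ p ∣ N ∧ 3 * Q.l0 N < Real.log p ∧ Real.log p ≤ 4 * Q.l0 N := by
  have hk := FL_k h hi
  have hi0 : (0 : ℝ) ≤ i := Nat.cast_nonneg _
  unfold U3 at hp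
  obtain ⟨h1, h2, h3, h4⟩ := FL_pr hp
  exact ⟨h1, h2, by linarith, by linarith⟩

theorem fix_cmp {i u u' w : ℕ} (hu : u ∈ Q.U1 N i) (hu' : u' ∈ Q.U2 N i) (hw : w ∈ Q.U3 N i) :
    w < u * u' ∧ ((u * u' : ℕ) : ℝ) ≤ Real.exp (3 / 4) * w := by
  unfold U1 at hu
  unfold U2 at hu'
  unfold U3 at hw
  obtain ⟨h1, _, h3, h4⟩ := FL_pr hu
  obtain ⟨h1', _, h3', h4'⟩ := FL_pr hu'
  obtain ⟨h1w, _, h3w, h4w⟩ := FL_pr hw
  have p1 : (0 : ℝ) < u := by exact_mod_cast h1.pos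
  have p2 : (0 : ℝ) < u' := by exact_mod_cast h1'.pos
  have p3 : (0 : ℝ) < w := by exact_mod_cast h1w.pos
  constructor
  · have h5 : (w : ℝ) < u * u' := by
      rw [← Real.log_lt_log_iff p3 (mul_pos p1 p2), Real.log_mul p1.ne' p2.ne']
      linarith
    exact_mod_cast h5
  · push_cast
    rw [← Real.log_le_log_iff (mul_pos p1 p2) (mul_pos (Real.exp_pos _) p3), Real.log_mul p1.ne' p2.ne',
      Real.log_mul (Real.exp_pos _).ne' p3.ne', Real.log_exp]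
    linarith

private theorem FL_dis {s t s' t' : ℝ} (h : t ≤ s' ∨ t' ≤ s) :
    Disjoint ((Pool.Agent.Lib.OW.PR s t).filter fun p => ¬ p ∣ N) ((Pool.Agent.Lib.OW.PR s' t').filter fun p => ¬ p ∣ N) := by
  rw [disjoint_left]
  intro p hp hp'
  obtain ⟨_, _, h3, h4⟩ := FL_pr hp
  obtain ⟨_, _, h3', h4'⟩ := FL_pr hp'
  rcases h with h | h <;> linarith

private theorem FL_ne {i j : ℕ} (hij : i ≠ j) : (i : ℝ) + 1 ≤ j ∨ (j : ℝ) + 1 ≤ i := by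
  rcases Nat.lt_or_gt_of_ne hij with h | h
  · left; exact_mod_cast h
  · right; exact_mod_cast h

theorem u1_dis {i j : ℕ} (hij : i ≠ j) : Disjoint (Q.U1 N i) (Q.U1 N j) := by
  unfold U1
  apply FL_dis
  rcases FL_ne hij with h | h
  · left; linarith
  · right; linarith

theorem u2_dis {i j : ℕ} (hij : i ≠ j) : Disjoint (Q.U2 N i) (Q.U2 N j) := by
  unfold U2
  apply FL_dis
  rcases FL_ne hij with h | h
  · left; linarith
  · right; linarith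

theorem u12_dis (i j : ℕ) : Disjoint (Q.U1 N i) (Q.U2 N j) := by
  unfold U1 U2
  apply FL_dis
  rcases Nat.lt_or_ge j i with h | h
  · right
    have : (j : ℝ) + 1 ≤ i := by exact_mod_cast h
    linarith
  · left
    have : (i : ℝ) ≤ j := by exact_mod_cast h
    linarith

theorem u3_dis {i j : ℕ} (hij : i ≠ j) : Disjoint (Q.U3 N i) (Q.U3 N j) := by
  unfold U3
  apply FL_dis
  rcases FL_ne hij with h | h
  · left; linarith
  · right; linarith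

end MPar

end Pool.Agent.Lib.TC
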