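import Pool.Agent.Lib.MP_7b7e48_nt.BR3.J2
import Pool.Agent.Lib.MP_7b7e48_nt.T3S.FL

/-!
# T3S.J (50 minutes): the elements of the sets, sizes of the windows

`nw3`: a member of `OX3 i t` (`i = e / (nit + 2) < k`) is in `OXs i t = (sys N).OX ⟨i * nit + t, _⟩` (`t < nit`) or in `U1 i`, `U2 i`; a member of `OY3 i t` is in `OYs i t` (`t ≤ np`) or in `U3 i`; `nw_ok`, `u1_log`, `u3_log` (`4 l0 ≤ 4 κ ≤ κ ^ 80`).
`V i = hf.Z i`: `Z_step (hf_ok hQ)`, `Z_le (hf_ok hQ) h.lh`. `w3_ok`: `p > 2 V i ≥ V i ≥ exp (κ ^ 90)`. `Z3_le`: `4 Z3 i = 3/2 (4 V i)^2`; as in `J2.wi_le` (for `hf`): `4 V i ≤ 4 16^k N^((k+1) e1)`, `4 16 ^ k ≤ 16 ^ (k+2) ≤ N ^ (e1/2)` (`h.lh.win2`, and `≥ 2` many times over), so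
`4 Z3 i ≤ 3/2 N ^ (2 (k+1) e1 + e1) ≤ N ^ (3 (k+1) e1)` (`k + 1 ≥ 4`). For `i < k`: `4 Z3 i ≤ 3/2 (4 16^k)^2 N ^ e1 ≤ N ^ (2 e1 + e1)`.
-/

set_option autoImplicit false

open Finset

namespace Pool.Agent.Lib.TC

namespace MPar

variable {Q : MPar} {N : ℕ}

private theorem J3_k (h : Q.Lg N) : (1 : ℝ) ≤ kp N := by
  have hk0 := h.k0
  have hk4 : (1 : ℝ) ≤ ((Q.k : ℝ) + 1) ^ 4 := one_le_pow₀ (by have : (0 : ℝ) ≤ Q.k := Nat.cast_nonneg _; linarith)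
  nlinarith

private theorem J3_80 (h : Q.Lg N) : 4 * kp N ≤ kp N ^ 80 := by
  have hk0 := h.k0
  have hk4 : (1 : ℝ) ≤ ((Q.k : ℝ) + 1) ^ 4 := one_le_pow₀ (by have : (0 : ℝ) ≤ Q.k := Nat.cast_nonneg _; linarith)
  have h1 : (4 : ℝ) ≤ kp N := by nlinarith
  have h2 : kp N ^ 2 ≤ kp N ^ 80 := pow_le_pow_right₀ (by linarith) (by norm_num)
  nlinarith

private theorem J3_l0 (h : Q.Lg N) : 0 < Q.l0 N := by
  have h1 := h.lb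
  have h2 : (0 : ℝ) < (10 : ℝ) ^ 6 * (Q.k + 1) ^ 4 := by positivity
  linarith

theorem nw3 (hQ : Q.Ok) (h : Q.Lg N) {p : ℕ}
    (hp : (∃ f, p ∈ (Q.sys3 N).FX f) ∨ (∃ f, p ∈ (Q.sys3 N).FY f) ∨ (∃ e, p ∈ (Q.sys3 N).OX e) ∨ ∃ e, p ∈ (Q.sys3 N).OY e) :
    p.Prime ∧ ¬ p ∣ N ∧ Q.l0 N < Real.log p ∧ Real.log p ≤ (kp N) ^ 80 := by
  have hl := J3_l0 h
  have hκ := J3_80 h
  have hlk := h.lk
  rcases hp with ⟨f, hp⟩ | ⟨f, hp⟩ | ⟨e, hp⟩ | ⟨e, hp⟩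
  · obtain ⟨h1, h2, h3, h4, -⟩ := nw_ok hQ h (Or.inl ⟨f, hp⟩)
    exact ⟨h1, h2, h3, h4⟩
  · obtain ⟨h1, h2, h3, h4, -⟩ := nw_ok hQ h (Or.inr (Or.inl ⟨f, hp⟩))
    exact ⟨h1, h2, h3, h4⟩
  · have he : (e : ℕ) < Q.k * (Q.nit N + 2) := e.2
    have hi : (e : ℕ) / (Q.nit N + 2) < Q.k := Nat.div_lt_of_lt_mul (by rwa [Nat.mul_comm])
    have hp' : p ∈ Q.OX3 N ((e : ℕ) / (Q.nit N + 2)) ((e : ℕ) % (Q.nit N + 2)) := hp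
    obtain ⟨i, hi'⟩ : ∃ i, i = (e : ℕ) / (Q.nit N + 2) := ⟨_, rfl⟩
    obtain ⟨t, ht'⟩ : ∃ t, t = (e : ℕ) % (Q.nit N + 2) := ⟨_, rfl⟩
    rw [← hi'] at hi hp'
    rw [← ht'] at hp'
    unfold OX3 at hp'
    split_ifs at hp' with h1 h2
    · have h3 : i * Q.nit N + t < Q.k * Q.nit N := by
        have : (i + 1) * Q.nit N ≤ Q.k * Q.nit N := Nat.mul_le_mul_right _ hi
        have h4 : (i + 1) * Q.nit N = i * Q.nit N + Q.nit N := by ring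
        omega
      have h5 : (i * Q.nit N + t) / Q.nit N = i := by
        rw [Nat.mul_comm, Nat.mul_add_div (by omega), Nat.div_eq_of_lt h1, Nat.add_zero]
      have h6 : (i * Q.nit N + t) % Q.nit N = t := by
        rw [Nat.mul_comm, Nat.mul_add_mod, Nat.mod_eq_of_lt h1]
      have h7 : p ∈ (Q.sys N).OX ⟨i * Q.nit N + t, h3⟩ := by
        change p ∈ Q.OXs N ((i * Q.nit N + t) / Q.nit N) ((i * Q.nit N + t) % Q.nit N)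
        rw [h5, h6]
        exact hp'
      obtain ⟨h1, h2, h3, h4, -⟩ := nw_ok hQ h (Or.inr (Or.inr (Or.inl ⟨_, h7⟩)))
      exact ⟨h1, h2, h3, h4⟩
    · obtain ⟨a1, a2, a3, a4⟩ := u1_log hQ h hi (Or.inl hp')
      exact ⟨a1, a2, by linarith, by linarith⟩
    · obtain ⟨a1, a2, a3, a4⟩ := u1_log hQ h hi (Or.inr hp')
      exact ⟨a1, a2, by linarith, by linarith⟩
  · have he : (e : ℕ) < Q.k * (Q.np N + 2) := e.2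
    have hi : (e : ℕ) / (Q.np N + 2) < Q.k := Nat.div_lt_of_lt_mul (by rwa [Nat.mul_comm])
    have hp' : p ∈ Q.OY3 N ((e : ℕ) / (Q.np N + 2)) ((e : ℕ) % (Q.np N + 2)) := hp
    obtain ⟨i, hi'⟩ : ∃ i, i = (e : ℕ) / (Q.np N + 2) := ⟨_, rfl⟩
    obtain ⟨t, ht'⟩ : ∃ t, t = (e : ℕ) % (Q.np N + 2) := ⟨_, rfl⟩
    rw [← hi'] at hi hp'
    rw [← ht'] at hp'
    unfold OY3 at hp'
    split_ifs at hp' with h1
    · have h3 : i * (Q.np N + 1) + t < Q.k * (Q.np N + 1) := by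
        have : (i + 1) * (Q.np N + 1) ≤ Q.k * (Q.np N + 1) := Nat.mul_le_mul_right _ hi
        have h4 : (i + 1) * (Q.np N + 1) = i * (Q.np N + 1) + (Q.np N + 1) := by ring
        omega
      have h5 : (i * (Q.np N + 1) + t) / (Q.np N + 1) = i := by
        rw [Nat.mul_comm, Nat.mul_add_div (by omega), Nat.div_eq_of_lt h1, Nat.add_zero]
      have h6 : (i * (Q.np N + 1) + t) % (Q.np N + 1) = t := by
        rw [Nat.mul_comm, Nat.mul_add_mod, Nat.mod_eq_of_lt h1]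
      have h7 : p ∈ (Q.sys N).OY ⟨i * (Q.np N + 1) + t, h3⟩ := by
        change p ∈ Q.OYs N ((i * (Q.np N + 1) + t) / (Q.np N + 1)) ((i * (Q.np N + 1) + t) % (Q.np N + 1))
        rw [h5, h6]
        exact hp'
      obtain ⟨h1, h2, h3, h4, -⟩ := nw_ok hQ h (Or.inr (Or.inr (Or.inr ⟨_, h7⟩)))
      exact ⟨h1, h2, h3, h4⟩
    · obtain ⟨a1, a2, a3, a4⟩ := u3_log hQ h hi hp'
      exact ⟨a1, a2, by linarith, by linarith⟩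

theorem V_step (hQ : Q.Ok) {i : ℕ} (hi : i < Q.k) : 16 * Q.V N i ≤ Q.V N (i + 1) := by
  exact Z_step (hf_ok hQ) hi

theorem V_lo (hQ : Q.Ok) (h : Q.hf.Lg N) {i : ℕ} (hi : i ≤ Q.k) : Real.exp ((kp N) ^ 90) ≤ Q.V N i := by
  exact (Z_le (hf_ok hQ) h hi).1

theorem Z3_step (hQ : Q.Ok) {i : ℕ} (hi : i < Q.k) : 16 * Q.Z3 N i ≤ Q.Z3 N (i + 1) := by
  have h1 := V_step (N := N) hQ hi
  unfold Z3
  calc 16 * (6 * Q.V N i ^ 2) ≤ 6 * (16 * Q.V N i) ^ 2 := by nlinarith [Nat.zero_le (Q.V N i ^ 2)]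
    _ ≤ 6 * Q.V N (i + 1) ^ 2 := Nat.mul_le_mul_left _ (Nat.pow_le_pow_left h1 2)

private theorem J3_V0 (hQ : Q.Ok) (h : Q.hf.Lg N) {i : ℕ} (hi : i ≤ Q.k) : 0 < Q.V N i := by
  have h1 := V_lo hQ h hi
  have h2 := Real.exp_pos ((kp N) ^ 90)
  have h3 : (0 : ℝ) < Q.V N i := lt_of_lt_of_le h2 h1
  exact_mod_cast h3

private theorem J3_V16 (hQ : Q.Ok) {i : ℕ} : ∀ d : ℕ, i + (d + 1) ≤ Q.k → 16 * Q.V N i ≤ Q.V N (i + (d + 1)) := by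
  intro d
  induction d with
  | zero => exact fun hd => V_step hQ hd
  | succ d ih =>
    intro hd
    have h1 := ih (by omega)
    have h2 := V_step (N := N) hQ (show i + (d + 1) < Q.k by omega)
    have h3 : i + (d + 1) + 1 = i + (d + 1 + 1) := by ring
    rw [h3] at h2
    omega

theorem Z3_lt (hQ : Q.Ok) (h : Q.hf.Lg N) {i j : ℕ} (hij : i < j) (hj : j ≤ Q.k) : 4 * Q.Z3 N i < Q.Z3 N j ∧ 4 * Q.V N i < Q.V N j := by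
  have h0 := J3_V0 hQ h (show i ≤ Q.k by omega)
  have h1 := J3_V16 (N := N) hQ (i := i) (j - i - 1) (by omega)
  have h2 : i + (j - i - 1 + 1) = j := by omega
  rw [h2] at h1
  refine ⟨?_, by omega⟩
  unfold Z3
  calc 4 * (6 * Q.V N i ^ 2) < 6 * (16 * Q.V N i) ^ 2 := by
        have : 0 < Q.V N i ^ 2 := pow_pos h0 2
        nlinarith
    _ ≤ 6 * Q.V N j ^ 2 := Nat.mul_le_mul_left _ (Nat.pow_le_pow_left h1 2)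

private theorem J3_Z (hQ : Q.Ok) (h : Q.Lg3 N) {i : ℕ} (hi : i ≤ Q.k) {a : ℝ}
    (ha : (if i < Q.k then Q.e1 / 2 else 2 * ((Q.k : ℝ) + 1) * (Q.e1 / 2)) ≤ a) :
    (4 * Q.Z3 N i : ℝ) ≤ (N : ℝ) ^ (Q.e1 + 2 * a) := by
  have hN : (1 : ℝ) ≤ N := by exact_mod_cast h.lg.N1.le
  have hN0 : (0 : ℝ) < N := by linarith
  have h1 : (Q.V N i : ℝ) ≤ 16 ^ Q.k * (N : ℝ) ^ a := by
    have h2 : Q.V N i = 16 ^ i * ⌊(N : ℝ) ^ (if i < Q.k then Q.e1 / 2 else 2 * ((Q.k : ℝ) + 1) * (Q.e1 / 2))⌋₊ := rfl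
    rw [h2]
    push_cast
    exact mul_le_mul (pow_le_pow_right₀ (by norm_num) hi) ((Nat.floor_le (by positivity)).trans
      (Real.rpow_le_rpow_of_exponent_le hN ha)) (Nat.cast_nonneg _) (by positivity)
  have h2 : (16 : ℝ) ^ (Q.k + 2) ≤ (N : ℝ) ^ (Q.e1 / 2) := by
    have h3 : (16 : ℝ) ^ (Q.k + 2) * Real.exp ((kp N) ^ 90) ≤ (N : ℝ) ^ (Q.e1 / 2) := h.lh.win2
    have h4 : (1 : ℝ) ≤ Real.exp ((kp N) ^ 90) := by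
      refine Real.one_le_exp (pow_nonneg ?_ _)
      have := J3_k h.lg
      linarith
    have h5 : (0 : ℝ) < (16 : ℝ) ^ (Q.k + 2) := by positivity
    nlinarith
  have h3 : (N : ℝ) ^ (Q.e1 + 2 * a) = ((N : ℝ) ^ (Q.e1 / 2)) ^ 2 * ((N : ℝ) ^ a) ^ 2 := by
    rw [← Real.rpow_natCast, ← Real.rpow_natCast, ← Real.rpow_mul hN0.le, ← Real.rpow_mul hN0.le, ← Real.rpow_add hN0]
    congr 1
    push_cast
    ring
  rw [h3]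
  have h4 : (4 * Q.Z3 N i : ℝ) = 24 * (Q.V N i : ℝ) ^ 2 := by
    unfold Z3
    push_cast
    ring
  rw [h4]
  have h5 : (Q.V N i : ℝ) ^ 2 ≤ (16 ^ Q.k * (N : ℝ) ^ a) ^ 2 := pow_le_pow_left₀ (Nat.cast_nonneg _) h1 2
  have h6 : ((16 : ℝ) ^ (Q.k + 2)) ^ 2 ≤ ((N : ℝ) ^ (Q.e1 / 2)) ^ 2 := pow_le_pow_left₀ (by positivity) h2 2
  have h7 : (0 : ℝ) ≤ ((N : ℝ) ^ a) ^ 2 := by positivity
  have h8 : (0 : ℝ) ≤ ((16 : ℝ) ^ Q.k) ^ 2 * ((N : ℝ) ^ a) ^ 2 := by positivity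
  calc 24 * (Q.V N i : ℝ) ^ 2 ≤ 24 * (16 ^ Q.k * (N : ℝ) ^ a) ^ 2 := by linarith
    _ = 24 * (((16 : ℝ) ^ Q.k) ^ 2 * ((N : ℝ) ^ a) ^ 2) := by ring
    _ ≤ 65536 * (((16 : ℝ) ^ Q.k) ^ 2 * ((N : ℝ) ^ a) ^ 2) := by linarith
    _ = ((16 : ℝ) ^ (Q.k + 2)) ^ 2 * ((N : ℝ) ^ a) ^ 2 := by
        rw [pow_add]
        ring
    _ ≤ _ := mul_le_mul_of_nonneg_right h6 h7

theorem Z3_le (hQ : Q.Ok) (h : Q.Lg3 N) {i : ℕ} (hi : i ≤ Q.k) : (4 * Q.Z3 N i : ℝ) ≤ (N : ℝ) ^ (3 * ((Q.k : ℝ) + 1) * Q.e1) := by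
  have hN : (1 : ℝ) ≤ N := by exact_mod_cast h.lg.N1.le
  have he := hQ.e0
  have hk : (0 : ℝ) ≤ Q.k := Nat.cast_nonneg _
  refine (J3_Z hQ h hi (a := ((Q.k : ℝ) + 1) * Q.e1) ?_).trans (Real.rpow_le_rpow_of_exponent_le hN ?_)
  · split_ifs
    · nlinarith
    · linarith
  · nlinarith

theorem Z3_le' (hQ : Q.Ok) (h : Q.Lg3 N) {i : ℕ} (hi : i < Q.k) : (4 * Q.Z3 N i : ℝ) ≤ (N : ℝ) ^ (3 * Q.e1) := by
  have hN : (1 : ℝ) ≤ N := by exact_mod_cast h.lg.N1.le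
  have he := hQ.e0
  refine (J3_Z hQ h hi.le (a := Q.e1 / 2) ?_).trans (Real.rpow_le_rpow_of_exponent_le hN ?_)
  · rw [if_pos hi]
  · linarith

theorem w3_ok (hQ : Q.Ok) (h : Q.Lg3 N) {i p : ℕ} (hi : i ≤ Q.k) (hp : p ∈ Q.WX3 N i ∨ p ∈ Q.WA3 N i ∨ p ∈ Q.WB3 N i) :
    p.Prime ∧ ¬ p ∣ N ∧ (kp N) ^ 90 < Real.log p ∧ 2 * Q.V N i < p ∧ p ≤ 4 * Q.Z3 N i := by
  have hV := V_lo hQ h.lh hi
  have hV0 := J3_V0 hQ h.lh hi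
  have hV2 : Q.V N i ≤ Q.V N i ^ 2 := by nlinarith
  have h2 : p.Prime ∧ ¬ p ∣ N ∧ 2 * Q.V N i < p ∧ p ≤ 4 * Q.Z3 N i := by
    rcases hp with hp | hp | hp
    · unfold WX3 pw at hp
      obtain ⟨h3, h4, h5, -⟩ := mem_filter.1 hp
      obtain ⟨h6, h7⟩ := mem_Ioc.1 h3
      refine ⟨h4, h5, ?_, h7⟩
      unfold Z3 at h6
      omega
    · unfold WA3 pw at hp
      obtain ⟨h3, h4, h5, -⟩ := mem_filter.1 hp
      obtain ⟨h6, h7⟩ := mem_Ioc.1 h3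
      refine ⟨h4, h5, by omega, ?_⟩
      unfold Z3
      omega
    · unfold WB3 pw at hp
      obtain ⟨h3, h4, h5, -⟩ := mem_filter.1 hp
      obtain ⟨h6, h7⟩ := mem_Ioc.1 h3
      refine ⟨h4, h5, by omega, ?_⟩
      unfold Z3
      omega
  obtain ⟨h3, h4, h5, h6⟩ := h2
  refine ⟨h3, h4, ?_, h5, h6⟩
  have hp0 : (0 : ℝ) < p := by exact_mod_cast h3.pos
  rw [Real.lt_log_iff_exp_lt hp0]
  refine lt_of_le_of_lt hV ?_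
  have h7 : Q.V N i < p := by omega
  exact_mod_cast h7

end MPar

end Pool.Agent.Lib.TC
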