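import Pool.Agent.Lib.MP_7b7e48_nt.BR3.P4

/-!
# T3S.WG (40 minutes): the primes of a general window in residue classes

The same as `BR3.P4.ev_wcl`, but for every window `(x Z, (x+1) Z]`, `x ∈ {1, 2, 3}`, `exp (κ ^ 90) ≤ Z`: copy the private lemmas and the proof of `BR3/P4.lean` (the case `x = 2`: `t - s = log (3/2)`, between `1/4` and `1`; every place
which uses `x = 1 ∨ x = 3` only needs `1 ≤ x ≤ 3`: `log ((x+1)/x) ≤ log 2 ≤ 1` and `≥ log (4/3) ≥ 1/4`).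
-/

set_option autoImplicit false

open Finset Filter

namespace Pool.Agent.Lib.TC

namespace MPar

private theorem WG_kp : Tendsto kp atTop atTop := by
  unfold kp
  exact (tendsto_rpow_atTop (by norm_num : (0 : ℝ) < 1 / 100)).comp
    (Real.tendsto_log_atTop.comp tendsto_natCast_atTop_atTop)

private theorem WG_exp (n : ℕ) : ∀ᶠ y : ℝ in atTop, y ^ n ≤ Real.exp y := by
  filter_upwards [(Real.tendsto_pow_mul_exp_neg_atTop_nhds_zero n).eventually
    (gt_mem_nhds one_pos)] with y hy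
  have h1 := Real.exp_pos y
  rw [Real.exp_neg, ← div_eq_mul_inv, div_lt_one h1] at hy
  exact hy.le

/-- the window as a set of primes given by logarithms -/
private theorem WG_set {N x Z q a : ℕ} (hx : 1 ≤ x) (hZ : 1 ≤ Z) :
    (Ioc (x * Z) ((x + 1) * Z)).filter (fun l => l.Prime ∧ ¬ l ∣ N ∧ l ≡ a [MOD q]) =
      ((Pool.Agent.Lib.OW.PR (Real.log ((x * Z : ℕ) : ℝ)) (Real.log (((x + 1) * Z : ℕ) : ℝ))).filter
        (fun l => l ≡ a [MOD q])).filter (fun l => ¬ l ∣ N) := by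
  ext l
  have h1 : (0 : ℝ) < ((x * Z : ℕ) : ℝ) := by exact_mod_cast Nat.mul_pos hx hZ
  have h2 : (0 : ℝ) < (((x + 1) * Z : ℕ) : ℝ) := by exact_mod_cast Nat.mul_pos (Nat.succ_pos x) hZ
  rw [mem_filter, mem_filter, mem_filter, mem_Ioc, Pool.Agent.Lib.OW.mem_PR, Real.exp_log h1, Real.exp_log h2,
    Nat.cast_lt, Nat.cast_le]
  tauto

private theorem WG_main {N x Z q a A : ℕ} {C κ s0 : ℝ} (hx : 1 ≤ x) (hx3 : x ≤ 3) (hN : 1 < N) (hC1 : 1 ≤ C)
    (hκK : κ ^ 100 = Real.log N) (hκ1 : 3200 ≤ κ) (hκ2 : 1600 * C ≤ κ) (hκ3 : s0 ≤ κ)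
    (hκ4 : κ ^ (100 * (A + 1) + 1) ≤ Real.exp κ) (hZ : Real.exp (κ ^ 90) ≤ Z) (hq : 1 ≤ q)
    (hqA : (q : ℝ) ≤ (Real.log N) ^ A)
    (hC : ∀ s t : ℝ, 1 ≤ s → s ≤ t → t ≤ s + 1 →
      |∑ p ∈ (Pool.Agent.Lib.OW.PR s t).filter (fun p => p ≡ a [MOD q]), 1 / (p : ℝ) -
        (∑ p ∈ Pool.Agent.Lib.OW.PR s t, 1 / (p : ℝ)) / (q.totient : ℝ)| ≤ C * q / s ^ (4 * A + 4))
    (hs0 : ∀ s t : ℝ, s0 ≤ s → s + 1 / s ^ 1 ≤ t → t ≤ s + 1 →
      (t - s) / (20 * s) ≤ ∑ p ∈ Pool.Agent.Lib.OW.PR s t, 1 / (p : ℝ)) :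
    0 < ∑ p ∈ Pool.Agent.Lib.OW.PR (Real.log ((x * Z : ℕ) : ℝ)) (Real.log (((x + 1) * Z : ℕ) : ℝ)), 1 / (p : ℝ) ∧
    |WCL N x Z q a - (∑ p ∈ Pool.Agent.Lib.OW.PR (Real.log ((x * Z : ℕ) : ℝ)) (Real.log (((x + 1) * Z : ℕ) : ℝ)),
      1 / (p : ℝ)) / (q.totient : ℝ)| ≤ 0.1 * ((∑ p ∈ Pool.Agent.Lib.OW.PR (Real.log ((x * Z : ℕ) : ℝ))
      (Real.log (((x + 1) * Z : ℕ) : ℝ)), 1 / (p : ℝ)) / (q.totient : ℝ)) := by
  have hκ0 : (1 : ℝ) ≤ κ := by linarith
  have hκ90 : κ ≤ κ ^ 90 := by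
    calc κ = κ ^ 1 := (pow_one κ).symm
      _ ≤ κ ^ 90 := pow_le_pow_right₀ hκ0 (by norm_num)
  have hZ0 : (0 : ℝ) < Z := lt_of_lt_of_le (Real.exp_pos _) hZ
  have hZ1 : 1 ≤ Z := by
    have : 0 < Z := by exact_mod_cast hZ0
    omega
  have hx1 : 1 ≤ x := hx
  have hxr : (0 : ℝ) < x := by exact_mod_cast hx1
  obtain ⟨K, hK⟩ : ∃ K : ℝ, K = Real.log N := ⟨_, rfl⟩
  obtain ⟨s, hs⟩ : ∃ s : ℝ, s = Real.log ((x * Z : ℕ) : ℝ) := ⟨_, rfl⟩
  obtain ⟨t, ht⟩ : ∃ t : ℝ, t = Real.log (((x + 1) * Z : ℕ) : ℝ) := ⟨_, rfl⟩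
  have hs' : s = Real.log x + Real.log Z := by
    rw [hs, Nat.cast_mul, Real.log_mul hxr.ne' hZ0.ne']
  have ht' : t = Real.log ((x : ℝ) + 1) + Real.log Z := by
    rw [ht, Nat.cast_mul, Nat.cast_add, Nat.cast_one, Real.log_mul (by positivity) hZ0.ne']
  have hlZ : κ ^ 90 ≤ Real.log Z := (Real.le_log_iff_exp_le hZ0).2 hZ
  have hlx : 0 ≤ Real.log (x : ℝ) := Real.log_nonneg (by exact_mod_cast hx1)
  have hsκ : κ ^ 90 ≤ s := by
    rw [hs']
    linarith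
  have hκs : κ ≤ s := hκ90.trans hsκ
  have hs1 : 1 ≤ s := hκ0.trans hκs
  have hts : 1 / 4 ≤ t - s ∧ t - s ≤ 1 := by
    have h1 : t - s = Real.log (((x : ℝ) + 1) / x) := by
      rw [hs', ht', Real.log_div (by positivity) hxr.ne']
      ring
    rw [h1]
    have h3 : (1 : ℝ) / 4 ≤ Real.log (4 / 3) := by
      rw [Real.le_log_iff_exp_le (by norm_num)]
      have h4 : Real.exp (1 / 4 : ℝ) ^ 4 < (4 / 3 : ℝ) ^ 4 := by
        rw [← Real.exp_nat_mul]
        have h5 := Real.exp_one_lt_d9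
        norm_num
        linarith
      exact (lt_of_pow_lt_pow_left₀ 4 (by norm_num) h4).le
    have hx1r : (1 : ℝ) ≤ x := by exact_mod_cast hx
    have hx3r : (x : ℝ) ≤ 3 := by exact_mod_cast hx3
    have h7 : (4 : ℝ) / 3 ≤ ((x : ℝ) + 1) / x := by
      rw [le_div_iff₀ hxr]
      linarith
    have h8 : ((x : ℝ) + 1) / x ≤ 2 := by
      rw [div_le_iff₀ hxr]
      linarith
    have h9 : (0 : ℝ) < ((x : ℝ) + 1) / x := by positivity
    constructor
    · exact h3.trans (Real.log_le_log (by norm_num) h7)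
    · have h10 := Real.log_le_sub_one_of_pos h9
      linarith
  have hst : s ≤ t := by linarith
  have hst1 : t ≤ s + 1 := by linarith
  have hlo : s + 1 / s ^ 1 ≤ t := by
    have h1 : 1 / s ^ 1 ≤ 1 / 4 := by
      rw [pow_one]
      exact one_div_le_one_div_of_le (by norm_num) (by linarith)
    linarith
  rw [← hs, ← ht]
  obtain ⟨V, hV⟩ : ∃ V : ℝ, V = ∑ p ∈ Pool.Agent.Lib.OW.PR s t, 1 / (p : ℝ) := ⟨_, rfl⟩
  rw [← hV]
  have hVlo : 1 / (80 * s) ≤ V := by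
    rw [hV]
    refine le_trans ?_ (hs0 s t (hκ3.trans hκs) hlo hst1)
    rw [div_le_div_iff₀ (by positivity) (by positivity)]
    nlinarith [hts.1]
  have hV0 : 0 < V := lt_of_lt_of_le (by positivity) hVlo
  refine ⟨hV0, ?_⟩
  have h1 := hC s t hs1 hst hst1
  rw [← hV] at h1
  have h2 : WCL N x Z q a = ∑ p ∈ (Pool.Agent.Lib.OW.PR s t).filter (fun p => p ≡ a [MOD q]), 1 / (p : ℝ) -
      ∑ p ∈ ((Pool.Agent.Lib.OW.PR s t).filter (fun p => p ≡ a [MOD q])).filter (fun p => p ∣ N), 1 / (p : ℝ) := by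
    have h3 := sum_filter_add_sum_filter_not ((Pool.Agent.Lib.OW.PR s t).filter (fun p => p ≡ a [MOD q]))
      (fun p => p ∣ N) (fun p => 1 / (p : ℝ))
    rw [WCL, WG_set hx1 hZ1, ← hs, ← ht]
    linarith
  have h3 : ∑ p ∈ ((Pool.Agent.Lib.OW.PR s t).filter (fun p => p ≡ a [MOD q])).filter (fun p => p ∣ N), 1 / (p : ℝ) ≤
      K * Real.exp (-s) := by
    have h4 := div_loss (N := N) (by omega) (by linarith : 0 < s) t
    rw [← hK] at h4
    have hK0 : 0 ≤ K := by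
      rw [hK]
      exact Real.log_natCast_nonneg N
    refine le_trans ?_ (h4.trans (mul_le_mul_of_nonneg_right (div_le_self hK0 hs1) (Real.exp_pos _).le))
    refine sum_le_sum_of_subset_of_nonneg ?_ fun _ _ _ => by positivity
    intro p hp
    rw [mem_filter, mem_filter] at hp
    rw [mem_filter]
    exact ⟨hp.1.1, hp.2⟩
  have h3' : 0 ≤ ∑ p ∈ ((Pool.Agent.Lib.OW.PR s t).filter (fun p => p ≡ a [MOD q])).filter (fun p => p ∣ N),
      1 / (p : ℝ) := sum_nonneg fun _ _ => by positivity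
  obtain ⟨f, hf⟩ : ∃ f : ℝ, f = (q.totient : ℝ) := ⟨_, rfl⟩
  rw [← hf] at h1 ⊢
  rw [← hK] at hqA hκK
  have hf1 : 1 ≤ f := by
    rw [hf]
    exact_mod_cast Nat.totient_pos.mpr hq
  have hf0 : 0 < f := by linarith
  have hfK : f ≤ K ^ A := by
    rw [hf]
    refine le_trans ?_ hqA
    exact_mod_cast Nat.totient_le q
  have hK1 : 1 ≤ K := by
    rw [← hκK]
    exact one_le_pow₀ hκ0
  -- errors
  have hexp : K * Real.exp (-s) * (800 * s * f) ≤ 1 / 2 := by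
    have h4 : s ≤ 2 * Real.exp (s / 2) := by
      have := Real.add_one_le_exp (s / 2)
      linarith
    have h5 : Real.exp (-s) * s ≤ 2 * Real.exp (-(s / 2)) := by
      calc Real.exp (-s) * s ≤ Real.exp (-s) * (2 * Real.exp (s / 2)) :=
            mul_le_mul_of_nonneg_left h4 (Real.exp_pos _).le
        _ = 2 * (Real.exp (-s) * Real.exp (s / 2)) := by ring
        _ = 2 * Real.exp (-(s / 2)) := by
            rw [← Real.exp_add]
            congr 2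
            ring
    have h6 : Real.exp (-(s / 2)) ≤ Real.exp (-κ) := by
      apply Real.exp_le_exp.mpr
      have h7 : 2 * κ ≤ κ ^ 90 := by
        calc 2 * κ ≤ κ * κ := mul_le_mul_of_nonneg_right (by linarith) (by linarith)
          _ = κ ^ 2 := by ring
          _ ≤ κ ^ 90 := pow_le_pow_right₀ hκ0 (by norm_num)
      linarith
    have h7 : 3200 * K ^ (A + 1) ≤ Real.exp κ := by
      refine le_trans ?_ hκ4
      rw [pow_succ κ, pow_mul, hκK, mul_comm]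
      exact mul_le_mul_of_nonneg_left hκ1 (by positivity)
    calc K * Real.exp (-s) * (800 * s * f) = 800 * K * f * (Real.exp (-s) * s) := by ring
      _ ≤ 800 * K * K ^ A * (2 * Real.exp (-κ)) := by
          apply mul_le_mul _ (h5.trans (by linarith)) (by positivity) (by positivity)
          exact mul_le_mul_of_nonneg_left hfK (by positivity)
      _ = (3200 * K ^ (A + 1)) * Real.exp (-κ) / 2 := by ring
      _ ≤ Real.exp κ * Real.exp (-κ) / 2 := by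
          apply div_le_div_of_nonneg_right _ (by norm_num : (0 : ℝ) ≤ 2)
          exact mul_le_mul_of_nonneg_right h7 (Real.exp_pos _).le
      _ = 1 / 2 := by rw [← Real.exp_add, add_neg_cancel, Real.exp_zero]
  have hpow : C * q / s ^ (4 * A + 4) * (800 * s * f) ≤ 1 / 2 := by
    have h4 : C * q / s ^ (4 * A + 4) * (800 * s * f) = 800 * C * (q * f) / s ^ (4 * A + 3) := by
      have h5 : s ^ (4 * A + 4) = s ^ (4 * A + 3) * s := by ring
      rw [h5]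
      have hs0' : s ≠ 0 := by linarith
      field_simp
    rw [h4, div_le_iff₀ (by positivity)]
    have h5 : (q : ℝ) * f ≤ K ^ A * K ^ A := mul_le_mul hqA hfK hf0.le (by positivity)
    have h6 : κ * (K ^ A * K ^ A) ≤ s ^ (4 * A + 3) := by
      have h7 : κ * (K ^ A * K ^ A) = κ ^ (200 * A + 1) := by
        rw [← hκK]
        ring
      rw [h7]
      calc κ ^ (200 * A + 1) ≤ κ ^ (90 * (4 * A + 3)) := pow_le_pow_right₀ hκ0 (by omega)
        _ = (κ ^ 90) ^ (4 * A + 3) := pow_mul _ _ _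
        _ ≤ s ^ (4 * A + 3) := pow_le_pow_left₀ (by positivity) hsκ _
    calc 800 * C * (q * f) ≤ 800 * C * (K ^ A * K ^ A) := mul_le_mul_of_nonneg_left h5 (by positivity)
      _ = 1 / 2 * ((1600 * C) * (K ^ A * K ^ A)) := by ring
      _ ≤ 1 / 2 * (κ * (K ^ A * K ^ A)) :=
          mul_le_mul_of_nonneg_left (mul_le_mul_of_nonneg_right hκ2 (by positivity)) (by norm_num)
      _ ≤ 1 / 2 * s ^ (4 * A + 3) := mul_le_mul_of_nonneg_left h6 (by norm_num)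
  have herr : C * q / s ^ (4 * A + 4) + K * Real.exp (-s) ≤ 0.1 * (V / f) := by
    have h4 : (C * q / s ^ (4 * A + 4) + K * Real.exp (-s)) * (800 * s * f) ≤ 1 := by linarith
    have h5 : 1 / (800 * s * f) ≤ 0.1 * (V / f) := by
      calc 1 / (800 * s * f) = 0.1 * (1 / (80 * s) / f) := by
            have hs0' : s ≠ 0 := by linarith
            field_simp
            norm_num
        _ ≤ 0.1 * (V / f) := mul_le_mul_of_nonneg_left (div_le_div_of_nonneg_right hVlo hf0.le) (by norm_num)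
    refine le_trans ?_ h5
    rw [le_div_iff₀ (by positivity)]
    exact h4
  rw [h2]
  rw [abs_le] at h1 ⊢
  constructor
  · linarith [h1.1]
  · linarith [h1.2]

private theorem WG_Kk (N : ℕ) : kp N ^ 100 = Real.log N := by
  unfold kp
  rw [← Real.rpow_natCast, ← Real.rpow_mul (Real.log_natCast_nonneg N)]
  norm_num

theorem ev_wcl3 (A : ℕ) : ∀ᶠ N : ℕ in atTop, ∀ x : ℕ, 1 ≤ x → x ≤ 3 → ∀ Z : ℕ, Real.exp ((kp N) ^ 90) ≤ Z → ∃ V : ℝ, 0 < V ∧ ∀ q a : ℕ, 1 ≤ q →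
    (q : ℝ) ≤ (Real.log N) ^ A → a.Coprime q → 0.9 * V / q.totient ≤ WCL N x Z q a ∧ WCL N x Z q a ≤ 1.1 * V / q.totient := by
  obtain ⟨C, hC1, hC⟩ := ap_err (4 * A + 4)
  obtain ⟨s0, hs01, hs0⟩ := ap_lo 1
  filter_upwards [WG_kp.eventually_ge_atTop 3200, WG_kp.eventually_ge_atTop (1600 * C),
    WG_kp.eventually_ge_atTop s0, WG_kp.eventually (WG_exp (100 * (A + 1) + 1)),
    eventually_gt_atTop 1] with N hk1 hk2 hk3 hk4 hN
  intro x hx hx3 Z hZ
  have hKk : kp N ^ 100 = Real.log N := WG_Kk N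
  have hmain := fun (q a : ℕ) (hq : 1 ≤ q) (hqA : (q : ℝ) ≤ (Real.log N) ^ A) (hqa : a.Coprime q) =>
    WG_main (N := N) (x := x) (Z := Z) (q := q) (a := a) (A := A) hx hx3 hN hC1 hKk hk1 hk2 hk3 hk4 hZ hq hqA
      (hC q a hq hqa) hs0
  obtain ⟨V, hV⟩ : ∃ V : ℝ, V = ∑ p ∈ Pool.Agent.Lib.OW.PR (Real.log ((x * Z : ℕ) : ℝ))
    (Real.log (((x + 1) * Z : ℕ) : ℝ)), 1 / (p : ℝ) := ⟨_, rfl⟩
  simp only [← hV] at hmain
  refine ⟨V, ?_, ?_⟩
  · have h1 : ((1 : ℕ) : ℝ) ≤ (Real.log N) ^ A := by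
      rw [Nat.cast_one, ← hKk]
      exact one_le_pow₀ (one_le_pow₀ (by linarith))
    exact (hmain 1 1 le_rfl h1 (Nat.coprime_one_right 1)).1
  · intro q a hq hqA hqa
    have h1 := (hmain q a hq hqA hqa).2
    rw [abs_le] at h1
    have h2 : 0.9 * V / (q.totient : ℝ) = 0.9 * (V / q.totient) := by ring
    have h3 : 1.1 * V / (q.totient : ℝ) = 1.1 * (V / q.totient) := by ring
    rw [h2, h3]
    constructor
    · linarith [h1.1]
    · linarith [h1.2]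

end MPar

end Pool.Agent.Lib.TC
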