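import Pool.Agent.Lib.MP_7b7e48_nt.BR3.L
import Pool.Agent.Lib.MP_7b7e48_nt.T3S.N
import Pool.Agent.Lib.MP_7b7e48_nt.T3B.E0

/-!
# T3S.L (40 minutes): lower bounds for the masses

`mass_x3`, `mass_y3`: windows: `h.wx`, `h.wa`, `h.wb`; free sets: `L.mass_lo hQ h.lg` (the sets `FX`, `FY` of `sys` and `sys3` are the same); other marks: `OX3 i t` is `OXs i t` (`mPX`, `mRS`: `≥ 1/(5 l0)`, `≥ 1/(1.1 G)`; or `mass_lo` for the index `i nit + t`), `U1 i`, `U2 i`: `≥ 1/(100 l0) ≥ 2/K^2` (`l0 ≤ κ`, `κ^100 = K`).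
`xi_mass`: for `e < k (nit + 2)`, the mass of `OX3 i t`: `≥ 1/(5 l0)` if `t < np`, `≥ 1/(1.1 G)` if `np ≤ t < nit`, `≥ 1/(100 l0)` if `t ≥ nit`.
-/

set_option autoImplicit false

open Finset

namespace Pool.Agent.Lib.TC

open Pool.Agent.Lib.TCB (famX)

namespace MPar

variable {Q : MPar} {N : ℕ}

private theorem T3L_kp (h : Q.Lg N) : (10 : ℝ) ^ 10 ≤ kp N := by
  have hk0 := h.k0
  have hk4 : (1 : ℝ) ≤ ((Q.k : ℝ) + 1) ^ 4 := one_le_pow₀ (by have : (0 : ℝ) ≤ Q.k := Nat.cast_nonneg _; linarith)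
  nlinarith

private theorem T3L_G (h : Q.Lg N) : (Q.G : ℝ) ≤ kp N := by
  have hk0 := h.k0
  have h0 : (0 : ℝ) ≤ Q.k := Nat.cast_nonneg _
  have h1 : (Q.la : ℝ) ≤ ((Q.k : ℝ) + 1) ^ 2 := by
    have h2 : Q.la ≤ (Q.k + 1) ^ 2 := Nat.div_le_self _ _
    exact_mod_cast h2
  have h2 : (Q.G : ℝ) = Q.la + 6 * Q.k := by
    unfold G
    push_cast
    ring
  have h3 : ((Q.k : ℝ) + 1) ^ 4 = ((Q.k : ℝ) + 1) ^ 2 * ((Q.k : ℝ) + 1) ^ 2 := by ring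
  have h4 : (1 : ℝ) ≤ ((Q.k : ℝ) + 1) ^ 2 := one_le_pow₀ (by linarith)
  have h5 : ((Q.k : ℝ) + 1) ^ 2 ≤ ((Q.k : ℝ) + 1) ^ 4 := by
    rw [h3]
    nlinarith
  nlinarith

private theorem T3L_lo (hQ : Q.Ok) (h : Q.Lg N) :
    2 / (Real.log N) ^ 2 ≤ 1 / (1.1 * (Q.G : ℝ)) ∧ 2 / (Real.log N) ^ 2 ≤ 1 / (5 * Q.l0 N) ∧
      2 / (Real.log N) ^ 2 ≤ 1 / (100 * Q.l0 N) := by
  have hκ := T3L_kp h
  have hG : (0 : ℝ) < Q.G := by exact_mod_cast G_pos hQ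
  have hG2 := T3L_G h
  have hl := h.lk
  have hlb := h.lb
  have hl0 : 0 < Q.l0 N := lt_of_lt_of_le (by positivity) hlb
  have hK := h.K1
  have hK0 : 0 < Real.log N := lt_of_lt_of_le (by norm_num) hK
  have hKκ : kp N ≤ Real.log N := by
    rw [← h.Kk]
    calc kp N = kp N ^ 1 := (pow_one _).symm
      _ ≤ kp N ^ 100 := pow_le_pow_right₀ (le_trans (by norm_num) hκ) (by norm_num)
  have h1 : (10 : ℝ) ^ 10 * kp N ≤ (Real.log N) ^ 2 := by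
    rw [sq]
    exact mul_le_mul hK hKκ (by linarith) hK0.le
  refine ⟨?_, ?_, ?_⟩
  · rw [div_le_div_iff₀ (by positivity) (by positivity)]
    linarith
  · rw [div_le_div_iff₀ (by positivity) (by positivity)]
    linarith
  · rw [div_le_div_iff₀ (by positivity) (by positivity)]
    linarith

theorem xi_mass (hQ : Q.Ok) (h : Q.Lg3 N) {i t : ℕ} (hi : i < Q.k) : (t < Q.np N → 1 / (5 * Q.l0 N) ≤ ∑ p ∈ Q.OX3 N i t, 1 / (p : ℝ)) ∧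
    (Q.np N ≤ t → t < Q.nit N → 1 / (1.1 * Q.G) ≤ ∑ p ∈ Q.OX3 N i t, 1 / (p : ℝ)) ∧
    (Q.nit N ≤ t → 1 / (100 * Q.l0 N) ≤ ∑ p ∈ Q.OX3 N i t, 1 / (p : ℝ)) := by
  have hL := h.lg
  refine ⟨fun ht => ?_, fun h1 h2 => ?_, fun h1 => ?_⟩
  · have h3 : t < Q.nit N := by
      have : Q.nit N = Q.np N + Q.nr N := rfl
      omega
    unfold OX3
    rw [if_pos h3]
    unfold OXs
    rw [if_pos ht]
    exact mPX hQ hL hi ht
  · unfold OX3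
    rw [if_pos h2]
    unfold OXs
    rw [if_neg (not_lt.2 h1)]
    have hr : t - Q.np N < Q.nr N := by
      have hnit : Q.nit N = Q.np N + Q.nr N := rfl
      omega
    exact mRS hQ hL hi hr
  · unfold OX3
    rw [if_neg (not_lt.2 h1)]
    split_ifs
    · exact h.f1 i hi
    · exact h.f2 i hi

theorem yi_mass (hQ : Q.Ok) (h : Q.Lg3 N) {i t : ℕ} (hi : i < Q.k) : (t < Q.np N → 1 / (5 * Q.l0 N) ≤ ∑ p ∈ Q.OY3 N i t, 1 / (p : ℝ)) ∧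
    (t = Q.np N → 1 / (1.1 * Q.G) ≤ ∑ p ∈ Q.OY3 N i t, 1 / (p : ℝ)) ∧
    (Q.np N < t → 1 / (100 * Q.l0 N) ≤ ∑ p ∈ Q.OY3 N i t, 1 / (p : ℝ)) := by
  have hL := h.lg
  refine ⟨fun ht => ?_, fun h1 => ?_, fun h1 => ?_⟩
  · unfold OY3
    rw [if_pos (by omega)]
    unfold OYs
    rw [if_pos ht]
    exact mPY hQ hL hi ht
  · unfold OY3
    rw [if_pos (by omega)]
    unfold OYs
    rw [if_neg (by omega)]
    exact mBal hQ hL hi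
  · unfold OY3
    rw [if_neg (by omega)]
    exact h.f3 i hi

theorem mass_x3 (hQ : Q.Ok) (h : Q.Lg3 N) : (∀ i, 2 / (Real.log N) ^ 2 ≤ ∑ p ∈ (Q.sys3 N).WX i, 1 / (p : ℝ)) ∧
    (∀ f, 2 / (Real.log N) ^ 2 ≤ ∑ p ∈ (Q.sys3 N).FX f, 1 / (p : ℝ)) ∧ ∀ e, 2 / (Real.log N) ^ 2 ≤ ∑ p ∈ (Q.sys3 N).OX e, 1 / (p : ℝ) := by
  obtain ⟨a1, a2, a3⟩ := T3L_lo hQ h.lg
  refine ⟨fun i => h.wx i (Nat.lt_succ_iff.1 i.2), fun f => a1.trans (mFX hQ h.lg f.2), fun e => ?_⟩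
  have he : (e : ℕ) < Q.k * (Q.nit N + 2) := e.2
  have hi : (e : ℕ) / (Q.nit N + 2) < Q.k := Nat.div_lt_of_lt_mul (by rwa [Nat.mul_comm])
  obtain ⟨b1, b2, b3⟩ := xi_mass (t := (e : ℕ) % (Q.nit N + 2)) hQ h hi
  show 2 / (Real.log N) ^ 2 ≤ ∑ p ∈ Q.OX3 N ((e : ℕ) / (Q.nit N + 2)) ((e : ℕ) % (Q.nit N + 2)), 1 / (p : ℝ)
  by_cases h1 : (e : ℕ) % (Q.nit N + 2) < Q.np N
  · exact a2.trans (b1 h1)
  · by_cases h2 : (e : ℕ) % (Q.nit N + 2) < Q.nit N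
    · exact a1.trans (b2 (not_lt.1 h1) h2)
    · exact a3.trans (b3 (not_lt.1 h2))

theorem mass_y3 (hQ : Q.Ok) (h : Q.Lg3 N) : (∀ i, 2 / (Real.log N) ^ 2 ≤ ∑ p ∈ Q.WA N i, 1 / (p : ℝ)) ∧
    (∀ i, 2 / (Real.log N) ^ 2 ≤ ∑ p ∈ Q.WB N i, 1 / (p : ℝ)) ∧
    (∀ f, 2 / (Real.log N) ^ 2 ≤ ∑ p ∈ (Q.sys3 N).FY f, 1 / (p : ℝ)) ∧ ∀ e, 2 / (Real.log N) ^ 2 ≤ ∑ p ∈ (Q.sys3 N).OY e, 1 / (p : ℝ) := by
  obtain ⟨a1, a2, a3⟩ := T3L_lo hQ h.lg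
  refine ⟨fun i => h.wa i (Nat.lt_succ_iff.1 i.2), fun i => h.wb i (Nat.lt_succ_iff.1 i.2),
    fun f => a1.trans (mFX hQ h.lg f.2), fun e => ?_⟩
  have he : (e : ℕ) < Q.k * (Q.np N + 2) := e.2
  have hi : (e : ℕ) / (Q.np N + 2) < Q.k := Nat.div_lt_of_lt_mul (by rwa [Nat.mul_comm])
  obtain ⟨b1, b2, b3⟩ := yi_mass (t := (e : ℕ) % (Q.np N + 2)) hQ h hi
  show 2 / (Real.log N) ^ 2 ≤ ∑ p ∈ Q.OY3 N ((e : ℕ) / (Q.np N + 2)) ((e : ℕ) % (Q.np N + 2)), 1 / (p : ℝ)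
  rcases lt_trichotomy ((e : ℕ) % (Q.np N + 2)) (Q.np N) with h1 | h1 | h1
  · exact a2.trans (b1 h1)
  · exact a1.trans (b2 h1)
  · exact a3.trans (b3 h1)

theorem mass_fam3 (hQ : Q.Ok) (h : Q.Lg3 N) : (∀ c, 2 / (Real.log N) ^ 2 ≤ ∑ p ∈ famX (Q.sys3 N) c, 1 / (p : ℝ)) ∧
    ∀ c, 2 / (Real.log N) ^ 2 ≤ ∑ p ∈ T3B.famY3 (Q.sys3 N) (Q.WA N) (Q.WB N) c, 1 / (p : ℝ) := by
  obtain ⟨x1, x2, x3⟩ := mass_x3 hQ h
  obtain ⟨y1, y2, y3, y4⟩ := mass_y3 hQ h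
  constructor
  · intro c
    unfold famX
    refine Fin.addCases (fun c => ?_) (fun e => ?_) c
    · rw [Fin.append_left]
      refine Fin.addCases (fun i => ?_) (fun f => ?_) c
      · rw [Fin.append_left]
        exact x1 i
      · rw [Fin.append_right]
        exact x2 f
    · rw [Fin.append_right]
      exact x3 e
  · intro c
    unfold T3B.famY3
    refine Fin.addCases (fun c => ?_) (fun e => ?_) c
    · rw [Fin.append_left]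
      refine Fin.addCases (fun c => ?_) (fun f => ?_) c
      · rw [Fin.append_left]
        refine Fin.addCases (fun i => ?_) (fun i => ?_) c
        · rw [Fin.append_left]
          exact y1 i
        · rw [Fin.append_right]
          exact y2 i
      · rw [Fin.append_right]
        exact y3 f
    · rw [Fin.append_right]
      exact y4 e

end MPar

end Pool.Agent.Lib.TC
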