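import Pool.Agent.Lib.MP_7b7e48_nt.BR3.E2
import Pool.Agent.Lib.MP_7b7e48_nt.BR3.J2
import Pool.Agent.Lib.MP_7b7e48_nt.T3S.N

/-!
# T3S.WM (50 minutes): the masses of the windows

Copy the private lemmas `E2_PR`, `E2_core` of `BR3/E2.lean` (`1 ≤ c ≤ 3` is all that is needed) and use them with `c = 3`, `z = Z3 i`; `c = 3`, `z = V i`; `c = 2`, `z = V i`; `Q0 = W ^ 2`, `a = 1` resp. `b i`.
`V i = hf.Z i`: `Z_le (hf_ok hQ) lh` gives `exp (κ ^ 90) ≤ V i ≤ N ^ (1/2)`; sharper: `4 V i ≤ N ^ (3 (k+1) e1 / 2)` (`wi_le` for `hf`), so `4 Z3 i = 24 (V i)^2 ≤ 2 (4 V i)^2 ≤ 2 N ^ (3 (k+1) e1) ≤ N` (`80 (k+1) e1 ≤ 1`).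
`ev_Lg hQ`, `ev_Lg (hf_ok hQ)` are available.
-/

set_option autoImplicit false

open Finset Filter

namespace Pool.Agent.Lib.TC

namespace MPar

open Pool.Agent.Lib.OW (PR)

private theorem WM_PR {c z : ℕ} (hc : 1 ≤ c) (hz : 1 ≤ z) :
    PR (Real.log (c * z)) (Real.log ((c + 1) * z)) = (Ioc (c * z) ((c + 1) * z)).filter Nat.Prime := by
  have hc0 : (0 : ℝ) < c := by exact_mod_cast hc
  have hz0 : (0 : ℝ) < z := by exact_mod_cast hz
  unfold Pool.Agent.Lib.OW.PR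
  rw [Real.exp_log (by positivity), Real.exp_log (by positivity)]
  have h1 : ⌊(c : ℝ) * z⌋₊ = c * z := by
    rw [← Nat.cast_mul, Nat.floor_natCast]
  have h2 : ⌊((c : ℝ) + 1) * z⌋₊ = (c + 1) * z := by
    rw [show ((c : ℝ) + 1) * z = (((c + 1) * z : ℕ) : ℝ) by push_cast; ring, Nat.floor_natCast]
  rw [h1, h2]

private theorem WM_core : ∃ C : ℝ, 1 ≤ C ∧ ∀ (N Q0 a z c : ℕ), 1 ≤ N → 1 ≤ Q0 → a.Coprime Q0 → 1 ≤ c → c ≤ 3 → 1 ≤ z →
    8 * C * (Q0 : ℝ) ^ 2 ≤ Real.log z → 32 * (Q0 : ℝ) ≤ Real.log N → (c + 1) * z ≤ N → (Real.log N) ^ 3 ≤ z →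
    2 / (Real.log N) ^ 2 ≤ ∑ p ∈ (Ioc (c * z) ((c + 1) * z)).filter (fun p => p.Prime ∧ ¬ p ∣ N ∧ p ≡ a [MOD Q0]), 1 / (p : ℝ) := by
  obtain ⟨C, hC, hT⟩ := Pool.Agent.Lib.OW.theta_int 1
  refine ⟨C, hC, ?_⟩
  intro N Q0 a z c hN hQ ha hc hc3 hz hlz hK hzN hK3
  have hc0 : (1 : ℝ) ≤ c := by exact_mod_cast hc
  have hc4 : (c : ℝ) + 1 ≤ 4 := by
    have : (c : ℝ) ≤ 3 := by exact_mod_cast hc3
    linarith
  have hz1 : (1 : ℝ) ≤ z := by exact_mod_cast hz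
  have hz0 : (0 : ℝ) < z := by linarith
  have hQ1 : (1 : ℝ) ≤ Q0 := by exact_mod_cast hQ
  have hQ2 : (1 : ℝ) ≤ (Q0 : ℝ) ^ 2 := one_le_pow₀ hQ1
  have hCQ : 8 ≤ 8 * C * (Q0 : ℝ) ^ 2 := by nlinarith
  have hK0 : 0 < Real.log N := by linarith
  have hcz : (z : ℝ) ≤ c * z := by nlinarith
  have hs : Real.log z ≤ Real.log (c * z) := Real.log_le_log hz0 hcz
  have hs1 : 1 ≤ Real.log (c * z) := by linarith
  have hst : Real.log (c * z) ≤ Real.log ((c + 1) * z) :=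
    Real.log_le_log (by positivity) (mul_le_mul_of_nonneg_right (by linarith) hz0.le)
  have h1 := hT Q0 a hQ ha _ _ hs1 hst
  have hp := WM_PR hc hz
  rw [hp] at h1
  rw [Real.exp_log (by positivity), Real.exp_log (by positivity), pow_one] at h1
  have hphi : (Q0.totient : ℝ) ≤ Q0 := by exact_mod_cast Nat.totient_le Q0
  have hphi0 : (0 : ℝ) < Q0.totient := by exact_mod_cast Nat.totient_pos.2 hQ
  have h2 : (z : ℝ) / Q0 ≤ (((c : ℝ) + 1) * z - c * z) / Q0.totient := by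
    rw [show ((c : ℝ) + 1) * z - c * z = z by ring]
    exact div_le_div_of_nonneg_left hz0.le hphi0 hphi
  have h3 : C * Q0 * (((c : ℝ) + 1) * z) / Real.log (c * z) ≤ z / (2 * Q0) := by
    rw [div_le_div_iff₀ (by linarith) (by positivity)]
    have h4 : C * Q0 * (((c : ℝ) + 1) * z) * (2 * Q0) ≤ C * Q0 * (4 * z) * (2 * Q0) := by
      have : ((c : ℝ) + 1) * z ≤ 4 * z := mul_le_mul_of_nonneg_right hc4 hz0.le
      have h5 : 0 ≤ C * Q0 := by positivity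
      exact mul_le_mul_of_nonneg_right (mul_le_mul_of_nonneg_left this h5) (by positivity)
    have h6 : (z : ℝ) * (8 * C * (Q0 : ℝ) ^ 2) ≤ z * Real.log (c * z) := mul_le_mul_of_nonneg_left (hlz.trans hs) hz0.le
    calc _ ≤ _ := h4
      _ = z * (8 * C * (Q0 : ℝ) ^ 2) := by ring
      _ ≤ _ := h6
  have h4 : (z : ℝ) / (2 * Q0) ≤ ∑ p ∈ ((Ioc (c * z) ((c + 1) * z)).filter Nat.Prime).filter (fun p => p ≡ a [MOD Q0]), Real.log p := by
    have h5 := (abs_le.1 h1).1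
    have h6 : (z : ℝ) / Q0 = z / (2 * Q0) + z / (2 * Q0) := by
      field_simp
      ring
    linarith
  have h5 : 1 / (8 * Q0 * Real.log N) ≤ ∑ p ∈ ((Ioc (c * z) ((c + 1) * z)).filter Nat.Prime).filter (fun p => p ≡ a [MOD Q0]), 1 / (p : ℝ) := by
    have h6 : ∀ p ∈ ((Ioc (c * z) ((c + 1) * z)).filter Nat.Prime).filter (fun p => p ≡ a [MOD Q0]),
        Real.log p / (4 * z * Real.log N) ≤ 1 / (p : ℝ) := by
      intro p hp
      obtain ⟨h7, -⟩ := mem_filter.1 hp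
      obtain ⟨h8, h9⟩ := mem_filter.1 h7
      obtain ⟨-, h10⟩ := mem_Ioc.1 h8
      have hp0 : (0 : ℝ) < p := by exact_mod_cast h9.pos
      have hpz : (p : ℝ) ≤ 4 * z := by
        have : (p : ℝ) ≤ ((c : ℝ) + 1) * z := by exact_mod_cast h10
        exact this.trans (mul_le_mul_of_nonneg_right hc4 hz0.le)
      have hpN : Real.log p ≤ Real.log N := Real.log_le_log hp0 (by exact_mod_cast h10.trans hzN)
      rw [div_le_div_iff₀ (by positivity) hp0]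
      calc Real.log p * p ≤ Real.log N * (4 * z) := mul_le_mul hpN hpz hp0.le hK0.le
        _ = 1 * (4 * z * Real.log N) := by ring
    have h7 := sum_le_sum h6
    rw [← sum_div] at h7
    refine le_trans ?_ h7
    rw [div_le_div_iff₀ (by positivity) (by positivity)]
    have h8 : (z : ℝ) / (2 * Q0) * (8 * Q0 * Real.log N) = 1 * (4 * z * Real.log N) := by
      field_simp
      ring
    rw [← h8]
    exact mul_le_mul_of_nonneg_right h4 (by positivity)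
  have h6 : ∑ p ∈ ((Ioc (c * z) ((c + 1) * z)).filter Nat.Prime).filter (fun p => p ≡ a [MOD Q0]), 1 / (p : ℝ) ≤
      ∑ p ∈ (Ioc (c * z) ((c + 1) * z)).filter (fun p => p.Prime ∧ ¬ p ∣ N ∧ p ≡ a [MOD Q0]), 1 / (p : ℝ) +
      ∑ p ∈ (PR (Real.log (c * z)) (Real.log ((c + 1) * z))).filter (fun p => p ∣ N), 1 / (p : ℝ) := by
    rw [hp, ← sum_filter_add_sum_filter_not (((Ioc (c * z) ((c + 1) * z)).filter Nat.Prime).filter (fun p => p ≡ a [MOD Q0])) (fun p => ¬ p ∣ N)]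
    refine add_le_add (sum_le_sum_of_subset_of_nonneg ?_ fun p _ _ => by positivity) (sum_le_sum_of_subset_of_nonneg ?_ fun p _ _ => by positivity)
    · intro p hp
      rw [mem_filter, mem_filter, mem_filter] at hp
      rw [mem_filter]
      exact ⟨hp.1.1.1, hp.1.1.2, hp.2, hp.1.2⟩
    · intro p hp
      rw [mem_filter, mem_filter, mem_filter] at hp
      rw [mem_filter, mem_filter]
      exact ⟨hp.1.1, not_not.1 hp.2⟩
  have h7 := div_loss hN (show 0 < Real.log (c * z) by linarith) (Real.log ((c + 1) * z))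
  have h8 : Real.log N / Real.log (c * z) * Real.exp (-Real.log (c * z)) ≤ 1 / (Real.log N) ^ 2 := by
    rw [Real.exp_neg, Real.exp_log (by positivity)]
    have h9 : Real.log N / Real.log (c * z) ≤ Real.log N := div_le_self hK0.le hs1
    have h10 : ((c : ℝ) * z)⁻¹ ≤ 1 / (Real.log N) ^ 3 := by
      rw [← one_div]
      exact one_div_le_one_div_of_le (by positivity) (hK3.trans hcz)
    calc Real.log N / Real.log (c * z) * ((c : ℝ) * z)⁻¹ ≤ Real.log N * (1 / (Real.log N) ^ 3) :=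
          mul_le_mul h9 h10 (by positivity) hK0.le
      _ = 1 / (Real.log N) ^ 2 := by
          field_simp
  have h9 : 4 / (Real.log N) ^ 2 ≤ 1 / (8 * Q0 * Real.log N) := by
    rw [div_le_div_iff₀ (by positivity) (by positivity)]
    nlinarith
  have h10 : 2 / (Real.log N) ^ 2 = 4 / (Real.log N) ^ 2 - 2 * (1 / (Real.log N) ^ 2) := by ring
  have h11 : 0 ≤ 1 / (Real.log N) ^ 2 := by positivity
  linarith

theorem V_le {Q : MPar} (hQ : Q.Ok) {N : ℕ} (h : Q.hf.Lg N) {i : ℕ} (hi : i ≤ Q.k) : Real.exp ((kp N) ^ 90) ≤ Q.V N i ∧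
    (4 * Q.V N i : ℝ) ≤ (N : ℝ) ^ (3 / 2 * ((Q.k : ℝ) + 1) * Q.e1) := by
  refine ⟨(Z_le (hf_ok hQ) h hi).1, ?_⟩
  have h1 := wi_le (hf_ok hQ) h (i := i) hi
  have h2 : (3 : ℝ) * ((Q.hf.k : ℝ) + 1) * Q.hf.e1 = 3 / 2 * ((Q.k : ℝ) + 1) * Q.e1 := by
    change (3 : ℝ) * ((Q.k : ℝ) + 1) * (Q.e1 / 2) = _
    ring
  rw [h2] at h1
  exact h1

theorem ev_w3 {Q : MPar} (hQ : Q.Ok) : ∀ᶠ N : ℕ in atTop, (∀ i ≤ Q.k, 2 / (Real.log N) ^ 2 ≤ ∑ p ∈ Q.WX3 N i, 1 / (p : ℝ)) ∧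
    (∀ i ≤ Q.k, 2 / (Real.log N) ^ 2 ≤ ∑ p ∈ Q.WA3 N i, 1 / (p : ℝ)) ∧ ∀ i ≤ Q.k, 2 / (Real.log N) ^ 2 ≤ ∑ p ∈ Q.WB3 N i, 1 / (p : ℝ) := by
  obtain ⟨C, hC, hcore⟩ := WM_core
  have hlog : Tendsto (fun N : ℕ => Real.log N) atTop atTop := Real.tendsto_log_atTop.comp tendsto_natCast_atTop_atTop
  have hkp : Tendsto (fun N : ℕ => kp N) atTop atTop := (tendsto_rpow_atTop (by norm_num : (0 : ℝ) < 1 / 100)).comp hlog
  have hpow : ∀ᶠ x : ℝ in atTop, x ^ 300 ≤ Real.exp x := by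
    have h1 := (Real.isLittleO_pow_exp_atTop (n := 300)).bound one_pos
    filter_upwards [h1, eventually_ge_atTop 0] with x h2 h3
    rw [Real.norm_eq_abs, Real.norm_eq_abs, abs_of_nonneg (pow_nonneg h3 _), abs_of_nonneg (Real.exp_pos x).le, one_mul] at h2
    exact h2
  filter_upwards [ev_base Q, ev_Lg (hf_ok hQ), hkp.eventually_ge_atTop (8 * C * (((Q.W ^ 2 : ℕ) : ℝ)) ^ 2), hkp.eventually_ge_atTop (32 * (((Q.W ^ 2 : ℕ) : ℝ))),
    hkp.eventually hpow, hkp.eventually_ge_atTop 1, eventually_ge_atTop 4] with N hb lh hk1 hk2 hk3 hk4 hN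
  obtain ⟨hb1, -⟩ := hb
  have hN4 : (4 : ℝ) ≤ N := by exact_mod_cast hN
  have hN1 : (1 : ℝ) ≤ N := by linarith
  have hN1' : 1 ≤ N := by omega
  have hW2 : 1 ≤ Q.W ^ 2 := Nat.one_le_iff_ne_zero.2 (pow_ne_zero 2 hQ.W0.ne')
  have hk90 : kp N ≤ kp N ^ 90 := by
    calc kp N = kp N ^ 1 := (pow_one _).symm
      _ ≤ kp N ^ 90 := pow_le_pow_right₀ hk4 (by norm_num)
  have hK1 : kp N ≤ Real.log N := by
    rw [← hb1]
    calc kp N = kp N ^ 1 := (pow_one _).symm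
      _ ≤ kp N ^ 100 := pow_le_pow_right₀ hk4 (by norm_num)
  have hK3 : (Real.log N) ^ 3 ≤ Real.exp (kp N ^ 90) := by
    rw [← hb1, ← pow_mul]
    exact hk3.trans (Real.exp_le_exp.2 hk90)
  have he0 := hQ.e0
  have he1 := hQ.e1
  have hk0 : (0 : ℝ) ≤ Q.k := Nat.cast_nonneg _
  have hke : ((Q.k : ℝ) + 1) * Q.e1 ≤ 1 / 80 := by linarith
  have hke0 : 0 ≤ ((Q.k : ℝ) + 1) * Q.e1 := by positivity
  have hZ1 : ∀ i ≤ Q.k, Real.exp (kp N ^ 90) ≤ (Q.V N i : ℝ) := fun i hi => (V_le hQ lh hi).1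
  have hz : ∀ i ≤ Q.k, 1 ≤ Q.V N i := by
    intro i hi
    have h1 := hZ1 i hi
    have h2 : (0 : ℝ) < Q.V N i := lt_of_lt_of_le (Real.exp_pos _) h1
    exact_mod_cast h2
  have hZV : ∀ i ≤ Q.k, Q.V N i ≤ Q.Z3 N i := by
    intro i hi
    unfold Z3
    have := hz i hi
    nlinarith
  have hV4 : ∀ i ≤ Q.k, 4 * Q.V N i ≤ N := by
    intro i hi
    have h1 := (V_le hQ lh hi).2
    have h2 : (N : ℝ) ^ (3 / 2 * ((Q.k : ℝ) + 1) * Q.e1) ≤ (N : ℝ) ^ (1 : ℝ) := by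
      refine Real.rpow_le_rpow_of_exponent_le hN1 ?_
      nlinarith
    rw [Real.rpow_one] at h2
    exact_mod_cast h1.trans h2
  have hZ4 : ∀ i ≤ Q.k, 4 * Q.Z3 N i ≤ N := by
    intro i hi
    have h1 := (V_le hQ lh hi).2
    have h2 : (N : ℝ) ^ (3 / 2 * ((Q.k : ℝ) + 1) * Q.e1) ≤ (N : ℝ) ^ (1 / 4 : ℝ) := by
      refine Real.rpow_le_rpow_of_exponent_le hN1 ?_
      nlinarith
    have h3 : (4 * Q.V N i : ℝ) ^ 2 ≤ (N : ℝ) ^ (1 / 2 : ℝ) := by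
      have h4 : (4 * Q.V N i : ℝ) ^ 2 ≤ ((N : ℝ) ^ (1 / 4 : ℝ)) ^ 2 := pow_le_pow_left₀ (by positivity) (h1.trans h2) 2
      refine h4.trans (le_of_eq ?_)
      rw [← Real.rpow_natCast, ← Real.rpow_mul (by linarith)]
      norm_num
    have h5 : (2 : ℝ) ≤ (N : ℝ) ^ (1 / 2 : ℝ) := by
      rw [← Real.sqrt_eq_rpow]
      exact Real.le_sqrt_of_sq_le (by linarith)
    have h7 : (N : ℝ) ^ (1 / 2 : ℝ) * (N : ℝ) ^ (1 / 2 : ℝ) = N := by
      rw [← Real.rpow_add (by linarith)]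
      norm_num
    have h8 : (4 * (6 * (Q.V N i : ℝ) ^ 2) : ℝ) ≤ N := by
      have h9 : (0 : ℝ) ≤ (Q.V N i : ℝ) ^ 2 := by positivity
      nlinarith
    unfold Z3
    exact_mod_cast h8
  have hlz : ∀ i ≤ Q.k, 8 * C * (((Q.W ^ 2 : ℕ) : ℝ)) ^ 2 ≤ Real.log (Q.V N i) := by
    intro i hi
    refine hk1.trans (hk90.trans ?_)
    rw [Real.le_log_iff_exp_le (by exact_mod_cast hz i hi)]
    exact hZ1 i hi
  refine ⟨fun i hi => ?_, fun i hi => ?_, fun i hi => ?_⟩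
  · have hVZ : (Q.V N i : ℝ) ≤ Q.Z3 N i := by exact_mod_cast hZV i hi
    have h0 : (0 : ℝ) < Q.V N i := by exact_mod_cast hz i hi
    have h1 := hcore N (Q.W ^ 2) 1 (Q.Z3 N i) 3 hN1' hW2 (Nat.coprime_one_left _) (by norm_num) le_rfl ((hz i hi).trans (hZV i hi))
      ((hlz i hi).trans (Real.log_le_log h0 hVZ)) (hk2.trans hK1) (hZ4 i hi) (hK3.trans ((hZ1 i hi).trans hVZ))
    exact h1
  · have h1 := hcore N (Q.W ^ 2) 1 (Q.V N i) 3 hN1' hW2 (Nat.coprime_one_left _) (by norm_num) le_rfl (hz i hi) (hlz i hi) (hk2.trans hK1)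
      (hV4 i hi) (hK3.trans (hZ1 i hi))
    exact h1
  · have h1 := hcore N (Q.W ^ 2) (Q.b i) (Q.V N i) 2 hN1' hW2 ((hQ.bc i).pow_right 2) (by norm_num) (by norm_num) (hz i hi) (hlz i hi) (hk2.trans hK1)
      ((Nat.mul_le_mul_right _ (by norm_num)).trans (hV4 i hi)) (hK3.trans (hZ1 i hi))
    exact h1

end MPar

end Pool.Agent.Lib.TC
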