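import Pool.Agent.Lib.MP_7b7e48_nt.T3S.J
import Pool.Agent.Lib.MP_7b7e48_nt.TC.CycLam

/-!
# T3S.WY (50 minutes): the composite windows of `Y`

`b = p q`, `p ∈ WA3 i`, `q ∈ WB3 i` primes (`w3_ok`), `2 V < q ≤ 3 V < p ≤ 4 V`, so `6 V ^ 2 < b ≤ 12 V ^ 2`. `wy3_inj`: `p q = p' q'`: the primes `p, q` are `p', q'` in some order; the windows of different slots are disjoint (`4 V i < V j`), so `i = i'` and the order is the same (`q < p`).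
`wy3_sum`: `sum_image` (injectivity on the product), `sum_product`. `wy3_cls`: `p ≡ 1`, `q ≡ b i`. `lam (p q) = (-1)(-1) = 1`. Coprime: all primes of `b ∈ WY3 i` are in `(2 V i, 4 V i]`.
-/

set_option autoImplicit false

open Finset

namespace Pool.Agent.Lib.TC

open Pool.Agent.Lib.MP_45349e_nt.LS (lam)

namespace MPar

variable {Q : MPar} {N : ℕ}

private theorem WY_wa {i p : ℕ} (hp : p ∈ Q.WA3 N i) :
    3 * Q.V N i < p ∧ p ≤ 4 * Q.V N i ∧ p.Prime ∧ ¬ p ∣ N ∧ p ≡ 1 [MOD Q.W ^ 2] := by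
  unfold WA3 pw at hp
  rw [mem_filter, mem_Ioc] at hp
  exact ⟨hp.1.1, hp.1.2, hp.2.1, hp.2.2.1, hp.2.2.2⟩

private theorem WY_wb {i q : ℕ} (hq : q ∈ Q.WB3 N i) :
    2 * Q.V N i < q ∧ q ≤ 3 * Q.V N i ∧ q.Prime ∧ ¬ q ∣ N ∧ q ≡ Q.b i [MOD Q.W ^ 2] := by
  unfold WB3 pw at hq
  rw [mem_filter, mem_Ioc] at hq
  exact ⟨hq.1.1, hq.1.2, hq.2.1, hq.2.2.1, hq.2.2.2⟩

theorem wy3_mem {i b : ℕ} : b ∈ Q.WY3 N i ↔ ∃ p ∈ Q.WA3 N i, ∃ q ∈ Q.WB3 N i, p * q = b := by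
  unfold WY3
  rw [mem_image]
  constructor
  · rintro ⟨x, hx, he⟩
    rw [mem_product] at hx
    exact ⟨x.1, hx.1, x.2, hx.2, he⟩
  · rintro ⟨p, hp, q, hq, he⟩
    exact ⟨(p, q), mem_product.2 ⟨hp, hq⟩, he⟩

private theorem WY_lt (hQ : Q.Ok) (h : Q.Lg3 N) {i j : ℕ} (hi : i ≤ Q.k) (hj : j ≤ Q.k) (hij : i ≠ j) :
    4 * Q.V N i < Q.V N j ∨ 4 * Q.V N j < Q.V N i := by
  rcases Nat.lt_or_gt_of_ne hij with h1 | h1
  · exact Or.inl (Z3_lt hQ h.lh h1 hj).2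
  · exact Or.inr (Z3_lt hQ h.lh h1 hi).2

theorem wy3_inj (hQ : Q.Ok) (h : Q.Lg3 N) {i j p q p' q' : ℕ} (hi : i ≤ Q.k) (hj : j ≤ Q.k) (hp : p ∈ Q.WA3 N i) (hq : q ∈ Q.WB3 N i)
    (hp' : p' ∈ Q.WA3 N j) (hq' : q' ∈ Q.WB3 N j) (he : p * q = p' * q') : i = j ∧ p = p' ∧ q = q' := by
  obtain ⟨a1, a2, a3, -, -⟩ := WY_wa hp
  obtain ⟨b1, b2, b3, -, -⟩ := WY_wb hq
  obtain ⟨c1, c2, c3, -, -⟩ := WY_wa hp'
  obtain ⟨d1, d2, d3, -, -⟩ := WY_wb hq'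
  have h1 : p ∣ p' * q' := by
    rw [← he]
    exact Dvd.intro _ rfl
  rcases (a3.dvd_mul).1 h1 with h2 | h2
  · have h3 : p = p' := (Nat.prime_dvd_prime_iff_eq a3 c3).1 h2
    subst h3
    refine ⟨?_, rfl, Nat.eq_of_mul_eq_mul_left a3.pos he⟩
    by_contra hij
    rcases WY_lt hQ h hi hj hij with h4 | h4 <;> omega
  · have h3 : p = q' := (Nat.prime_dvd_prime_iff_eq a3 d3).1 h2
    subst h3
    have h4 : q = p' := by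
      rw [Nat.mul_comm p' p] at he
      exact Nat.eq_of_mul_eq_mul_left a3.pos he
    subst h4
    omega

theorem wy3_sum (hQ : Q.Ok) (h : Q.Lg3 N) {i : ℕ} (hi : i ≤ Q.k) {M : Type*} [AddCommMonoid M] (F : ℕ → M) :
    ∑ b ∈ Q.WY3 N i, F b = ∑ p ∈ Q.WA3 N i, ∑ q ∈ Q.WB3 N i, F (p * q) := by
  unfold WY3
  rw [sum_image, sum_product]
  intro x hx y hy he
  have hx' := mem_product.1 (mem_coe.1 hx)
  have hy' := mem_product.1 (mem_coe.1 hy)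
  obtain ⟨-, h1, h2⟩ := wy3_inj hQ h hi hi hx'.1 hx'.2 hy'.1 hy'.2 he
  exact Prod.ext h1 h2

theorem wy3_facts (hQ : Q.Ok) (h : Q.Lg3 N) {i b : ℕ} (hi : i ≤ Q.k) (hb : b ∈ Q.WY3 N i) : 0 < b ∧ Squarefree b ∧ b.Coprime N ∧ Q.Z3 N i < b ∧ b ≤ 2 * Q.Z3 N i ∧
    b ≡ Q.b i [MOD Q.W ^ 2] ∧ b.primeFactors.card ≤ 2 ∧ lam b = 1 ∧ ∀ r : ℕ, r.Prime → r ∣ b → 2 * Q.V N i < r ∧ r ≤ 4 * Q.V N i := by
  obtain ⟨p, hp, q, hq, he⟩ := wy3_mem.1 hb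
  obtain ⟨a1, a2, a3, a4, a5⟩ := WY_wa hp
  obtain ⟨b1, b2, b3, b4, b5⟩ := WY_wb hq
  have hpq : p ≠ q := by omega
  have hcop : p.Coprime q := (Nat.coprime_primes a3 b3).2 hpq
  subst he
  refine ⟨Nat.mul_pos a3.pos b3.pos, ?_, ?_, ?_, ?_, ?_, ?_, ?_, ?_⟩
  · exact (Nat.squarefree_mul hcop).2 ⟨a3.squarefree, b3.squarefree⟩
  · exact Nat.Coprime.mul_left ((a3.coprime_iff_not_dvd).2 a4) ((b3.coprime_iff_not_dvd).2 b4)
  · unfold Z3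
    have h1 : 3 * Q.V N i * (2 * Q.V N i) < p * q := Nat.mul_lt_mul'' a1 b1
    calc 6 * Q.V N i ^ 2 = 3 * Q.V N i * (2 * Q.V N i) := by ring
      _ < p * q := h1
  · unfold Z3
    have h1 : p * q ≤ 4 * Q.V N i * (3 * Q.V N i) := Nat.mul_le_mul a2 b2
    calc p * q ≤ 4 * Q.V N i * (3 * Q.V N i) := h1
      _ = 2 * (6 * Q.V N i ^ 2) := by ring
  · have h1 := a5.mul b5
    rwa [one_mul] at h1
  · rw [hcop.primeFactors_mul, a3.primeFactors, b3.primeFactors]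
    exact (card_union_le _ _).trans (by rw [card_singleton, card_singleton])
  · rw [Pool.Agent.Lib.MP_45349e_nt.LS.lam_mul _ _ a3.ne_zero b3.ne_zero, Pool.Agent.Lib.MP_45349e_nt.LS.lam_prime _ a3,
      Pool.Agent.Lib.MP_45349e_nt.LS.lam_prime _ b3]
    norm_num
  · intro r hr hd
    rcases (hr.dvd_mul).1 hd with h1 | h1
    · have h2 : r = p := (Nat.prime_dvd_prime_iff_eq hr a3).1 h1
      subst h2
      omega
    · have h2 : r = q := (Nat.prime_dvd_prime_iff_eq hr b3).1 h1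
      subst h2
      omega

theorem wy3_cop (hQ : Q.Ok) (h : Q.Lg3 N) {i j b b' : ℕ} (hi : i ≤ Q.k) (hj : j ≤ Q.k) (hij : i ≠ j) (hb : b ∈ Q.WY3 N i) (hb' : b' ∈ Q.WY3 N j) :
    b.Coprime b' := by
  by_contra hn
  obtain ⟨r, hr, h1, h2⟩ := Nat.Prime.not_coprime_iff_dvd.1 hn
  obtain ⟨-, -, -, -, -, -, -, -, h3⟩ := wy3_facts hQ h hi hb
  obtain ⟨-, -, -, -, -, -, -, -, h4⟩ := wy3_facts hQ h hj hb'
  have h5 := h3 r hr h1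
  have h6 := h4 r hr h2
  rcases WY_lt hQ h hi hj hij with h7 | h7 <;> omega

end MPar

end Pool.Agent.Lib.TC
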