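import Pool.Agent.Lib.MP_7b7e48_nt.BR3.K
import Pool.Agent.Lib.MP_7b7e48_nt.BR3.P3
import Pool.Agent.Lib.MP_7b7e48_nt.RG.NUM
import Pool.Agent.Lib.MP_7b7e48_nt.T3.D3
import Pool.Agent.Lib.MP_7b7e48_nt.T3S.BT
import Pool.Agent.Lib.MP_7b7e48_nt.T3S.L
import Pool.Agent.Lib.MP_7b7e48_nt.T3S.WM2

/-!
# T3S.AN: `MS.An3` for large `N`

As `BR3/AN.lean`: `1.8 l0 < log p1 < 2 l0`; the fixers have logarithms `≤ 3/2 l0 + k` or `≥ 3 l0`.
-/

set_option autoImplicit false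

open Finset Filter

namespace Pool.Agent.Lib.TC

namespace MPar

private theorem A3_l0 (Q : MPar) (N : ℕ) : Q.l0 N = ((Q.Cp : ℝ) + 1) * Real.log (Real.log N) := rfl

private theorem A3_prime {Q : MPar} {N : ℕ} (hQ : Q.Ok) (h : Q.Lg N)
    (hb : ∀ Y : ℕ, (Real.log N) ^ 3 ≤ Y → Y ≤ N →
      (Y : ℝ) / (4 * Real.log N) ≤ (Pool.Agent.Lib.RG.block N Y).card) :
    ∃ p1 : ℕ, p1.Prime ∧ ¬ p1 ∣ N ∧ 9 / 5 * Q.l0 N < Real.log p1 ∧ Real.log p1 < 2 * Q.l0 N := by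
  have hK := h.K1
  have hK0 : 0 < Real.log N := lt_of_lt_of_le (by norm_num) hK
  have hN1 := h.N1
  have hN0 : (0 : ℝ) < N := by exact_mod_cast (by omega : 0 < N)
  have hl : (10 : ℝ) ^ 6 ≤ Q.l0 N := by
    have h1 := h.lb
    have h2 : (1 : ℝ) ≤ (Q.k + 1) ^ 4 := by
      have : (1 : ℝ) ≤ (Q.k : ℝ) + 1 := by
        have : (0 : ℝ) ≤ Q.k := Nat.cast_nonneg _
        linarith
      exact one_le_pow₀ this
    have h3 : (10 : ℝ) ^ 6 * 1 ≤ (10 : ℝ) ^ 6 * (Q.k + 1) ^ 4 :=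
      mul_le_mul_of_nonneg_left h2 (by norm_num)
    linarith
  have hl0 : 0 < Q.l0 N := lt_of_lt_of_le (by norm_num) hl
  have hkp1 : (1 : ℝ) ≤ kp N := by
    have h1 := h.lk
    have h2 : (1 : ℝ) ≤ 10 ^ 6 := by norm_num
    linarith
  have hkpK : 2 * kp N ≤ Real.log N := by
    have h2 : (2 : ℝ) ≤ kp N := by
      have h1 := h.lk
      have h2 : (2 : ℝ) ≤ 10 ^ 6 := by norm_num
      linarith
    calc 2 * kp N ≤ kp N * kp N := mul_le_mul_of_nonneg_right h2 (by linarith)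
      _ = kp N ^ 2 := (sq _).symm
      _ ≤ kp N ^ 100 := pow_le_pow_right₀ hkp1 (by norm_num)
      _ = Real.log N := h.Kk
  obtain ⟨E, hE⟩ : ∃ E : ℝ, E = Real.exp (9 / 5 * Q.l0 N) := ⟨_, rfl⟩
  have hE1 : 1 ≤ E := by
    rw [hE]
    exact Real.one_le_exp (by positivity)
  obtain ⟨Y, hY⟩ : ∃ Y : ℕ, Y = ⌈E⌉₊ := ⟨_, rfl⟩
  have hYE : E ≤ Y := by
    rw [hY]
    exact Nat.le_ceil E
  have hYE2 : (Y : ℝ) ≤ 2 * E := by
    have h1 := Nat.ceil_lt_add_one (show 0 ≤ E by linarith)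
    rw [← hY] at h1
    linarith
  have hY3 : (Real.log N) ^ 3 ≤ Y := by
    refine le_trans ?_ hYE
    have h1 : (Real.log N) ^ 3 = Real.exp (3 * Real.log (Real.log N)) := by
      rw [← Real.rpow_natCast, Real.rpow_def_of_pos hK0, mul_comm]
      norm_num
    rw [h1, hE]
    refine Real.exp_le_exp.2 ?_
    rw [A3_l0]
    have h2 : (1 : ℝ) ≤ Q.Cp := by exact_mod_cast hQ.Cp
    have h3 : 0 ≤ Real.log (Real.log N) := Real.log_nonneg (le_trans (by norm_num) hK)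
    nlinarith
  have hYN : Y ≤ N := by
    have h1 : (Y : ℝ) ≤ N := by
      refine hYE2.trans ?_
      have h2 : (2 : ℝ) ≤ Real.exp 1 := by
        have := Real.exp_one_gt_d9
        linarith
      calc 2 * E ≤ Real.exp 1 * Real.exp (9 / 5 * Q.l0 N) := by
            rw [hE]
            exact mul_le_mul_of_nonneg_right h2 (Real.exp_pos _).le
        _ = Real.exp (1 + 9 / 5 * Q.l0 N) := (Real.exp_add _ _).symm
        _ ≤ Real.exp (Real.log N) := by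
            refine Real.exp_le_exp.2 ?_
            have h3 := h.lk
            have h4 : (10 : ℝ) ^ 6 = 1000000 := by norm_num
            linarith
        _ = N := Real.exp_log hN0
    exact_mod_cast h1
  have h1 := hb Y hY3 hYN
  have h2 : (0 : ℝ) < (Pool.Agent.Lib.RG.block N Y).card := by
    refine lt_of_lt_of_le (div_pos ?_ (by positivity)) h1
    linarith
  have h3 : 0 < (Pool.Agent.Lib.RG.block N Y).card := by exact_mod_cast h2
  obtain ⟨p, hp⟩ := Finset.card_pos.1 h3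
  unfold Pool.Agent.Lib.RG.block at hp
  rw [mem_filter, mem_Ioc] at hp
  obtain ⟨⟨hp1, hp2⟩, hp3, hp4⟩ := hp
  have hp0 : (0 : ℝ) < p := by exact_mod_cast hp3.pos
  refine ⟨p, hp3, hp4, ?_, ?_⟩
  · rw [Real.lt_log_iff_exp_lt hp0, ← hE]
    have h4 : (Y : ℝ) < p := by exact_mod_cast hp1
    linarith
  · have h4 : (p : ℝ) ≤ 4 * E := by
      have h5 : (p : ℝ) ≤ 2 * Y := by exact_mod_cast hp2
      linarith
    have h5 := Real.log_le_log hp0 h4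
    rw [Real.log_mul (by norm_num) (by linarith), hE, Real.log_exp] at h5
    have h6 : Real.log 4 ≤ 4 - 1 := Real.log_le_sub_one_of_pos (by norm_num)
    have h7 : (10 : ℝ) ^ 6 = 1000000 := by norm_num
    linarith

private theorem A3_nw {Q : MPar} {N : ℕ} (hQ : Q.Ok) (h : Q.Lg N) {p : ℕ}
    (hp : (∃ f, p ∈ (Q.sys3 N).FX f) ∨ (∃ f, p ∈ (Q.sys3 N).FY f) ∨ (∃ e, p ∈ (Q.sys3 N).OX e) ∨ ∃ e, p ∈ (Q.sys3 N).OY e) :
    Real.log p ≤ 9 / 5 * Q.l0 N ∨ 2 * Q.l0 N ≤ Real.log p := by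
  have hlb := h.lb
  have hk0 : (0 : ℝ) ≤ Q.k := Nat.cast_nonneg _
  have hk4 : (Q.k : ℝ) + 1 ≤ ((Q.k : ℝ) + 1) ^ 4 := le_self_pow₀ (by linarith) (by norm_num)
  have hl : 100 * ((Q.k : ℝ) + 1) ≤ Q.l0 N := by nlinarith
  have old : ∀ q : ℕ, ((∃ f, q ∈ (Q.sys N).FX f) ∨ (∃ f, q ∈ (Q.sys N).FY f) ∨
      (∃ e, q ∈ (Q.sys N).OX e) ∨ ∃ e, q ∈ (Q.sys N).OY e) → Real.log q ≤ 9 / 5 * Q.l0 N ∨ 2 * Q.l0 N ≤ Real.log q := by
    intro q hq
    obtain ⟨-, -, -, -, h5⟩ := nw_ok hQ h hq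
    rcases h5 with h5 | h5
    · left; linarith
    · right; linarith
  have hPR : ∀ {s t : ℝ} {q : ℕ}, q ∈ (Pool.Agent.Lib.OW.PR s t).filter (fun p => ¬ p ∣ N) → s < Real.log q ∧ Real.log q ≤ t := by
    intro s t q hq
    obtain ⟨h1, h2, h3⟩ := Pool.Agent.Lib.OW.mem_PR.1 (mem_filter.1 hq).1
    have h0 : (0 : ℝ) < q := by exact_mod_cast h1.pos
    exact ⟨(Real.lt_log_iff_exp_lt h0).2 h2, (Real.log_le_iff_le_exp h0).2 h3⟩
  rcases hp with ⟨f, hf⟩ | ⟨f, hf⟩ | ⟨e, he⟩ | ⟨e, he⟩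
  · exact old p (Or.inl ⟨f, hf⟩)
  · exact old p (Or.inr (Or.inl ⟨f, hf⟩))
  · have hn : 0 < Q.nit N + 2 := by omega
    have hi : (e : ℕ) / (Q.nit N + 2) < Q.k := (Nat.div_lt_iff_lt_mul hn).2 e.2
    have hir : (((e : ℕ) / (Q.nit N + 2) : ℕ) : ℝ) + 1 ≤ Q.k := by exact_mod_cast hi
    have he' : p ∈ Q.OX3 N ((e : ℕ) / (Q.nit N + 2)) ((e : ℕ) % (Q.nit N + 2)) := he
    unfold OX3 at he'
    split_ifs at he' with h1 h2
    · have h3 : (e : ℕ) / (Q.nit N + 2) * Q.nit N + (e : ℕ) % (Q.nit N + 2) < Q.k * Q.nit N := by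
        calc _ < (e : ℕ) / (Q.nit N + 2) * Q.nit N + Q.nit N := by omega
          _ = ((e : ℕ) / (Q.nit N + 2) + 1) * Q.nit N := by ring
          _ ≤ Q.k * Q.nit N := Nat.mul_le_mul_right _ hi
      refine old p (Or.inr (Or.inr (Or.inl ⟨⟨_, h3⟩, ?_⟩)))
      show p ∈ Q.OXs N (((e : ℕ) / (Q.nit N + 2) * Q.nit N + (e : ℕ) % (Q.nit N + 2)) / Q.nit N)
        (((e : ℕ) / (Q.nit N + 2) * Q.nit N + (e : ℕ) % (Q.nit N + 2)) % Q.nit N)
      have hn0 : 0 < Q.nit N := by omega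
      rw [Nat.mul_comm, Nat.mul_add_div hn0, Nat.mul_add_mod, Nat.div_eq_of_lt h1, Nat.mod_eq_of_lt h1, Nat.add_zero]
      exact he'
    · left
      have h3 := (hPR he').2
      linarith
    · left
      have h3 := (hPR he').2
      linarith
  · have hn : 0 < Q.np N + 2 := by omega
    have hi : (e : ℕ) / (Q.np N + 2) < Q.k := (Nat.div_lt_iff_lt_mul hn).2 e.2
    have he' : p ∈ Q.OY3 N ((e : ℕ) / (Q.np N + 2)) ((e : ℕ) % (Q.np N + 2)) := he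
    unfold OY3 at he'
    split_ifs at he' with h1
    · have h3 : (e : ℕ) / (Q.np N + 2) * (Q.np N + 1) + (e : ℕ) % (Q.np N + 2) < Q.k * (Q.np N + 1) := by
        calc _ < (e : ℕ) / (Q.np N + 2) * (Q.np N + 1) + (Q.np N + 1) := by omega
          _ = ((e : ℕ) / (Q.np N + 2) + 1) * (Q.np N + 1) := by ring
          _ ≤ Q.k * (Q.np N + 1) := Nat.mul_le_mul_right _ hi
      refine old p (Or.inr (Or.inr (Or.inr ⟨⟨_, h3⟩, ?_⟩)))
      show p ∈ Q.OYs N (((e : ℕ) / (Q.np N + 2) * (Q.np N + 1) + (e : ℕ) % (Q.np N + 2)) / (Q.np N + 1))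
        (((e : ℕ) / (Q.np N + 2) * (Q.np N + 1) + (e : ℕ) % (Q.np N + 2)) % (Q.np N + 1))
      have hn0 : 0 < Q.np N + 1 := by omega
      rw [Nat.mul_comm, Nat.mul_add_div hn0, Nat.mul_add_mod, Nat.div_eq_of_lt h1, Nat.mod_eq_of_lt h1, Nat.add_zero]
      exact he'
    · right
      have h3 := (hPR he').1
      have h4 : (0 : ℝ) ≤ (((e : ℕ) / (Q.np N + 2) : ℕ) : ℝ) := Nat.cast_nonneg _
      linarith

theorem ev_an3 {Q : MPar} (hQ : Q.Ok) (A B : ℕ) : ∀ᶠ N : ℕ in atTop, Q.Lg3 N → ∀ T : Dat, T.N = N → T.y0 = Q.y0 N →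
    Real.exp ((kp N) ^ 80) ≤ T.z → ∃ p1 : ℕ, (p1 : ℝ) ≤ (Real.log N) ^ (2 * Q.Cp + 3) ∧
      (Q.sys3 N).An3 T p1 ⌊(Real.log N) ^ A⌋₊ (1 / (Real.log N) ^ B) (2 * (Q.W : ℝ) ^ 2) := by
  obtain ⟨N0, hN0⟩ := Pool.Agent.Lib.RG.block_card
  filter_upwards [ev_SWc hQ A B, ev_BTc3 hQ A, eventually_ge_atTop N0, ev_wy3m hQ] with N hS hB hN hWY h T hT hTy hTz
  obtain ⟨p, hp, hpN, hlo, hup⟩ := A3_prime hQ h.lg (hN0 N hN)
  have hK := h.lg.K1
  have hK0 : 0 < Real.log N := lt_of_lt_of_le (by norm_num) hK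
  have hK1 : 1 ≤ Real.log N := le_trans (by norm_num) hK
  have hl1 : (1 : ℝ) ≤ Q.l0 N := by
    have h1 := h.lg.lb
    have h2 : (1 : ℝ) ≤ (Q.k + 1) ^ 4 := by
      have : (1 : ℝ) ≤ (Q.k : ℝ) + 1 := by
        have : (0 : ℝ) ≤ Q.k := Nat.cast_nonneg _
        linarith
      exact one_le_pow₀ this
    have h3 : (10 : ℝ) ^ 6 * 1 ≤ (10 : ℝ) ^ 6 * (Q.k + 1) ^ 4 :=
      mul_le_mul_of_nonneg_left h2 (by norm_num)
    linarith
  have hkp2 : (2 : ℝ) ≤ kp N := by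
    have h1 := h.lg.k0
    have h2 : (1 : ℝ) ≤ (Q.k + 1) ^ 4 := by
      have : (1 : ℝ) ≤ (Q.k : ℝ) + 1 := by
        have : (0 : ℝ) ≤ Q.k := Nat.cast_nonneg _
        linarith
      exact one_le_pow₀ this
    have h3 : (10 : ℝ) ^ 10 * 1 ≤ (10 : ℝ) ^ 10 * (Q.k + 1) ^ 4 :=
      mul_le_mul_of_nonneg_left h2 (by norm_num)
    linarith
  have hkp1 : (1 : ℝ) ≤ kp N := by linarith
  have hp0 : (0 : ℝ) < p := by exact_mod_cast hp.pos
  have hll : Q.l0 N < Real.log p := by linarith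
  have hkk : ∀ n : ℕ, 2 ≤ n → 2 * kp N ≤ kp N ^ n := by
    intro n hn
    calc 2 * kp N ≤ kp N * kp N := mul_le_mul_of_nonneg_right hkp2 (by linarith)
      _ = kp N ^ 2 := (sq _).symm
      _ ≤ kp N ^ n := pow_le_pow_right₀ hkp1 hn
  have hlk := h.lg.lk
  have hnw : ∀ q : ℕ, ((∃ f, q ∈ (Q.sys3 N).FX f) ∨ (∃ f, q ∈ (Q.sys3 N).FY f) ∨
      (∃ e, q ∈ (Q.sys3 N).OX e) ∨ ∃ e, q ∈ (Q.sys3 N).OY e) → q ≠ p := by
    rintro q hq rfl
    rcases A3_nw hQ h.lg hq with h5 | h5 <;> linarith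
  have hw : ∀ i ≤ Q.k, p ∉ Q.WX3 N i := by
    intro i hi hm
    obtain ⟨-, -, h5, -⟩ := w3_ok hQ h hi (Or.inl hm)
    have h6 := hkk 90 (by norm_num)
    linarith
  have hwy : ∀ i ≤ Q.k, p ∉ Q.WY3 N i := by
    intro i hi hm
    obtain ⟨-, -, -, -, -, -, -, h5, -⟩ := wy3_facts hQ h hi hm
    rw [Pool.Agent.Lib.MP_45349e_nt.LS.lam_prime _ hp] at h5
    norm_num at h5
  obtain ⟨m1, m3, m5⟩ := mass_x3 hQ h
  obtain ⟨-, -, m4, m6⟩ := mass_y3 hQ h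
  have h21 : 1 / (Real.log N) ^ 2 ≤ 2 / (Real.log N) ^ 2 :=
    div_le_div_of_nonneg_right (by norm_num) (by positivity)
  have hFlo : ∀ f < Q.n0 N, ∀ l ∈ Q.FXs N f, Real.exp ((Real.log N) ^ (1 / 5 : ℝ)) ≤ l := by
    intro f hf l hlf
    obtain ⟨h5, -, -⟩ := fx_log hQ h.lg hf hlf
    have h6 : (Real.log N) ^ (1 / 5 : ℝ) = kp N ^ 20 := by
      rw [← h.lg.Kk, ← Real.rpow_natCast (kp N) 100, ← Real.rpow_mul (by linarith),
        ← Real.rpow_natCast (kp N) 20]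
      norm_num
    have h7 : kp N ^ 20 ≤ kp N ^ 25 := pow_le_pow_right₀ hkp1 (by norm_num)
    have h8 : (0 : ℝ) < l := by
      rcases Nat.eq_zero_or_pos l with h9 | h9
      · exfalso
        rw [h9, Nat.cast_zero, Real.log_zero] at h5
        have : 0 < kp N ^ 25 := by positivity
        linarith
      · exact_mod_cast h9
    rw [h6, ← Real.le_log_iff_exp_le h8]
    linarith
  refine ⟨p, ?_, ?_⟩
  · have h1 : (p : ℝ) ≤ Real.exp (2 * Q.l0 N) := by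
      rw [← Real.log_le_iff_le_exp hp0]
      exact hup.le
    have h2 : Real.exp (2 * Q.l0 N) = (Real.log N) ^ (2 * Q.Cp + 2) := by
      rw [← Real.rpow_natCast, Real.rpow_def_of_pos hK0, A3_l0]
      congr 1
      push_cast
      ring
    rw [h2] at h1
    exact h1.trans (pow_le_pow_right₀ hK1 (by omega))
  · subst hT
    exact {
      p1_pr := hp
      p1_lo := by
        rw [hTy]
        exact y0_lt hQ h.lg hll
      p1_z := by
        have h1 : (p : ℝ) ≤ Real.exp ((kp T.N) ^ 80) := by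
          rw [← Real.log_le_iff_le_exp hp0]
          have := hkk 80 (by norm_num)
          linarith
        exact_mod_cast h1.trans hTz
      p1_N := hpN
      p1_W := fun i => ⟨hw i (Nat.le_of_lt_succ i.2), hwy i (Nat.le_of_lt_succ i.2)⟩
      p1_F := fun f => ⟨fun h1 => hnw p (Or.inl ⟨f, h1⟩) rfl,
        fun h1 => hnw p (Or.inr (Or.inl ⟨f, h1⟩)) rfl⟩
      p1_OX := fun e h1 => hnw p (Or.inr (Or.inr (Or.inl ⟨e, h1⟩))) rfl
      p1_OY := fun e h1 => hnw p (Or.inr (Or.inr (Or.inr ⟨e, h1⟩))) rfl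
      η_nn := by positivity
      Cα_lo := by
        have h1 : (1 : ℝ) ≤ Q.W := by exact_mod_cast hQ.W0
        nlinarith
      swX := fun f => hS T.D f f.2
      swY := fun f => hS T.D f f.2
      bt := fun i => hB T.D i (Nat.le_of_lt_succ i.2)
      F_lo := fun f l hl => by
        rcases mem_union.1 hl with h1 | h1
        · exact hFlo f f.2 l h1
        · exact hFlo f f.2 l h1
      F_mass := fun f => ⟨h21.trans (m3 f), h21.trans (m4 f)⟩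
      W_mass := fun i => ⟨h21.trans (m1 i), hWY h i (Nat.le_of_lt_succ i.2)⟩
      OX_mass := fun e => h21.trans (m5 e)
      OY_mass := fun e => h21.trans (m6 e) }

end MPar

end Pool.Agent.Lib.TC
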