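import Pool.Agent.Lib.MP_7b7e48_nt.BR3.I2
import Pool.Agent.Lib.MP_7b7e48_nt.T3S.N

/-!
# T3S.C2 (50 minutes): the comparison of the cofactors with a better constant

`FA`, `FB` are the cofactors of the slot `i` of the old system, written without windows. Copy of the proofs of `I2.AA_pos`, `I2.comp`, `I2.AA_le` (private lemmas included); the only change: `κ ≤ K / 100` (`κ ^ 100 = K`, `κ ≥ 10 ^ 10`: `100 κ ≤ κ ^ 2 ≤ K`),
so the number of the marks of a slot is `≤ κ ≤ K / 100` and `log A - log B ≤ (15 K + K / 100 + K / 100) / K ≤ 15.1`; `log A ≤ κ ^ 79` (the proof of `AA_le` gives `κ ^ 77`).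
-/

set_option autoImplicit false

open Finset

namespace Pool.Agent.Lib.TC

namespace MPar

variable {Q : MPar} {N : ℕ}

/-- the selected items for given marks -/
noncomputable def sl (Q : MPar) (N : ℕ) (c : FE (Q.n0 N) → Fin (Q.k + 1)) (u w : Fin (Q.n0 N) → ℕ) (x : Fin (Q.k * Q.nit N) → ℕ)
    (y : Fin (Q.k * (Q.np N + 1)) → ℕ) (i : ℕ) : Finset ℕ := Q.sel N c (fun f => cell N (u f)) (fun f => cell N (w f)) x y i

noncomputable def FA (Q : MPar) (N : ℕ) (c : FE (Q.n0 N) → Fin (Q.k + 1)) (u w : Fin (Q.n0 N) → ℕ) (x : Fin (Q.k * Q.nit N) → ℕ)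
    (y : Fin (Q.k * (Q.np N + 1)) → ℕ) (i : ℕ) : ℕ :=
  (∏ f ∈ univ.filter (fun f : Fin (Q.n0 N) => (c (Sum.inl f) : ℕ) = i), u f) * ∏ t ∈ sl Q N c u w x y i, Q.gx N x i t

noncomputable def FB (Q : MPar) (N : ℕ) (c : FE (Q.n0 N) → Fin (Q.k + 1)) (u w : Fin (Q.n0 N) → ℕ) (x : Fin (Q.k * Q.nit N) → ℕ)
    (y : Fin (Q.k * (Q.np N + 1)) → ℕ) (i : ℕ) : ℕ :=
  (∏ f ∈ univ.filter (fun f : Fin (Q.n0 N) => (c (Sum.inr f) : ℕ) = i), w f) * (Q.gy N y i (Q.np N) *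
    ∏ t ∈ (sl Q N c u w x y i).filter (fun t => t < Q.np N), Q.gy N y i t)

private theorem C2_prod {ι : Type*} (hN : 1 ≤ N) (s : Finset ι) (f : ι → ℕ) (hf : ∀ i ∈ s, 0 < f i) :
    0 < ∏ i ∈ s, f i ∧ ∑ i ∈ s, (cell N (f i) : ℝ) ≤ Real.log N * Real.log ((∏ i ∈ s, f i : ℕ) : ℝ) ∧
      Real.log N * Real.log ((∏ i ∈ s, f i : ℕ) : ℝ) ≤ ∑ i ∈ s, (cell N (f i) : ℝ) + s.card := by
  have h0 : Real.log ((∏ i ∈ s, f i : ℕ) : ℝ) = ∑ i ∈ s, Real.log (f i : ℝ) := by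
    rw [Nat.cast_prod]
    refine Real.log_prod fun i hi => ?_
    have := hf i hi
    exact_mod_cast this.ne'
  refine ⟨prod_pos hf, ?_, ?_⟩
  · rw [h0, mul_sum]
    exact sum_le_sum fun i hi => cell_le hN (hf i hi)
  · rw [h0, mul_sum]
    have h1 : ∑ i ∈ s, (cell N (f i) : ℝ) + s.card = ∑ i ∈ s, ((cell N (f i) : ℝ) + 1) := by
      rw [sum_add_distrib, sum_const, nsmul_eq_mul, mul_one]
    rw [h1]
    exact sum_le_sum fun i _ => (lt_cell N (f i)).le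

private theorem C2_kp (h : Q.Lg N) : (10 : ℝ) ^ 10 ≤ kp N := by
  have h1 := h.k0
  have h2 : (1 : ℝ) ≤ (Q.k + 1) ^ 4 := by
    have : (1 : ℝ) ≤ (Q.k : ℝ) + 1 := by
      have : (0 : ℝ) ≤ Q.k := Nat.cast_nonneg _
      linarith
    exact one_le_pow₀ this
  have h3 : (10 : ℝ) ^ 10 * 1 ≤ (10 : ℝ) ^ 10 * (Q.k + 1) ^ 4 :=
    mul_le_mul_of_nonneg_left h2 (by norm_num)
  linarith

private theorem C2_FXm {u : Fin (Q.n0 N) → ℕ} (hu : u ∈ Fintype.piFinset (Q.sys N).FX) (f : Fin (Q.n0 N)) : u f ∈ Q.FXs N f :=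
  Fintype.mem_piFinset.1 hu f

private theorem C2_FYm {u : Fin (Q.n0 N) → ℕ} (hu : u ∈ Fintype.piFinset (Q.sys N).FY) (f : Fin (Q.n0 N)) : u f ∈ Q.FXs N f :=
  Fintype.mem_piFinset.1 hu f

private theorem C2_gxp {x : Fin (Q.k * Q.nit N) → ℕ} (hx : x ∈ Fintype.piFinset (Q.sys N).OX) (hQ : Q.Ok) (h : Q.Lg N) {i t : ℕ}
    (hi : i < Q.k) (ht : t < Q.nit N) : (Q.gx N x i t).Prime ∧ Real.log (Q.gx N x i t) ≤ 3 * (kp N) ^ 75 + 1 := by
  have hm := gx_mem hx hi ht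
  have hkp := C2_kp h
  have hk1 : (1 : ℝ) ≤ kp N := le_trans (by norm_num) hkp
  have hK := h.K1
  unfold OXs at hm
  split_ifs at hm with h1
  · obtain ⟨h2, -, -, h3⟩ := px_log hQ h hi h1 hm
    refine ⟨h2, ?_⟩
    have h4 := h.lk
    have h5 : kp N ≤ kp N ^ 75 := le_self_pow₀ hk1 (by norm_num)
    linarith
  · have h2 := (mem_pc.1 hm).1
    refine ⟨h2, ?_⟩
    have hr : t - Q.np N < Q.nr N := by
      have : Q.nit N = Q.np N + Q.nr N := rfl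
      omega
    have h3 := rs_log hQ h hi hm
    have h4 := rs_unit hQ h hr
    have h5 : 1 / Real.log N ≤ 1 := by
      rw [div_le_one (by linarith)]
      linarith
    linarith [h3.2.1, h4.2]

private theorem C2_gyp {y : Fin (Q.k * (Q.np N + 1)) → ℕ} (hy : y ∈ Fintype.piFinset (Q.sys N).OY) (hQ : Q.Ok) (h : Q.Lg N) {i t : ℕ}
    (hi : i < Q.k) (ht : t ≤ Q.np N) : (Q.gy N y i t).Prime := by
  have hm := gy_mem hy hi ht
  unfold OYs at hm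
  split_ifs at hm with h1
  · exact (py_log hQ h hi h1 hm).1
  · exact (mem_pc.1 hm).1

private theorem C2_pos (hQ : Q.Ok) (h : Q.Lg N) (c : FE (Q.n0 N) → Fin (Q.k + 1)) {u w : Fin (Q.n0 N) → ℕ} (hu : u ∈ Fintype.piFinset (Q.sys N).FX)
    (hw : w ∈ Fintype.piFinset (Q.sys N).FY) {x : Fin (Q.k * Q.nit N) → ℕ} (hx : x ∈ Fintype.piFinset (Q.sys N).OX)
    {y : Fin (Q.k * (Q.np N + 1)) → ℕ} (hy : y ∈ Fintype.piFinset (Q.sys N).OY) {i : ℕ} (hi : i < Q.k) :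
    0 < FA Q N c u w x y i ∧ 0 < FB Q N c u w x y i := by
  have hs := sel_spec hQ h hx hy c hu hw hi
  refine ⟨Nat.mul_pos (prod_pos fun f _ => ?_) (prod_pos fun t ht => ?_),
    Nat.mul_pos (prod_pos fun f _ => ?_) (Nat.mul_pos ?_ (prod_pos fun t ht => ?_))⟩
  · exact (mem_pc.1 (C2_FXm hu f)).1.pos
  · exact (C2_gxp hx hQ h hi (mem_range.1 (hs.1 ht))).1.pos
  · exact (mem_pc.1 (C2_FYm hw f)).1.pos
  · exact (C2_gyp hy hQ h hi le_rfl).pos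
  · exact (C2_gyp hy hQ h hi (mem_filter.1 ht).2.le).pos

private theorem C2_A (Q : MPar) (N : ℕ) (c : FE (Q.n0 N) → Fin (Q.k + 1)) (u w : Fin (Q.n0 N) → ℕ) (x : Fin (Q.k * Q.nit N) → ℕ)
    (y : Fin (Q.k * (Q.np N + 1)) → ℕ) (i : ℕ) : FA Q N c u w x y i =
      (∏ f ∈ univ.filter (fun f : Fin (Q.n0 N) => (c (Sum.inl f) : ℕ) = i), u f) * ∏ t ∈ sl Q N c u w x y i, Q.gx N x i t := rfl

private theorem C2_B (Q : MPar) (N : ℕ) (c : FE (Q.n0 N) → Fin (Q.k + 1)) (u w : Fin (Q.n0 N) → ℕ) (x : Fin (Q.k * Q.nit N) → ℕ)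
    (y : Fin (Q.k * (Q.np N + 1)) → ℕ) (i : ℕ) : FB Q N c u w x y i =
      (∏ f ∈ univ.filter (fun f : Fin (Q.n0 N) => (c (Sum.inr f) : ℕ) = i), w f) * (Q.gy N y i (Q.np N) *
        ∏ t ∈ (sl Q N c u w x y i).filter (fun t => t < Q.np N), Q.gy N y i t) := rfl

private theorem C2_comp (hQ : Q.Ok) (h : Q.Lg N) (c : FE (Q.n0 N) → Fin (Q.k + 1)) {u w : Fin (Q.n0 N) → ℕ} (hu : u ∈ Fintype.piFinset (Q.sys N).FX)
    (hw : w ∈ Fintype.piFinset (Q.sys N).FY) {x : Fin (Q.k * Q.nit N) → ℕ} (hx : x ∈ Fintype.piFinset (Q.sys N).OX)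
    {y : Fin (Q.k * (Q.np N + 1)) → ℕ} (hy : y ∈ Fintype.piFinset (Q.sys N).OY) {i : ℕ} (hi : i < Q.k) :
    FB Q N c u w x y i < FA Q N c u w x y i ∧ (FA Q N c u w x y i : ℝ) ≤ Real.exp 15.1 * FB Q N c u w x y i := by
  have hA0 := (C2_pos hQ h c hu hw hx hy hi).1
  have hB0 := (C2_pos hQ h c hu hw hx hy hi).2
  have hs := sel_spec hQ h hx hy c hu hw hi
  obtain ⟨SS, hSS⟩ : ∃ SS : Finset ℕ, SS = sl Q N c u w x y i := ⟨_, rfl⟩
  have hs' : SS ⊆ range (Q.nit N) ∧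
    Q.tgt N c (fun f => cell N (u f)) (fun f => cell N (w f)) y i ≤ ∑ t ∈ SS, Q.sv N x y i t ∧
    ∑ t ∈ SS, Q.sv N x y i t ≤
      Q.tgt N c (fun f => cell N (u f)) (fun f => cell N (w f)) y i + 13 * Real.log N := by
    rw [hSS]
    exact hs
  obtain ⟨s1, s2, s3⟩ := hs'
  have hA := C2_A Q N c u w x y i
  have hB := C2_B Q N c u w x y i
  rw [← hSS] at hA hB
  obtain ⟨A, hAe⟩ : ∃ A : ℕ, A = FA Q N c u w x y i := ⟨_, rfl⟩
  obtain ⟨B, hBe⟩ : ∃ B : ℕ, B = FB Q N c u w x y i := ⟨_, rfl⟩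
  rw [← hAe] at hA hA0 ⊢
  rw [← hBe] at hB hB0 ⊢
  have hN1 := h.N1.le
  have hK := h.K1
  obtain ⟨K, hKe⟩ : ∃ K : ℝ, K = Real.log N := ⟨_, rfl⟩
  rw [← hKe] at hK s3
  have hK0 : 0 < K := lt_of_lt_of_le (by norm_num) hK
  -- the four products
  have p1 := C2_prod hN1 (univ.filter (fun f : Fin (Q.n0 N) => (c (Sum.inl f) : ℕ) = i)) (fun f => u f)
    (fun f _ => (mem_pc.1 (C2_FXm hu f)).1.pos)
  have p2 := C2_prod hN1 SS (fun t => Q.gx N x i t) (fun t ht => (C2_gxp hx hQ h hi (mem_range.1 (s1 ht))).1.pos)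
  have p3 := C2_prod hN1 (univ.filter (fun f : Fin (Q.n0 N) => (c (Sum.inr f) : ℕ) = i)) (fun f => w f)
    (fun f _ => (mem_pc.1 (C2_FYm hw f)).1.pos)
  have p4 := C2_prod hN1 (SS.filter (fun t => t < Q.np N)) (fun t => Q.gy N y i t)
    (fun t ht => (C2_gyp hy hQ h hi (mem_filter.1 ht).2.le).pos)
  have hbp : 0 < Q.gy N y i (Q.np N) := (C2_gyp hy hQ h hi le_rfl).pos
  have p5 : (cell N (Q.gy N y i (Q.np N)) : ℝ) ≤ Real.log N * Real.log (Q.gy N y i (Q.np N)) := cell_le hN1 hbp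
  have p6 : Real.log N * Real.log (Q.gy N y i (Q.np N)) ≤ (cell N (Q.gy N y i (Q.np N)) : ℝ) + 1 := (lt_cell N _).le
  rw [← hKe] at p1 p2 p3 p4 p5 p6
  -- the cardinalities
  have c1 : ((univ.filter (fun f : Fin (Q.n0 N) => (c (Sum.inl f) : ℕ) = i)).card : ℝ) ≤ Q.n0 N := by
    have := card_filter_le (univ : Finset (Fin (Q.n0 N))) (fun f : Fin (Q.n0 N) => (c (Sum.inl f) : ℕ) = i)
    rw [card_univ, Fintype.card_fin] at this
    exact_mod_cast this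
  have c3 : ((univ.filter (fun f : Fin (Q.n0 N) => (c (Sum.inr f) : ℕ) = i)).card : ℝ) ≤ Q.n0 N := by
    have := card_filter_le (univ : Finset (Fin (Q.n0 N))) (fun f : Fin (Q.n0 N) => (c (Sum.inr f) : ℕ) = i)
    rw [card_univ, Fintype.card_fin] at this
    exact_mod_cast this
  have c2 : (SS.card : ℝ) ≤ Q.nit N := by
    have := card_le_card s1
    rw [card_range] at this
    exact_mod_cast this
  have c4 : ((SS.filter (fun t => t < Q.np N)).card : ℝ) ≤ Q.np N := by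
    have h1 : SS.filter (fun t => t < Q.np N) ⊆ range (Q.np N) := fun t ht => mem_range.2 (mem_filter.1 ht).2
    have := card_le_card h1
    rw [card_range] at this
    exact_mod_cast this
  -- the values
  have v1 : ∑ t ∈ SS, Q.sv N x y i t = ∑ t ∈ SS, (cell N (Q.gx N x i t) : ℝ) -
      ∑ t ∈ SS.filter (fun t => t < Q.np N), (cell N (Q.gy N y i t) : ℝ) := by
    rw [sum_filter, ← sum_sub_distrib]
    rfl
  have v2 : Q.tgt N c (fun f => cell N (u f)) (fun f => cell N (w f)) y i =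
      (cell N (Q.gy N y i (Q.np N)) : ℝ) + ∑ f ∈ univ.filter (fun f : Fin (Q.n0 N) => (c (Sum.inr f) : ℕ) = i), (cell N (w f) : ℝ) -
        ∑ f ∈ univ.filter (fun f : Fin (Q.n0 N) => (c (Sum.inl f) : ℕ) = i), (cell N (u f) : ℝ) + 2 * K := by
    rw [hKe]
    rfl
  have lA : Real.log A = Real.log ((∏ f ∈ univ.filter (fun f : Fin (Q.n0 N) => (c (Sum.inl f) : ℕ) = i), u f : ℕ) : ℝ) +
      Real.log ((∏ t ∈ SS, Q.gx N x i t : ℕ) : ℝ) := by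
    rw [hA, Nat.cast_mul, Real.log_mul (by exact_mod_cast p1.1.ne') (by exact_mod_cast p2.1.ne')]
  have lB : Real.log B = Real.log ((∏ f ∈ univ.filter (fun f : Fin (Q.n0 N) => (c (Sum.inr f) : ℕ) = i), w f : ℕ) : ℝ) +
      (Real.log (Q.gy N y i (Q.np N)) + Real.log ((∏ t ∈ SS.filter (fun t => t < Q.np N), Q.gy N y i t : ℕ) : ℝ)) := by
    have q1 : ((∏ f ∈ univ.filter (fun f : Fin (Q.n0 N) => (c (Sum.inr f) : ℕ) = i), w f : ℕ) : ℝ) ≠ 0 := by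
      exact_mod_cast p3.1.ne'
    have q2 : ((Q.gy N y i (Q.np N) : ℕ) : ℝ) ≠ 0 := by exact_mod_cast hbp.ne'
    have q3 : ((∏ t ∈ SS.filter (fun t => t < Q.np N), Q.gy N y i t : ℕ) : ℝ) ≠ 0 := by exact_mod_cast p4.1.ne'
    rw [hB, Nat.cast_mul, Nat.cast_mul, Real.log_mul q1 (mul_ne_zero q2 q3), Real.log_mul q2 q3]
  -- counting
  have hcnt := h.cnt
  have hk1 : (1 : ℝ) ≤ Q.k := by exact_mod_cast hQ.k1
  have hkK : 100 * kp N ≤ K := by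
    have hkp := C2_kp h
    have hk1 : (1 : ℝ) ≤ kp N := le_trans (by norm_num) hkp
    rw [hKe, ← h.Kk]
    calc 100 * kp N ≤ kp N * kp N := mul_le_mul_of_nonneg_right (le_trans (by norm_num) hkp) (by linarith)
      _ = kp N ^ 2 := by ring
      _ ≤ kp N ^ 100 := pow_le_pow_right₀ hk1 (by norm_num)
  have n1 : (0 : ℝ) ≤ Q.n0 N := Nat.cast_nonneg _
  have n2 : (0 : ℝ) ≤ Q.nit N := Nat.cast_nonneg _
  have n3 : (0 : ℝ) ≤ Q.np N := Nat.cast_nonneg _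
  have n4 : (Q.nit N : ℝ) ≤ Q.k * (Q.nit N : ℝ) := le_mul_of_one_le_left n2 hk1
  have n5 : (Q.np N : ℝ) + 1 ≤ Q.k * ((Q.np N : ℝ) + 1) := le_mul_of_one_le_left (by linarith) hk1
  have eA : K * Real.log A = K * Real.log ((∏ f ∈ univ.filter (fun f : Fin (Q.n0 N) => (c (Sum.inl f) : ℕ) = i), u f : ℕ) : ℝ) +
      K * Real.log ((∏ t ∈ SS, Q.gx N x i t : ℕ) : ℝ) := by
    rw [lA]
    ring
  have eB : K * Real.log B = K * Real.log ((∏ f ∈ univ.filter (fun f : Fin (Q.n0 N) => (c (Sum.inr f) : ℕ) = i), w f : ℕ) : ℝ) +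
      K * Real.log (Q.gy N y i (Q.np N)) + K * Real.log ((∏ t ∈ SS.filter (fun t => t < Q.np N), Q.gy N y i t : ℕ) : ℝ) := by
    rw [lB]
    ring
  rw [v1, v2] at s2 s3
  obtain ⟨-, p11, p12⟩ := p1
  obtain ⟨-, p21, p22⟩ := p2
  obtain ⟨-, p31, p32⟩ := p3
  obtain ⟨-, p41, p42⟩ := p4
  have g1 : K * Real.log B < K * Real.log A := by
    rw [eA, eB]
    linarith
  have g2 : K * Real.log A ≤ K * (15.1 + Real.log B) := by
    rw [mul_add, eA, eB]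
    linarith
  have hA0r : (0 : ℝ) < A := by exact_mod_cast hA0
  have hB0r : (0 : ℝ) < B := by exact_mod_cast hB0
  constructor
  · have g3 : Real.log B < Real.log A := lt_of_mul_lt_mul_left g1 hK0.le
    have g4 := (Real.log_lt_log_iff hB0r hA0r).1 g3
    exact_mod_cast g4
  · have g3 : Real.log A ≤ 15.1 + Real.log B := le_of_mul_le_mul_left g2 hK0
    rw [← Real.log_le_log_iff hA0r (by positivity), Real.log_mul (Real.exp_pos _).ne' hB0r.ne', Real.log_exp]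
    exact g3

private theorem C2_le (hQ : Q.Ok) (h : Q.Lg N) (c : FE (Q.n0 N) → Fin (Q.k + 1)) {u w : Fin (Q.n0 N) → ℕ} (hu : u ∈ Fintype.piFinset (Q.sys N).FX)
    (hw : w ∈ Fintype.piFinset (Q.sys N).FY) {x : Fin (Q.k * Q.nit N) → ℕ} (hx : x ∈ Fintype.piFinset (Q.sys N).OX)
    {y : Fin (Q.k * (Q.np N + 1)) → ℕ} (hy : y ∈ Fintype.piFinset (Q.sys N).OY) {i : ℕ} (hi : i < Q.k) :
    (FA Q N c u w x y i : ℝ) ≤ Real.exp ((kp N) ^ 79) := by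
  have hA0 := (C2_pos hQ h c hu hw hx hy hi).1
  have hs := sel_spec hQ h hx hy c hu hw hi
  obtain ⟨SS, hSS⟩ : ∃ SS : Finset ℕ, SS = sl Q N c u w x y i := ⟨_, rfl⟩
  have s1 : SS ⊆ range (Q.nit N) := by
    rw [hSS]
    exact hs.1
  have hA := C2_A Q N c u w x y i
  rw [← hSS] at hA
  obtain ⟨A, hAe⟩ : ∃ A : ℕ, A = FA Q N c u w x y i := ⟨_, rfl⟩
  rw [← hAe] at hA hA0 ⊢
  have hA0r : (0 : ℝ) < A := by exact_mod_cast hA0
  have hkp := C2_kp h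
  have hk1 : (1 : ℝ) ≤ kp N := le_trans (by norm_num) hkp
  have hK := h.K1
  have hK1 : 1 / Real.log N ≤ 1 := by
    rw [div_le_one (by linarith)]
    linarith
  have b1 : ∀ f : Fin (Q.n0 N), 0 < u f ∧ Real.log (u f) ≤ 3 * (kp N) ^ 75 + 1 := by
    intro f
    refine ⟨(mem_pc.1 (C2_FXm hu f)).1.pos, ?_⟩
    have h1 := (fx_log hQ h f.2 (C2_FXm hu f)).2.1
    have h2 : kp N ^ 50 ≤ kp N ^ 75 := pow_le_pow_right₀ hk1 (by norm_num)
    have h3 : 0 ≤ kp N ^ 75 := by positivity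
    linarith
  have b2 : ∀ t ∈ SS, 0 < Q.gx N x i t ∧ Real.log (Q.gx N x i t) ≤ 3 * (kp N) ^ 75 + 1 := fun t ht =>
    ⟨(C2_gxp hx hQ h hi (mem_range.1 (s1 ht))).1.pos, (C2_gxp hx hQ h hi (mem_range.1 (s1 ht))).2⟩
  have lA : Real.log A = ∑ f ∈ univ.filter (fun f : Fin (Q.n0 N) => (c (Sum.inl f) : ℕ) = i), Real.log (u f) +
      ∑ t ∈ SS, Real.log (Q.gx N x i t) := by
    have q1 : ∏ f ∈ univ.filter (fun f : Fin (Q.n0 N) => (c (Sum.inl f) : ℕ) = i), ((u f : ℕ) : ℝ) ≠ 0 :=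
      prod_ne_zero_iff.2 fun f _ => by exact_mod_cast (b1 f).1.ne'
    have q2 : ∏ t ∈ SS, ((Q.gx N x i t : ℕ) : ℝ) ≠ 0 := prod_ne_zero_iff.2 fun t ht => by exact_mod_cast (b2 t ht).1.ne'
    rw [hA, Nat.cast_mul, Nat.cast_prod, Nat.cast_prod, Real.log_mul q1 q2, Real.log_prod (prod_ne_zero_iff.1 q1),
      Real.log_prod (prod_ne_zero_iff.1 q2)]
  have m1 : ∑ f ∈ univ.filter (fun f : Fin (Q.n0 N) => (c (Sum.inl f) : ℕ) = i), Real.log (u f) ≤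
      Q.n0 N * (3 * (kp N) ^ 75 + 1) := by
    have h1 : ∑ f ∈ univ.filter (fun f : Fin (Q.n0 N) => (c (Sum.inl f) : ℕ) = i), Real.log (u f) ≤
        ((univ.filter (fun f : Fin (Q.n0 N) => (c (Sum.inl f) : ℕ) = i)).card : ℕ) • (3 * (kp N) ^ 75 + 1) :=
      sum_le_card_nsmul _ _ _ fun f _ => (b1 f).2
    rw [nsmul_eq_mul] at h1
    refine h1.trans (mul_le_mul_of_nonneg_right ?_ (by positivity))
    have := card_filter_le (univ : Finset (Fin (Q.n0 N))) (fun f : Fin (Q.n0 N) => (c (Sum.inl f) : ℕ) = i)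
    rw [card_univ, Fintype.card_fin] at this
    exact_mod_cast this
  have m2 : ∑ t ∈ SS, Real.log (Q.gx N x i t) ≤ Q.nit N * (3 * (kp N) ^ 75 + 1) := by
    have h1 : ∑ t ∈ SS, Real.log (Q.gx N x i t) ≤ (SS.card : ℕ) • (3 * (kp N) ^ 75 + 1) :=
      sum_le_card_nsmul _ _ _ fun t ht => (b2 t ht).2
    rw [nsmul_eq_mul] at h1
    refine h1.trans (mul_le_mul_of_nonneg_right ?_ (by positivity))
    have := card_le_card s1
    rw [card_range] at this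
    exact_mod_cast this
  have hcnt := h.cnt
  have hkk : (1 : ℝ) ≤ Q.k := by exact_mod_cast hQ.k1
  have n1 : (0 : ℝ) ≤ Q.n0 N := Nat.cast_nonneg _
  have n2 : (0 : ℝ) ≤ Q.nit N := Nat.cast_nonneg _
  have n3 : (0 : ℝ) ≤ Q.np N := Nat.cast_nonneg _
  have n4 : (Q.nit N : ℝ) ≤ Q.k * (Q.nit N : ℝ) := le_mul_of_one_le_left n2 hkk
  have n5 : (Q.np N : ℝ) + 1 ≤ Q.k * ((Q.np N : ℝ) + 1) := le_mul_of_one_le_left (by linarith) hkk
  have n6 : (Q.n0 N : ℝ) + Q.nit N ≤ kp N := by linarith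
  have h75 : 1 ≤ kp N ^ 75 := one_le_pow₀ hk1
  have m3 : Real.log A ≤ kp N ^ 79 := by
    rw [lA]
    calc ∑ f ∈ univ.filter (fun f : Fin (Q.n0 N) => (c (Sum.inl f) : ℕ) = i), Real.log (u f) +
          ∑ t ∈ SS, Real.log (Q.gx N x i t) ≤ Q.n0 N * (3 * (kp N) ^ 75 + 1) + Q.nit N * (3 * (kp N) ^ 75 + 1) := add_le_add m1 m2
      _ = ((Q.n0 N : ℝ) + Q.nit N) * (3 * (kp N) ^ 75 + 1) := by ring
      _ ≤ kp N * (kp N * (kp N) ^ 75) := by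
          refine mul_le_mul n6 ?_ (by positivity) (by linarith)
          have h4 : 4 * kp N ^ 75 ≤ kp N * kp N ^ 75 := mul_le_mul_of_nonneg_right (by linarith) (by positivity)
          linarith
      _ = kp N ^ 77 := by ring
      _ ≤ kp N ^ 79 := pow_le_pow_right₀ hk1 (by norm_num)
  calc (A : ℝ) = Real.exp (Real.log A) := (Real.exp_log hA0r).symm
    _ ≤ Real.exp (kp N ^ 79) := Real.exp_le_exp.2 m3

theorem comp2 (hQ : Q.Ok) (h : Q.Lg N) (c : FE (Q.n0 N) → Fin (Q.k + 1)) {u w : Fin (Q.n0 N) → ℕ} (hu : u ∈ Fintype.piFinset (Q.sys N).FX)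
    (hw : w ∈ Fintype.piFinset (Q.sys N).FY) {x : Fin (Q.k * Q.nit N) → ℕ} (hx : x ∈ Fintype.piFinset (Q.sys N).OX)
    {y : Fin (Q.k * (Q.np N + 1)) → ℕ} (hy : y ∈ Fintype.piFinset (Q.sys N).OY) {i : ℕ} (hi : i < Q.k) :
    0 < FB Q N c u w x y i ∧ FB Q N c u w x y i < FA Q N c u w x y i ∧ (FA Q N c u w x y i : ℝ) ≤ Real.exp 15.1 * FB Q N c u w x y i ∧
      (FA Q N c u w x y i : ℝ) ≤ Real.exp ((kp N) ^ 79) := by
  obtain ⟨h1, h2⟩ := C2_comp hQ h c hu hw hx hy hi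
  exact ⟨(C2_pos hQ h c hu hw hx hy hi).2, h1, h2, C2_le hQ h c hu hw hx hy hi⟩

end MPar

end Pool.Agent.Lib.TC
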