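import Pool.Agent.Lib.MP_7b7e48_nt.T3S.IY
import Pool.Agent.Lib.MP_7b7e48_nt.T3S.FL
import Pool.Agent.Lib.MP_7b7e48_nt.T3S.C2

/-!
# T3S.AB (50 minutes): the cofactors of `sys3`

`AA3_eq`, `BB3_eq`: unfold `MS.AA` (`i < k`), `MS.fX id`, `oX3_eq`, `oY3_eq`; `SEL3 = sl .. (xr x) (yr y) i` by `rfl`, `gx_xr`, `gy_yr` (`SEL3 ⊆ range nit`). `comp3`: `comp2` for `xr`, `yr` and `fix_cmp` (`gx3_mem`, `gy3_mem` with `t = nit`, `nit + 1`, `np + 1`: `OX3 i nit = U1 i`, `OX3 i (nit+1) = U2 i`,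
`OY3 i (np + 1) = U3 i`): `15.1 + 3/4 ≤ 16`. `AA3_le`: `exp (κ ^ 79 + 4 l0) ≤ exp (κ ^ 80)`.
-/

set_option autoImplicit false

open Finset

namespace Pool.Agent.Lib.TC

namespace MPar

variable {Q : MPar} {N : ℕ}

private theorem AB_mX {S : MS} {μ : S.TX} (hμ : μ ∈ S.MX) : μ.2.1 ∈ Fintype.piFinset S.FX ∧ μ.2.2 ∈ Fintype.piFinset S.OX := by
  unfold MS.MX at hμ
  rw [mem_product, mem_product] at hμ
  exact hμ.2

private theorem AB_mY {S : MS} {ν : S.TY} (hν : ν ∈ S.MY) : ν.2.1 ∈ Fintype.piFinset S.FY ∧ ν.2.2 ∈ Fintype.piFinset S.OY := by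
  unfold MS.MY at hν
  rw [mem_product, mem_product] at hν
  exact hν.2

private theorem AB_u1 {x : Fin (Q.k * (Q.nit N + 2)) → ℕ} (hx : x ∈ Fintype.piFinset (Q.sys3 N).OX) {i : ℕ} (hi : i < Q.k) :
    Q.gx3 N x i (Q.nit N) ∈ Q.U1 N i := by
  have h1 := gx3_mem hx hi (show Q.nit N < Q.nit N + 2 by omega)
  unfold OX3 at h1
  rwa [if_neg (lt_irrefl _), if_pos rfl] at h1

private theorem AB_u2 {x : Fin (Q.k * (Q.nit N + 2)) → ℕ} (hx : x ∈ Fintype.piFinset (Q.sys3 N).OX) {i : ℕ} (hi : i < Q.k) :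
    Q.gx3 N x i (Q.nit N + 1) ∈ Q.U2 N i := by
  have h1 := gx3_mem hx hi (show Q.nit N + 1 < Q.nit N + 2 by omega)
  unfold OX3 at h1
  rwa [if_neg (by omega), if_neg (by omega)] at h1

private theorem AB_u3 {y : Fin (Q.k * (Q.np N + 2)) → ℕ} (hy : y ∈ Fintype.piFinset (Q.sys3 N).OY) {i : ℕ} (hi : i < Q.k) :
    Q.gy3 N y i (Q.np N + 1) ∈ Q.U3 N i := by
  have h1 := gy3_mem hy hi (show Q.np N + 1 < Q.np N + 2 by omega)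
  unfold OY3 at h1
  rwa [if_neg (lt_irrefl _)] at h1

theorem AA3_eq (hQ : Q.Ok) (h : Q.Lg N) (c : (Q.sys3 N).Col) {μ : (Q.sys3 N).TX} (hμ : μ ∈ (Q.sys3 N).MX) {ν : (Q.sys3 N).TY}
    (hν : ν ∈ (Q.sys3 N).MY) (X : ℕ) {i : ℕ} (hi : i < Q.k) : (Q.sys3 N).AA N c μ ν X i =
      FA Q N c μ.2.1 ν.2.1 (Q.xr N μ.2.2) (Q.yr N ν.2.2) i *
        if Even (CN3 Q N c μ ν i) then Q.gx3 N μ.2.2 i (Q.nit N) * Q.gx3 N μ.2.2 i (Q.nit N + 1) else 1 := by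
  have h1 : (Q.sys3 N).AA N c μ ν X i = (Q.sys3 N).fX id c μ i * (Q.sys3 N).oX N id c μ ν i := by
    unfold MS.AA
    rw [if_pos (show i < (Q.sys3 N).k from hi)]
  rw [h1, oX3_eq hQ h id c hμ hν hi, ← mul_assoc]
  simp only [id_eq]
  refine congrArg (· * _) ?_
  unfold FA MS.fX
  refine congrArg₂ (· * ·) rfl ?_
  refine Finset.prod_congr rfl fun t ht => ?_
  have ht' : t < Q.nit N := mem_range.mp (SEL3_sub hQ h c hμ hν hi ht)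
  exact (gx_xr μ.2.2 hi ht').symm

theorem BB3_eq (hQ : Q.Ok) (h : Q.Lg N) (c : (Q.sys3 N).Col) {μ : (Q.sys3 N).TX} (hμ : μ ∈ (Q.sys3 N).MX) {ν : (Q.sys3 N).TY}
    (hν : ν ∈ (Q.sys3 N).MY) (Y : ℕ) {i : ℕ} (hi : i < Q.k) : (Q.sys3 N).BB N c μ ν Y i =
      FB Q N c μ.2.1 ν.2.1 (Q.xr N μ.2.2) (Q.yr N ν.2.2) i * if Even (CN3 Q N c μ ν i) then Q.gy3 N ν.2.2 i (Q.np N + 1) else 1 := by
  have h1 : (Q.sys3 N).BB N c μ ν Y i = (Q.sys3 N).fY id c ν i * (Q.sys3 N).oY N id c μ ν i := by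
    unfold MS.BB
    rw [if_pos (show i < (Q.sys3 N).k from hi)]
  rw [h1, oY3_eq id c μ ν hi, ← mul_assoc]
  simp only [id_eq]
  refine congrArg (· * _) ?_
  unfold FB MS.fY
  refine congrArg₂ (· * ·) rfl ?_
  rw [gy_yr ν.2.2 hi (Nat.lt_succ_self _)]
  refine congrArg₂ (· * ·) rfl ?_
  refine Finset.prod_congr rfl fun t ht => ?_
  have ht' : t < Q.np N := (mem_filter.mp ht).2
  exact (gy_yr ν.2.2 hi (by omega)).symm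

private theorem AB_all (hQ : Q.Ok) (h : Q.Lg N) (c : (Q.sys3 N).Col) {μ : (Q.sys3 N).TX} (hμ : μ ∈ (Q.sys3 N).MX) {ν : (Q.sys3 N).TY}
    (hν : ν ∈ (Q.sys3 N).MY) (X Y : ℕ) {i : ℕ} (hi : i < Q.k) :
    0 < (Q.sys3 N).BB N c μ ν Y i ∧ (Q.sys3 N).BB N c μ ν Y i < (Q.sys3 N).AA N c μ ν X i ∧
      ((Q.sys3 N).AA N c μ ν X i : ℝ) ≤ Real.exp 16 * (Q.sys3 N).BB N c μ ν Y i ∧
      ((Q.sys3 N).AA N c μ ν X i : ℝ) ≤ Real.exp ((kp N) ^ 80) := by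
  obtain ⟨hu, hx⟩ := AB_mX hμ
  obtain ⟨hw, hy⟩ := AB_mY hν
  obtain ⟨c1, c2, c3, c4⟩ := comp2 hQ h c (u := μ.2.1) (w := ν.2.1) hu hw (xr_mem hx) (yr_mem hy) hi
  rw [AA3_eq hQ h c hμ hν X hi, BB3_eq hQ h c hμ hν Y hi]
  have hk0 := h.k0
  have hk4 : (1 : ℝ) ≤ ((Q.k : ℝ) + 1) ^ 4 := one_le_pow₀ (by have : (0 : ℝ) ≤ Q.k := Nat.cast_nonneg _; linarith)
  have hκ : (10 : ℝ) ^ 10 ≤ kp N := by nlinarith
  have hκ1 : (1 : ℝ) ≤ kp N := le_trans (by norm_num) hκ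
  have hlk := h.lk
  set A := FA Q N c μ.2.1 ν.2.1 (Q.xr N μ.2.2) (Q.yr N ν.2.2) i with hA
  set B := FB Q N c μ.2.1 ν.2.1 (Q.xr N μ.2.2) (Q.yr N ν.2.2) i with hB
  have hB0 : (0 : ℝ) < B := by exact_mod_cast c1
  have h79 : (kp N) ^ 79 + 4 * kp N ≤ (kp N) ^ 80 := by
    have e1 : kp N ≤ kp N ^ 79 := le_self_pow₀ hκ1 (by norm_num)
    have e2 : kp N ^ 80 = kp N ^ 79 * kp N := pow_succ _ _
    have e3 : (0 : ℝ) ≤ kp N ^ 79 := by positivity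
    rw [e2]
    nlinarith
  by_cases hev : Even (CN3 Q N c μ ν i)
  · rw [if_pos hev, if_pos hev]
    have m1 := AB_u1 hx hi
    have m2 := AB_u2 hx hi
    have m3 := AB_u3 hy hi
    obtain ⟨f1, f2⟩ := fix_cmp m1 m2 m3
    obtain ⟨p1, -, -, l1⟩ := u1_log hQ h hi (Or.inl m1)
    obtain ⟨p2, -, -, l2⟩ := u1_log hQ h hi (Or.inr m2)
    obtain ⟨p3, -, -, -⟩ := u3_log hQ h hi m3
    set u := Q.gx3 N μ.2.2 i (Q.nit N) with hu'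
    set u' := Q.gx3 N μ.2.2 i (Q.nit N + 1) with hu''
    set w := Q.gy3 N ν.2.2 i (Q.np N + 1) with hw'
    have hw0 : (0 : ℝ) < w := by exact_mod_cast p3.pos
    have hu0 : (0 : ℝ) < u := by exact_mod_cast p1.pos
    have hu0' : (0 : ℝ) < u' := by exact_mod_cast p2.pos
    refine ⟨Nat.mul_pos c1 p3.pos, Nat.mul_lt_mul'' c2 f1, ?_, ?_⟩
    · rw [Nat.cast_mul, Nat.cast_mul B w]
      calc (A : ℝ) * ((u * u' : ℕ) : ℝ) ≤ (Real.exp 15.1 * B) * (Real.exp (3 / 4) * w) :=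
            mul_le_mul c3 f2 (Nat.cast_nonneg _) (by positivity)
        _ = Real.exp (15.1 + 3 / 4) * (B * w) := by rw [Real.exp_add]; ring
        _ ≤ Real.exp 16 * (B * w) :=
            mul_le_mul_of_nonneg_right (Real.exp_le_exp.mpr (by norm_num)) (by positivity)
    · have e1 : ((u * u' : ℕ) : ℝ) ≤ Real.exp (4 * kp N) := by
        have e2 : (u : ℝ) ≤ Real.exp (8 / 5 * Q.l0 N) := by
          rw [← Real.exp_log hu0]; exact Real.exp_le_exp.mpr l1.le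
        have e3 : (u' : ℝ) ≤ Real.exp (8 / 5 * Q.l0 N) := by
          rw [← Real.exp_log hu0']; exact Real.exp_le_exp.mpr l2.le
        rw [Nat.cast_mul]
        calc (u : ℝ) * u' ≤ Real.exp (8 / 5 * Q.l0 N) * Real.exp (8 / 5 * Q.l0 N) :=
              mul_le_mul e2 e3 hu0'.le (Real.exp_pos _).le
          _ = Real.exp (16 / 5 * Q.l0 N) := by rw [← Real.exp_add]; congr 1; ring
          _ ≤ Real.exp (4 * kp N) := Real.exp_le_exp.mpr (by linarith)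
      rw [Nat.cast_mul]
      calc (A : ℝ) * ((u * u' : ℕ) : ℝ) ≤ Real.exp ((kp N) ^ 79) * Real.exp (4 * kp N) :=
            mul_le_mul c4 e1 (Nat.cast_nonneg _) (Real.exp_pos _).le
        _ = Real.exp ((kp N) ^ 79 + 4 * kp N) := by rw [← Real.exp_add]
        _ ≤ Real.exp ((kp N) ^ 80) := Real.exp_le_exp.mpr h79
  · rw [if_neg hev, if_neg hev, mul_one, mul_one]
    refine ⟨c1, c2, ?_, ?_⟩
    · refine c3.trans (mul_le_mul_of_nonneg_right (Real.exp_le_exp.mpr (by norm_num)) hB0.le)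
    · refine c4.trans (Real.exp_le_exp.mpr ?_)
      linarith

theorem AA3_pos (hQ : Q.Ok) (h : Q.Lg N) (c : (Q.sys3 N).Col) {μ : (Q.sys3 N).TX} (hμ : μ ∈ (Q.sys3 N).MX) {ν : (Q.sys3 N).TY}
    (hν : ν ∈ (Q.sys3 N).MY) (X : ℕ) {i : ℕ} (hi : i < Q.k) : 0 < (Q.sys3 N).AA N c μ ν X i ∧ 0 < (Q.sys3 N).BB N c μ ν X i := by
  obtain ⟨h1, h2, -, -⟩ := AB_all hQ h c hμ hν X X hi
  exact ⟨h1.trans h2, h1⟩

theorem comp3 (hQ : Q.Ok) (h : Q.Lg N) (c : (Q.sys3 N).Col) {μ : (Q.sys3 N).TX} (hμ : μ ∈ (Q.sys3 N).MX) {ν : (Q.sys3 N).TY}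
    (hν : ν ∈ (Q.sys3 N).MY) (X Y : ℕ) {i : ℕ} (hi : i < Q.k) :
    (Q.sys3 N).BB N c μ ν Y i < (Q.sys3 N).AA N c μ ν X i ∧
      ((Q.sys3 N).AA N c μ ν X i : ℝ) ≤ Real.exp 16 * (Q.sys3 N).BB N c μ ν Y i := by
  obtain ⟨-, h2, h3, -⟩ := AB_all hQ h c hμ hν X Y hi
  exact ⟨h2, h3⟩

theorem AA3_le (hQ : Q.Ok) (h : Q.Lg N) (c : (Q.sys3 N).Col) {μ : (Q.sys3 N).TX} (hμ : μ ∈ (Q.sys3 N).MX) {ν : (Q.sys3 N).TY}
    (hν : ν ∈ (Q.sys3 N).MY) (X : ℕ) {i : ℕ} (hi : i < Q.k) : ((Q.sys3 N).AA N c μ ν X i : ℝ) ≤ Real.exp ((kp N) ^ 80) := by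
  obtain ⟨-, -, -, h4⟩ := AB_all hQ h c hμ hν X X hi
  exact h4

end MPar

end Pool.Agent.Lib.TC
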