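import Pool.Agent.Lib.MP_7b7e48_nt.BR3.JX
import Pool.Agent.Lib.MP_7b7e48_nt.T3S.J

/-!
# T3S.JX (60 minutes): the sets of `X` are pairwise disjoint

As in `BR3/JX.lean`. Windows `i < j`: `Z3_lt`. Windows against the others: `w3_ok` (`log p > κ ^ 90`) against `nw3` (`log p ≤ κ ^ 80`). Free against free, free against old marks, old marks against old marks (`OX3 i t = OXs i t = (sys N).OX ⟨i nit + t, _⟩` for `t < nit`; different `(i, t)`, different numbers): `BR3.JX.sets_x`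
(its index type is `Fin (k+1) ⊕ (Fin n0 ⊕ Fin (k nit))`). Fixers `U1 i`, `U2 i` against each other: `u1_dis`, `u2_dis`, `u12_dis`; against the free and the old marks: `u1_log` (`3/2 l0 < log p < 8/5 l0`) and `nw_ok` (`log p ≤ 7/5 l0` or `2 l0 < log p`).
-/

set_option autoImplicit false

open Finset

namespace Pool.Agent.Lib.TC

namespace MPar

variable {Q : MPar} {N : ℕ}

private theorem JX3_kp (h : Q.Lg N) : (10 : ℝ) ^ 10 ≤ kp N := by
  have h1 := h.k0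
  have h2 : (1 : ℝ) ≤ (Q.k + 1) ^ 4 := by
    have : (1 : ℝ) ≤ (Q.k : ℝ) + 1 := by
      have : (0 : ℝ) ≤ Q.k := Nat.cast_nonneg _
      linarith
    exact one_le_pow₀ this
  have h3 : (10 : ℝ) ^ 10 * 1 ≤ (10 : ℝ) ^ 10 * (Q.k + 1) ^ 4 :=
    mul_le_mul_of_nonneg_left h2 (by norm_num)
  linarith

private theorem JX3_ww (hQ : Q.Ok) (h : Q.Lg3 N) {i j : ℕ} (hij : i < j) (hj : j ≤ Q.k) : Disjoint (Q.WX3 N i) (Q.WX3 N j) := by
  rw [Finset.disjoint_left]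
  intro p hp hp'
  unfold WX3 pw at hp hp'
  have h1 := (mem_Ioc.1 (mem_filter.1 hp).1).2
  have h2 := (mem_Ioc.1 (mem_filter.1 hp').1).1
  have h3 := (Z3_lt hQ h.lh hij hj).1
  omega

private theorem JX3_wo (hQ : Q.Ok) (h : Q.Lg3 N) {i : ℕ} (hi : i ≤ Q.k) {S : Finset ℕ}
    (hS : (∃ f, S = (Q.sys3 N).FX f) ∨ ∃ e, S = (Q.sys3 N).OX e) : Disjoint (Q.WX3 N i) S := by
  rw [Finset.disjoint_left]
  intro p hp hp'
  have h1 := (w3_ok hQ h hi (Or.inl hp)).2.2.1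
  have h2 : Real.log p ≤ (kp N) ^ 80 := by
    rcases hS with ⟨f, hf⟩ | ⟨e, he⟩
    · rw [hf] at hp'
      exact (nw3 hQ h.lg (Or.inl ⟨f, hp'⟩)).2.2.2
    · rw [he] at hp'
      exact (nw3 hQ h.lg (Or.inr (Or.inr (Or.inl ⟨e, hp'⟩)))).2.2.2
  have h3 : (1 : ℝ) ≤ kp N := le_trans (by norm_num) (JX3_kp h.lg)
  have h4 : kp N ^ 80 ≤ kp N ^ 90 := pow_le_pow_right₀ h3 (by norm_num)
  linarith

private theorem JX3_two (h : Q.Lg N) : 2 * Q.l0 N ≤ kp N ^ 2 := by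
  have hκ := JX3_kp h
  have h5 : 2 * kp N ≤ kp N ^ 2 := by
    rw [pow_two]
    exact mul_le_mul_of_nonneg_right (le_trans (by norm_num) hκ) (le_trans (by norm_num) hκ)
  have h6 := h.lk
  linarith

private theorem JX3_l0 (h : Q.Lg N) : 0 ≤ Q.l0 N := le_trans (by positivity) h.lb

private theorem JX3_fu (hQ : Q.Ok) (h : Q.Lg N) {f : ℕ} (hf : f < Q.n0 N) {i : ℕ} (hi : i < Q.k) {S : Finset ℕ}
    (hS : S = Q.U1 N i ∨ S = Q.U2 N i) : Disjoint (Q.FXs N f) S := by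
  rw [Finset.disjoint_left]
  intro p hp hp'
  have h0 : p ∈ Q.U1 N i ∨ p ∈ Q.U2 N i := by
    rcases hS with hS | hS
    · exact Or.inl (hS ▸ hp')
    · exact Or.inr (hS ▸ hp')
  have h1 := (fx_log hQ h hf hp).1
  have h2 := (u1_log hQ h hi h0).2.2.2
  have h3 : (1 : ℝ) ≤ kp N := le_trans (by norm_num) (JX3_kp h)
  have h4 : kp N ^ 2 ≤ kp N ^ 25 := pow_le_pow_right₀ h3 (by norm_num)
  have h5 := JX3_two h
  have h6 := JX3_l0 h
  linarith

private theorem JX3_ou (hQ : Q.Ok) (h : Q.Lg N) {i t i' : ℕ} (hi : i < Q.k) (hi' : i' < Q.k) {S : Finset ℕ}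
    (hS : S = Q.U1 N i' ∨ S = Q.U2 N i') : Disjoint (Q.OXs N i t) S := by
  rw [Finset.disjoint_left]
  intro p hp hp'
  have h0 : p ∈ Q.U1 N i' ∨ p ∈ Q.U2 N i' := by
    rcases hS with hS | hS
    · exact Or.inl (hS ▸ hp')
    · exact Or.inr (hS ▸ hp')
  have h2 := (u1_log hQ h hi' h0).2.2
  have h6 := JX3_l0 h
  unfold OXs at hp
  split_ifs at hp with ht
  · have h1 := (px_log hQ h hi ht hp).2.2.2
    linarith [h2.1]
  · have h3 := (rs_log hQ h hi hp).1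
    have h4 : Real.exp (Q.j3 N) ≤ Real.exp (Q.j3 N + (t - Q.np N) / 6 : ℕ) :=
      Real.exp_le_exp.2 (by exact_mod_cast Nat.le_add_right _ _)
    have h5 := h.e3.1
    linarith [h2.2]

private theorem JX3_idx {i t : ℕ} (hi : i < Q.k) (ht : t < Q.nit N) :
    ∃ e : Fin (Q.sys N).nX, (Q.sys N).OX e = Q.OXs N i t ∧ (e : ℕ) / Q.nit N = i ∧ (e : ℕ) % Q.nit N = t := by
  have h1 : i * Q.nit N + t < Q.k * Q.nit N := by
    have h2 : (i + 1) * Q.nit N ≤ Q.k * Q.nit N := Nat.mul_le_mul_right _ hi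
    rw [Nat.add_mul, Nat.one_mul] at h2
    omega
  have h3 : (i * Q.nit N + t) / Q.nit N = i := by
    rw [Nat.add_comm, Nat.add_mul_div_right _ _ (by omega), Nat.div_eq_of_lt ht, Nat.zero_add]
  have h4 : (i * Q.nit N + t) % Q.nit N = t := by
    rw [Nat.add_comm, Nat.add_mul_mod_self_right, Nat.mod_eq_of_lt ht]
  refine ⟨⟨i * Q.nit N + t, h1⟩, ?_, h3, h4⟩
  change Q.OXs N ((i * Q.nit N + t) / Q.nit N) ((i * Q.nit N + t) % Q.nit N) = _
  rw [h3, h4]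

private theorem JX3_ff (hQ : Q.Ok) (h : Q.Lg N) {f f' : Fin (Q.n0 N)} (hf : f ≠ f') : Disjoint (Q.FXs N f) (Q.FXs N f') :=
  sets_x hQ h (Sum.inr (Sum.inl f)) (Sum.inr (Sum.inl f')) (fun h1 => hf (Sum.inl_injective (Sum.inr_injective h1)))

private theorem JX3_fo (hQ : Q.Ok) (h : Q.Lg N) {f : Fin (Q.n0 N)} {i t : ℕ} (hi : i < Q.k) (ht : t < Q.nit N) :
    Disjoint (Q.FXs N f) (Q.OXs N i t) := by
  obtain ⟨e, he, -, -⟩ := JX3_idx (N := N) hi ht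
  have h1 := sets_x hQ h (Sum.inr (Sum.inl f)) (Sum.inr (Sum.inr e)) (fun h1 => by cases h1)
  rw [← he]
  exact h1

private theorem JX3_oo (hQ : Q.Ok) (h : Q.Lg N) {i t i' t' : ℕ} (hi : i < Q.k) (ht : t < Q.nit N) (hi' : i' < Q.k)
    (ht' : t' < Q.nit N) (hne : ¬ (i = i' ∧ t = t')) : Disjoint (Q.OXs N i t) (Q.OXs N i' t') := by
  obtain ⟨e, he, e1, e2⟩ := JX3_idx (N := N) hi ht
  obtain ⟨e', he', e1', e2'⟩ := JX3_idx (N := N) hi' ht'
  have h1 := sets_x hQ h (Sum.inr (Sum.inr e)) (Sum.inr (Sum.inr e')) (fun h1 => by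
    have h2 : e = e' := Sum.inr_injective (Sum.inr_injective h1)
    refine hne ⟨?_, ?_⟩
    · rw [← e1, ← e1', h2]
    · rw [← e2, ← e2', h2])
  rw [← he, ← he']
  exact h1

private theorem JX3_e {k n e : ℕ} (he : e < k * n) : e / n < k := by
  refine Nat.div_lt_of_lt_mul ?_
  rwa [Nat.mul_comm]

private theorem JX3_fo3 (hQ : Q.Ok) (h : Q.Lg N) {f : Fin (Q.n0 N)} {i t : ℕ} (hi : i < Q.k) :
    Disjoint (Q.FXs N f) (Q.OX3 N i t) := by
  unfold OX3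
  split_ifs with ht h2
  · exact JX3_fo hQ h hi ht
  · exact JX3_fu hQ h f.2 hi (Or.inl rfl)
  · exact JX3_fu hQ h f.2 hi (Or.inr rfl)

private theorem JX3_u {i t : ℕ} (ht : ¬ t < Q.nit N) : Q.OX3 N i t = Q.U1 N i ∨ Q.OX3 N i t = Q.U2 N i := by
  unfold OX3
  rw [if_neg ht]
  split_ifs
  · exact Or.inl rfl
  · exact Or.inr rfl

private theorem JX3_oo3 (hQ : Q.Ok) (h : Q.Lg N) {i t i' t' : ℕ} (hi : i < Q.k) (ht : t < Q.nit N + 2) (hi' : i' < Q.k)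
    (ht' : t' < Q.nit N + 2) (hne : ¬ (i = i' ∧ t = t')) : Disjoint (Q.OX3 N i t) (Q.OX3 N i' t') := by
  by_cases h1 : t < Q.nit N
  · have e1 : Q.OX3 N i t = Q.OXs N i t := by
      unfold OX3
      rw [if_pos h1]
    by_cases h2 : t' < Q.nit N
    · have e2 : Q.OX3 N i' t' = Q.OXs N i' t' := by
        unfold OX3
        rw [if_pos h2]
      rw [e1, e2]
      exact JX3_oo hQ h hi h1 hi' h2 hne
    · rw [e1]
      exact JX3_ou hQ h hi hi' (JX3_u h2)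
  · by_cases h2 : t' < Q.nit N
    · have e2 : Q.OX3 N i' t' = Q.OXs N i' t' := by
        unfold OX3
        rw [if_pos h2]
      rw [e2]
      exact (JX3_ou hQ h hi' hi (JX3_u h1)).symm
    · unfold OX3
      rw [if_neg h1, if_neg h2]
      split_ifs with h3 h4 h4
      · refine u1_dis ?_
        intro h5
        exact hne ⟨h5, by omega⟩
      · exact u12_dis _ _
      · exact (u12_dis _ _).symm
      · refine u2_dis ?_
        intro h5
        exact hne ⟨h5, by omega⟩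

theorem sets_x3 (hQ : Q.Ok) (h : Q.Lg3 N) (a b : Fin ((Q.sys3 N).k + 1) ⊕ (Fin (Q.sys3 N).n0 ⊕ Fin (Q.sys3 N).nX)) (hab : a ≠ b) :
    Disjoint (Sum.elim (Q.sys3 N).WX (Sum.elim (Q.sys3 N).FX (Q.sys3 N).OX) a)
      (Sum.elim (Q.sys3 N).WX (Sum.elim (Q.sys3 N).FX (Q.sys3 N).OX) b) := by
  have key : ∀ (f : Fin (Q.n0 N)) (e : Fin (Q.k * (Q.nit N + 2))), Disjoint ((Q.sys3 N).FX f) ((Q.sys3 N).OX e) := by
    intro f e
    exact JX3_fo3 hQ h.lg (JX3_e e.2)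
  rcases a with i | f | e <;> rcases b with i' | f' | e'
  · have hne : (i : ℕ) ≠ (i' : ℕ) := fun h1 => hab (by rw [Fin.ext h1])
    have hi : (i : ℕ) ≤ Q.k := Nat.lt_succ_iff.1 i.2
    have hi' : (i' : ℕ) ≤ Q.k := Nat.lt_succ_iff.1 i'.2
    rcases lt_or_gt_of_ne hne with h1 | h1
    · exact JX3_ww hQ h h1 hi'
    · exact (JX3_ww hQ h h1 hi).symm
  · exact JX3_wo hQ h (Nat.lt_succ_iff.1 i.2) (Or.inl ⟨f', rfl⟩)
  · exact JX3_wo hQ h (Nat.lt_succ_iff.1 i.2) (Or.inr ⟨e', rfl⟩)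
  · exact (JX3_wo hQ h (Nat.lt_succ_iff.1 i'.2) (Or.inl ⟨f, rfl⟩)).symm
  · exact JX3_ff hQ h.lg (fun h1 => hab (by rw [h1]))
  · exact key f e'
  · exact (JX3_wo hQ h (Nat.lt_succ_iff.1 i'.2) (Or.inr ⟨e, rfl⟩)).symm
  · exact (key f' e).symm
  · refine JX3_oo3 hQ h.lg (JX3_e e.2) (Nat.mod_lt _ (Nat.succ_pos _)) (JX3_e e'.2) (Nat.mod_lt _ (Nat.succ_pos _)) ?_
    rintro ⟨h1, h2⟩
    refine hab ?_
    have h3 : (e : ℕ) = (e' : ℕ) := by
      rw [← Nat.div_add_mod (e : ℕ) (Q.nit N + 2), ← Nat.div_add_mod (e' : ℕ) (Q.nit N + 2), h1, h2]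
    rw [Fin.ext h3]

end MPar

end Pool.Agent.Lib.TC
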