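import Pool.Agent.Lib.MP_7b7e48_nt.BR3.JY
import Pool.Agent.Lib.MP_7b7e48_nt.T3S.J

/-!
# T3S.JY (60 minutes): the sets of the family of `Y` are pairwise disjoint

As in `JX`. The windows: `WA3 i ⊆ (3 V i, 4 V i]`, `WB3 i ⊆ (2 V i, 3 V i]`, `4 V i < V j` for `i < j` (`Z3_lt`). Windows against the others: `w3_ok`, `nw3`. Free and old marks (`t ≤ np`): `BR3.JY.sets_y`; fixers `U3 i`: `u3_dis` and `3 l0 < log p ≤ 4 l0` (`u3_log`) against: pairs `log p ≤ 7/5 l0` (`py_log`),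
free primes `log p > κ ^ 25` (`fx_log`), ballast `log p ≥ κ ^ 70 / ..` (`bal_log`), `l0 ≤ κ`.
-/

set_option autoImplicit false

open Finset

namespace Pool.Agent.Lib.TC

namespace MPar

variable {Q : MPar} {N : ℕ}

private theorem JY3_kp (h : Q.Lg N) : (10 : ℝ) ^ 10 ≤ kp N := by
  have h1 := h.k0
  have h2 : (1 : ℝ) ≤ (Q.k + 1) ^ 4 := by
    have : (1 : ℝ) ≤ (Q.k : ℝ) + 1 := by
      have : (0 : ℝ) ≤ Q.k := Nat.cast_nonneg _
      linarith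
    exact one_le_pow₀ this
  have h3 : (10 : ℝ) ^ 10 * 1 ≤ (10 : ℝ) ^ 10 * (Q.k + 1) ^ 4 :=
    mul_le_mul_of_nonneg_left h2 (by norm_num)
  linarith

private theorem JY3_w {i p : ℕ} (hp : p ∈ Q.WA3 N i ∨ p ∈ Q.WB3 N i) : 2 * Q.V N i < p ∧ p ≤ 4 * Q.V N i := by
  rcases hp with hp | hp
  · unfold WA3 pw at hp
    have h1 := mem_Ioc.1 (mem_filter.1 hp).1
    omega
  · unfold WB3 pw at hp
    have h1 := mem_Ioc.1 (mem_filter.1 hp).1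
    omega

private theorem JY3_ww (hQ : Q.Ok) (h : Q.Lg3 N) {i j : ℕ} (hij : i < j) (hj : j ≤ Q.k) {S T : Finset ℕ}
    (hS : S = Q.WA3 N i ∨ S = Q.WB3 N i) (hT : T = Q.WA3 N j ∨ T = Q.WB3 N j) : Disjoint S T := by
  rw [Finset.disjoint_left]
  intro p hp hp'
  have h1 : 2 * Q.V N i < p ∧ p ≤ 4 * Q.V N i := by
    refine JY3_w ?_
    rcases hS with hS | hS
    · exact Or.inl (hS ▸ hp)
    · exact Or.inr (hS ▸ hp)
  have h2 : 2 * Q.V N j < p ∧ p ≤ 4 * Q.V N j := by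
    refine JY3_w ?_
    rcases hT with hT | hT
    · exact Or.inl (hT ▸ hp')
    · exact Or.inr (hT ▸ hp')
  have h3 := (Z3_lt hQ h.lh hij hj).2
  omega

private theorem JY3_ab {i : ℕ} : Disjoint (Q.WA3 N i) (Q.WB3 N i) := by
  rw [Finset.disjoint_left]
  intro p hp hp'
  unfold WA3 pw at hp
  unfold WB3 pw at hp'
  have h1 := mem_Ioc.1 (mem_filter.1 hp).1
  have h2 := mem_Ioc.1 (mem_filter.1 hp').1
  omega

private theorem JY3_wo (hQ : Q.Ok) (h : Q.Lg3 N) {i : ℕ} (hi : i ≤ Q.k) {S T : Finset ℕ}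
    (hT : T = Q.WA3 N i ∨ T = Q.WB3 N i)
    (hS : (∃ f, S = (Q.sys3 N).FY f) ∨ ∃ e, S = (Q.sys3 N).OY e) : Disjoint T S := by
  rw [Finset.disjoint_left]
  intro p hp hp'
  have hp1 : p ∈ Q.WX3 N i ∨ p ∈ Q.WA3 N i ∨ p ∈ Q.WB3 N i := by
    rcases hT with hT | hT
    · exact Or.inr (Or.inl (hT ▸ hp))
    · exact Or.inr (Or.inr (hT ▸ hp))
  have h1 := (w3_ok hQ h hi hp1).2.2.1
  have h2 : Real.log p ≤ (kp N) ^ 80 := by
    rcases hS with ⟨f, hf⟩ | ⟨e, he⟩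
    · rw [hf] at hp'
      exact (nw3 hQ h.lg (Or.inr (Or.inl ⟨f, hp'⟩))).2.2.2
    · rw [he] at hp'
      exact (nw3 hQ h.lg (Or.inr (Or.inr (Or.inr ⟨e, hp'⟩)))).2.2.2
  have h3 : (1 : ℝ) ≤ kp N := le_trans (by norm_num) (JY3_kp h.lg)
  have h4 : kp N ^ 80 ≤ kp N ^ 90 := pow_le_pow_right₀ h3 (by norm_num)
  linarith

private theorem JY3_four (h : Q.Lg N) : 4 * Q.l0 N ≤ kp N ^ 2 := by
  have hκ := JY3_kp h
  have h5 : 4 * kp N ≤ kp N ^ 2 := by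
    rw [pow_two]
    exact mul_le_mul_of_nonneg_right (le_trans (by norm_num) hκ) (le_trans (by norm_num) hκ)
  have h6 := h.lk
  linarith

private theorem JY3_fu (hQ : Q.Ok) (h : Q.Lg N) {f : ℕ} (hf : f < Q.n0 N) {i : ℕ} (hi : i < Q.k) :
    Disjoint (Q.FXs N f) (Q.U3 N i) := by
  rw [Finset.disjoint_left]
  intro p hp hp'
  have h1 := (fx_log hQ h hf hp).1
  have h2 := (u3_log hQ h hi hp').2.2.2
  have h3 : (1 : ℝ) ≤ kp N := le_trans (by norm_num) (JY3_kp h)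
  have h4 : kp N ^ 2 ≤ kp N ^ 25 := pow_le_pow_right₀ h3 (by norm_num)
  have h5 := JY3_four h
  linarith

private theorem JY3_ou (hQ : Q.Ok) (h : Q.Lg N) {i t i' : ℕ} (hi : i < Q.k) (hi' : i' < Q.k) :
    Disjoint (Q.OYs N i t) (Q.U3 N i') := by
  rw [Finset.disjoint_left]
  intro p hp hp'
  have h2 := (u3_log hQ h hi' hp').2.2
  have h3 : (1 : ℝ) ≤ kp N := le_trans (by norm_num) (JY3_kp h)
  have h4 : kp N ^ 2 ≤ kp N ^ 70 := pow_le_pow_right₀ h3 (by norm_num)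
  have h5 := JY3_four h
  unfold OYs at hp
  split_ifs at hp with ht
  · have h1 := (py_log hQ h hi ht hp).2.2.2
    have hlb := h.lb
    have hl0 : 0 ≤ Q.l0 N := le_trans (by positivity) hlb
    linarith [h2.1]
  · have h1 := (bal_log hQ h hi hp).1
    linarith [h2.2]

private theorem JY3_idx {i t : ℕ} (hi : i < Q.k) (ht : t < Q.np N + 1) :
    ∃ e : Fin (Q.sys N).nY, (Q.sys N).OY e = Q.OYs N i t ∧ (e : ℕ) / (Q.np N + 1) = i ∧ (e : ℕ) % (Q.np N + 1) = t := by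
  have h1 : i * (Q.np N + 1) + t < Q.k * (Q.np N + 1) := by
    have h2 : (i + 1) * (Q.np N + 1) ≤ Q.k * (Q.np N + 1) := Nat.mul_le_mul_right _ hi
    rw [Nat.add_mul, Nat.one_mul] at h2
    omega
  have h3 : (i * (Q.np N + 1) + t) / (Q.np N + 1) = i := by
    rw [Nat.add_comm, Nat.add_mul_div_right _ _ (by omega), Nat.div_eq_of_lt ht, Nat.zero_add]
  have h4 : (i * (Q.np N + 1) + t) % (Q.np N + 1) = t := by
    rw [Nat.add_comm, Nat.add_mul_mod_self_right, Nat.mod_eq_of_lt ht]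
  refine ⟨⟨i * (Q.np N + 1) + t, h1⟩, ?_, h3, h4⟩
  change Q.OYs N ((i * (Q.np N + 1) + t) / (Q.np N + 1)) ((i * (Q.np N + 1) + t) % (Q.np N + 1)) = _
  rw [h3, h4]

private theorem JY3_ff (hQ : Q.Ok) (h : Q.Lg N) {f f' : Fin (Q.n0 N)} (hf : f ≠ f') : Disjoint (Q.FXs N f) (Q.FXs N f') :=
  sets_y hQ h (Sum.inr (Sum.inl f)) (Sum.inr (Sum.inl f')) (fun h1 => hf (Sum.inl_injective (Sum.inr_injective h1)))

private theorem JY3_fo (hQ : Q.Ok) (h : Q.Lg N) {f : Fin (Q.n0 N)} {i t : ℕ} (hi : i < Q.k) (ht : t < Q.np N + 1) :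
    Disjoint (Q.FXs N f) (Q.OYs N i t) := by
  obtain ⟨e, he, -, -⟩ := JY3_idx (N := N) hi ht
  have h1 := sets_y hQ h (Sum.inr (Sum.inl f)) (Sum.inr (Sum.inr e)) (fun h1 => by cases h1)
  rw [← he]
  exact h1

private theorem JY3_oo (hQ : Q.Ok) (h : Q.Lg N) {i t i' t' : ℕ} (hi : i < Q.k) (ht : t < Q.np N + 1) (hi' : i' < Q.k)
    (ht' : t' < Q.np N + 1) (hne : ¬ (i = i' ∧ t = t')) : Disjoint (Q.OYs N i t) (Q.OYs N i' t') := by
  obtain ⟨e, he, e1, e2⟩ := JY3_idx (N := N) hi ht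
  obtain ⟨e', he', e1', e2'⟩ := JY3_idx (N := N) hi' ht'
  have h1 := sets_y hQ h (Sum.inr (Sum.inr e)) (Sum.inr (Sum.inr e')) (fun h1 => by
    have h2 : e = e' := Sum.inr_injective (Sum.inr_injective h1)
    refine hne ⟨?_, ?_⟩
    · rw [← e1, ← e1', h2]
    · rw [← e2, ← e2', h2])
  rw [← he, ← he']
  exact h1

private theorem JY3_e {k n e : ℕ} (he : e < k * n) : e / n < k := by
  refine Nat.div_lt_of_lt_mul ?_
  rwa [Nat.mul_comm]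

private theorem JY3_fo3 (hQ : Q.Ok) (h : Q.Lg N) {f : Fin (Q.n0 N)} {i t : ℕ} (hi : i < Q.k) :
    Disjoint (Q.FXs N f) (Q.OY3 N i t) := by
  unfold OY3
  split_ifs with ht
  · exact JY3_fo hQ h hi ht
  · exact JY3_fu hQ h f.2 hi

private theorem JY3_oo3 (hQ : Q.Ok) (h : Q.Lg N) {i t i' t' : ℕ} (hi : i < Q.k) (ht : t < Q.np N + 2) (hi' : i' < Q.k)
    (ht' : t' < Q.np N + 2) (hne : ¬ (i = i' ∧ t = t')) : Disjoint (Q.OY3 N i t) (Q.OY3 N i' t') := by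
  unfold OY3
  by_cases h1 : t < Q.np N + 1
  · by_cases h2 : t' < Q.np N + 1
    · rw [if_pos h1, if_pos h2]
      exact JY3_oo hQ h hi h1 hi' h2 hne
    · rw [if_pos h1, if_neg h2]
      exact JY3_ou hQ h hi hi'
  · by_cases h2 : t' < Q.np N + 1
    · rw [if_neg h1, if_pos h2]
      exact (JY3_ou hQ h hi' hi).symm
    · rw [if_neg h1, if_neg h2]
      refine u3_dis ?_
      intro h3
      exact hne ⟨h3, by omega⟩

theorem sets_y3 (hQ : Q.Ok) (h : Q.Lg3 N) (a b : (Fin ((Q.sys3 N).k + 1) ⊕ Fin ((Q.sys3 N).k + 1)) ⊕ (Fin (Q.sys3 N).n0 ⊕ Fin (Q.sys3 N).nY)) (hab : a ≠ b) :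
    Disjoint (Sum.elim (Sum.elim (Q.WA N) (Q.WB N)) (Sum.elim (Q.sys3 N).FY (Q.sys3 N).OY) a)
      (Sum.elim (Sum.elim (Q.WA N) (Q.WB N)) (Sum.elim (Q.sys3 N).FY (Q.sys3 N).OY) b) := by
  have key : ∀ (f : Fin (Q.n0 N)) (e : Fin (Q.k * (Q.np N + 2))), Disjoint ((Q.sys3 N).FY f) ((Q.sys3 N).OY e) := by
    intro f e
    exact JY3_fo3 hQ h.lg (JY3_e e.2)
  have keyW : ∀ (i i' : Fin ((Q.sys3 N).k + 1)) (S T : Finset ℕ), i ≠ i' → (S = Q.WA3 N i ∨ S = Q.WB3 N i) →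
      (T = Q.WA3 N i' ∨ T = Q.WB3 N i') → Disjoint S T := by
    intro i i' S T hne hS hT
    have hne' : (i : ℕ) ≠ (i' : ℕ) := fun h1 => hne (Fin.ext h1)
    have hi : (i : ℕ) ≤ Q.k := Nat.lt_succ_iff.1 i.2
    have hi' : (i' : ℕ) ≤ Q.k := Nat.lt_succ_iff.1 i'.2
    rcases lt_or_gt_of_ne hne' with h1 | h1
    · exact JY3_ww hQ h h1 hi' hS hT
    · exact (JY3_ww hQ h h1 hi hT hS).symm
  rcases a with (i | i) | (f | e) <;> rcases b with (i' | i') | (f' | e')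
  · exact keyW i i' _ _ (fun h1 => hab (by rw [h1])) (Or.inl rfl) (Or.inl rfl)
  · by_cases h1 : i = i'
    · rw [h1]
      exact JY3_ab
    · exact keyW i i' _ _ h1 (Or.inl rfl) (Or.inr rfl)
  · exact JY3_wo hQ h (Nat.lt_succ_iff.1 i.2) (Or.inl rfl) (Or.inl ⟨f', rfl⟩)
  · exact JY3_wo hQ h (Nat.lt_succ_iff.1 i.2) (Or.inl rfl) (Or.inr ⟨e', rfl⟩)
  · by_cases h1 : i = i'
    · rw [h1]
      exact JY3_ab.symm
    · exact keyW i i' _ _ h1 (Or.inr rfl) (Or.inl rfl)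
  · exact keyW i i' _ _ (fun h1 => hab (by rw [h1])) (Or.inr rfl) (Or.inr rfl)
  · exact JY3_wo hQ h (Nat.lt_succ_iff.1 i.2) (Or.inr rfl) (Or.inl ⟨f', rfl⟩)
  · exact JY3_wo hQ h (Nat.lt_succ_iff.1 i.2) (Or.inr rfl) (Or.inr ⟨e', rfl⟩)
  · exact (JY3_wo hQ h (Nat.lt_succ_iff.1 i'.2) (Or.inl rfl) (Or.inl ⟨f, rfl⟩)).symm
  · exact (JY3_wo hQ h (Nat.lt_succ_iff.1 i'.2) (Or.inr rfl) (Or.inl ⟨f, rfl⟩)).symm
  · exact JY3_ff hQ h.lg (fun h1 => hab (by rw [h1]))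
  · exact key f e'
  · exact (JY3_wo hQ h (Nat.lt_succ_iff.1 i'.2) (Or.inl rfl) (Or.inr ⟨e, rfl⟩)).symm
  · exact (JY3_wo hQ h (Nat.lt_succ_iff.1 i'.2) (Or.inr rfl) (Or.inr ⟨e, rfl⟩)).symm
  · exact (key f' e).symm
  · refine JY3_oo3 hQ h.lg (JY3_e e.2) (Nat.mod_lt _ (Nat.succ_pos _)) (JY3_e e'.2) (Nat.mod_lt _ (Nat.succ_pos _)) ?_
    rintro ⟨h1, h2⟩
    refine hab ?_
    have h3 : (e : ℕ) = (e' : ℕ) := by
      rw [← Nat.div_add_mod (e : ℕ) (Q.np N + 2), ← Nat.div_add_mod (e' : ℕ) (Q.np N + 2), h1, h2]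
    rw [Fin.ext h3]

end MPar

end Pool.Agent.Lib.TC
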