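import Pool.Agent.Lib.MP_7b7e48_nt.T3S.AB
import Pool.Agent.Lib.MP_7b7e48_nt.TC.CycLam

/-!
# T3S.PA (50 minutes): the parity of the slots

All marks are primes. `lam` is multiplicative (`lam_prod` in `TC/CycLam.lean`; `lam p = -1` for primes: see `LS`), so `lam (AA i) = (-1) ^ (number of the marks of X of colour i)`, `lam (BB i) = (-1) ^ (number of the marks of Y of colour i)`; with `AA3_eq`, `BB3_eq`, the sum of the two numbers is
`cnt3 = #{c (inl f) = i} + #{c (inr f) = i} + #SEL + 1 + #{t ∈ SEL, t < np}` if `cnt3` is odd and `cnt3 + 3` if `cnt3` is even: odd in both cases. (`univ.filter (c f = i)` over the sum type `FE n0 = Fin n0 ⊕ Fin n0` has `#{inl} + #{inr}` elements.)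
-/

set_option autoImplicit false

open Finset

namespace Pool.Agent.Lib.TC

open Pool.Agent.Lib.MP_45349e_nt.LS (lam)

namespace MPar

variable {Q : MPar} {N : ℕ}

private theorem PA_prod {ι : Type*} (s : Finset ι) (f : ι → ℕ) (hf : ∀ i ∈ s, (f i).Prime) :
    lam (∏ i ∈ s, f i) = (-1) ^ s.card := by
  classical
  induction s using Finset.induction_on with
  | empty => simpa using lam_one'
  | insert a s ha ih =>
    have h1 : ∀ i ∈ s, (f i).Prime := fun i hi => hf i (mem_insert_of_mem hi)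
    have h2 : (f a).Prime := hf a (mem_insert_self _ _)
    rw [prod_insert ha, card_insert_of_notMem ha,
      Pool.Agent.Lib.MP_45349e_nt.LS.lam_mul _ _ h2.ne_zero (prod_pos fun i hi => (h1 i hi).pos).ne',
      Pool.Agent.Lib.MP_45349e_nt.LS.lam_prime _ h2, ih h1, pow_succ]
    ring

private theorem PA_pc {g p : ℕ} (hp : p ∈ Q.pc N g) : p.Prime := (mem_pc.1 hp).1

private theorem PA_PR {s t : ℝ} {p : ℕ} (hp : p ∈ (Pool.Agent.Lib.OW.PR s t).filter fun p => ¬ p ∣ N) : p.Prime :=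
  (Pool.Agent.Lib.OW.mem_PR.1 (mem_filter.1 hp).1).1

private theorem PA_OX {i t p : ℕ} (hp : p ∈ Q.OX3 N i t) : p.Prime := by
  unfold OX3 at hp
  split_ifs at hp
  · unfold OXs at hp
    split_ifs at hp
    · exact PA_PR hp
    · exact PA_pc hp
  · exact PA_PR hp
  · exact PA_PR hp

private theorem PA_OY {i t p : ℕ} (hp : p ∈ Q.OY3 N i t) : p.Prime := by
  unfold OY3 at hp
  split_ifs at hp
  · unfold OYs at hp
    split_ifs at hp
    · exact PA_PR hp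
    · exact PA_pc hp
  · exact PA_PR hp

private theorem PA_card {n m : ℕ} (c : FE n → Fin m) (i : ℕ) : (univ.filter (fun f => (c f : ℕ) = i)).card =
    (univ.filter (fun f : Fin n => (c (Sum.inl f) : ℕ) = i)).card + (univ.filter (fun f : Fin n => (c (Sum.inr f) : ℕ) = i)).card := by
  rw [card_filter, card_filter, card_filter, Fintype.sum_sum_type]

theorem par3 (hQ : Q.Ok) (h : Q.Lg N) (c : (Q.sys3 N).Col) {μ : (Q.sys3 N).TX} (hμ : μ ∈ (Q.sys3 N).MX) {ν : (Q.sys3 N).TY}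
    (hν : ν ∈ (Q.sys3 N).MY) (X Y : ℕ) {i : ℕ} (hi : i < Q.k) :
    lam ((Q.sys3 N).AA N c μ ν X i) * lam ((Q.sys3 N).BB N c μ ν Y i) = -1 := by
  have hs : SEL3 Q N c μ ν i ⊆ range (Q.nit N) := SEL3_sub hQ h c hμ hν hi
  have hlt : ∀ t ∈ SEL3 Q N c μ ν i, t < Q.nit N := fun t ht => mem_range.1 (hs ht)
  have hμ' := hμ
  have hν' := hν
  unfold MS.MX at hμ'
  unfold MS.MY at hν'
  rw [mem_product, mem_product] at hμ' hν'
  -- the marks are primes
  have px : ∀ t < Q.nit N + 2, (Q.gx3 N μ.2.2 i t).Prime := fun t ht => PA_OX (gx3_mem hμ'.2.2 hi ht)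
  have py : ∀ t < Q.np N + 2, (Q.gy3 N ν.2.2 i t).Prime := fun t ht => PA_OY (gy3_mem hν'.2.2 hi ht)
  have fx : ∀ f, (μ.2.1 f).Prime := fun f => PA_pc (Fintype.mem_piFinset.1 hμ'.2.1 f)
  have fy : ∀ f, (ν.2.1 f).Prime := fun f => PA_pc (Fintype.mem_piFinset.1 hν'.2.1 f)
  -- the products
  have a1 := PA_prod (univ.filter (fun f : Fin (Q.n0 N) => (c (Sum.inl f) : ℕ) = i)) (fun f => μ.2.1 f) fun f _ => fx f
  have a2 := PA_prod (univ.filter (fun f : Fin (Q.n0 N) => (c (Sum.inr f) : ℕ) = i)) (fun f => ν.2.1 f) fun f _ => fy f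
  have a3 := PA_prod (SEL3 Q N c μ ν i) (fun t => Q.gx N (Q.xr N μ.2.2) i t) fun t ht => by
    rw [gx_xr _ hi (hlt t ht)]
    exact px t (by have := hlt t ht; omega)
  have a4 := PA_prod ((SEL3 Q N c μ ν i).filter (fun t => t < Q.np N)) (fun t => Q.gy N (Q.yr N ν.2.2) i t) fun t ht => by
    rw [gy_yr _ hi (by have := (mem_filter.1 ht).2; omega)]
    exact py t (by have := (mem_filter.1 ht).2; omega)
  have p5 : (Q.gy N (Q.yr N ν.2.2) i (Q.np N)).Prime := by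
    rw [gy_yr _ hi (by omega)]
    exact py _ (by omega)
  have a5 := Pool.Agent.Lib.MP_45349e_nt.LS.lam_prime _ p5
  have q1 := px (Q.nit N) (by omega)
  have q2 := px (Q.nit N + 1) (by omega)
  have q3 := py (Q.np N + 1) (by omega)
  have n1 : (∏ f ∈ univ.filter (fun f : Fin (Q.n0 N) => (c (Sum.inl f) : ℕ) = i), μ.2.1 f) ≠ 0 := (prod_pos fun f _ => (fx f).pos).ne'
  have n2 : (∏ f ∈ univ.filter (fun f : Fin (Q.n0 N) => (c (Sum.inr f) : ℕ) = i), ν.2.1 f) ≠ 0 := (prod_pos fun f _ => (fy f).pos).ne'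
  have n3 : (∏ t ∈ SEL3 Q N c μ ν i, Q.gx N (Q.xr N μ.2.2) i t) ≠ 0 := by
    refine (prod_pos fun t ht => ?_).ne'
    rw [gx_xr _ hi (hlt t ht)]
    exact (px t (by have := hlt t ht; omega)).pos
  have n4 : (∏ t ∈ (SEL3 Q N c μ ν i).filter (fun t => t < Q.np N), Q.gy N (Q.yr N ν.2.2) i t) ≠ 0 := by
    refine (prod_pos fun t ht => ?_).ne'
    rw [gy_yr _ hi (by have := (mem_filter.1 ht).2; omega)]
    exact (py t (by have := (mem_filter.1 ht).2; omega)).pos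
  -- the cofactors of the old system
  have eA : lam (FA Q N c μ.2.1 ν.2.1 (Q.xr N μ.2.2) (Q.yr N ν.2.2) i) =
      (-1) ^ ((univ.filter (fun f : Fin (Q.n0 N) => (c (Sum.inl f) : ℕ) = i)).card + (SEL3 Q N c μ ν i).card) := by
    have e1 : FA Q N c μ.2.1 ν.2.1 (Q.xr N μ.2.2) (Q.yr N ν.2.2) i =
        (∏ f ∈ univ.filter (fun f : Fin (Q.n0 N) => (c (Sum.inl f) : ℕ) = i), μ.2.1 f) *
          ∏ t ∈ SEL3 Q N c μ ν i, Q.gx N (Q.xr N μ.2.2) i t := rfl
    rw [e1, Pool.Agent.Lib.MP_45349e_nt.LS.lam_mul _ _ n1 n3, a1, a3, pow_add]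
  have eB : lam (FB Q N c μ.2.1 ν.2.1 (Q.xr N μ.2.2) (Q.yr N ν.2.2) i) =
      (-1) ^ ((univ.filter (fun f : Fin (Q.n0 N) => (c (Sum.inr f) : ℕ) = i)).card +
        (((SEL3 Q N c μ ν i).filter (fun t => t < Q.np N)).card + 1)) := by
    have e1 : FB Q N c μ.2.1 ν.2.1 (Q.xr N μ.2.2) (Q.yr N ν.2.2) i =
        (∏ f ∈ univ.filter (fun f : Fin (Q.n0 N) => (c (Sum.inr f) : ℕ) = i), ν.2.1 f) *
          (Q.gy N (Q.yr N ν.2.2) i (Q.np N) *
            ∏ t ∈ (SEL3 Q N c μ ν i).filter (fun t => t < Q.np N), Q.gy N (Q.yr N ν.2.2) i t) := rfl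
    rw [e1, Pool.Agent.Lib.MP_45349e_nt.LS.lam_mul _ _ n2 (mul_ne_zero p5.ne_zero n4),
      Pool.Agent.Lib.MP_45349e_nt.LS.lam_mul _ _ p5.ne_zero n4, a2, a4, a5, pow_add, pow_succ]
    ring
  have zA : FA Q N c μ.2.1 ν.2.1 (Q.xr N μ.2.2) (Q.yr N ν.2.2) i ≠ 0 := mul_ne_zero n1 n3
  have zB : FB Q N c μ.2.1 ν.2.1 (Q.xr N μ.2.2) (Q.yr N ν.2.2) i ≠ 0 := mul_ne_zero n2 (mul_ne_zero p5.ne_zero n4)
  have ec : CN3 Q N c μ ν i = (univ.filter (fun f : Fin (Q.n0 N) => (c (Sum.inl f) : ℕ) = i)).card +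
      (univ.filter (fun f : Fin (Q.n0 N) => (c (Sum.inr f) : ℕ) = i)).card + (SEL3 Q N c μ ν i).card +
        (((SEL3 Q N c μ ν i).filter (fun t => t < Q.np N)).card + 1) := by
    have h0 := PA_card (n := Q.n0 N) (m := Q.k + 1) c i
    have h1 : CN3 Q N c μ ν i = (univ.filter (fun f : FE (Q.n0 N) => (c f : ℕ) = i)).card + (SEL3 Q N c μ ν i).card +
      (((SEL3 Q N c μ ν i).filter (fun t => t < Q.np N)).card + 1) := rfl
    exact h1.trans (congrArg (fun z => z + (SEL3 Q N c μ ν i).card + (((SEL3 Q N c μ ν i).filter (fun t => t < Q.np N)).card + 1)) h0)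
  rw [AA3_eq hQ h c hμ hν X hi, BB3_eq hQ h c hμ hν Y hi]
  have key : lam (FA Q N c μ.2.1 ν.2.1 (Q.xr N μ.2.2) (Q.yr N ν.2.2) i) *
      lam (FB Q N c μ.2.1 ν.2.1 (Q.xr N μ.2.2) (Q.yr N ν.2.2) i) = (-1) ^ (CN3 Q N c μ ν i) := by
    rw [eA, eB, ec, ← pow_add]
    ring_nf
  by_cases hE : Even (CN3 Q N c μ ν i)
  · rw [if_pos hE, if_pos hE, Pool.Agent.Lib.MP_45349e_nt.LS.lam_mul _ _ zA (mul_ne_zero q1.ne_zero q2.ne_zero),
      Pool.Agent.Lib.MP_45349e_nt.LS.lam_mul _ _ q1.ne_zero q2.ne_zero,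
      Pool.Agent.Lib.MP_45349e_nt.LS.lam_mul _ _ zB q3.ne_zero,
      Pool.Agent.Lib.MP_45349e_nt.LS.lam_prime _ q1, Pool.Agent.Lib.MP_45349e_nt.LS.lam_prime _ q2,
      Pool.Agent.Lib.MP_45349e_nt.LS.lam_prime _ q3]
    rw [hE.neg_one_pow] at key
    linear_combination (-1 : ℝ) * key
  · rw [if_neg hE, if_neg hE, mul_one, mul_one, key]
    exact (Nat.not_even_iff_odd.1 hE).neg_one_pow

end MPar

end Pool.Agent.Lib.TC
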