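import Pool.Agent.Lib.MP_7b7e48_nt.T3D.Lab
import Pool.Agent.Lib.MP_7b7e48_nt.T3S.PA
import Pool.Agent.Lib.MP_7b7e48_nt.T3S.WY

/-!
# T3S.LB: the parities of the concrete system
-/

set_option autoImplicit false

open Finset

namespace Pool.Agent.Lib.TC

open Pool.Agent.Lib.MP_45349e_nt.LS (lam)

namespace MPar

variable {Q : MPar} {N : ℕ}

theorem par_sys3 (hQ : Q.Ok) (h : Q.Lg3 N) (T : Dat) (hT : T.N = N) : T3D.Par (Q.sys3 N) T where
  wx := fun i l hl => by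
    have h1 := (w3_ok hQ h (Nat.le_of_lt_succ i.2) (Or.inl hl)).1
    exact ⟨h1.pos, Pool.Agent.Lib.MP_45349e_nt.LS.lam_prime _ h1⟩
  wy := fun i l hl => by
    have h1 := wy3_facts hQ h (Nat.le_of_lt_succ i.2) hl
    exact ⟨h1.1, h1.2.2.2.2.2.2.2.1⟩
  ab := fun c _ μ hμ ν hν i hi => by
    subst hT
    obtain ⟨h1, h2⟩ := AA3_pos hQ h.lg c hμ hν 0 hi
    exact ⟨h1, h2, par3 hQ h.lg c hμ hν 0 0 hi⟩

end MPar

end Pool.Agent.Lib.TC
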