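import Pool.Agent.Lib.MP_7b7e48_nt.BR3.K
import Pool.Agent.Lib.MP_7b7e48_nt.T3S.JX
import Pool.Agent.Lib.MP_7b7e48_nt.T3S.JY
import Pool.Agent.Lib.MP_7b7e48_nt.T3S.WY
import Pool.Agent.Lib.MP_7b7e48_nt.T3B.E0

/-!
# T3S.K (40 minutes): the sets of the two families

`sets_ok3` as `BR3.K.sets_ok`: `px`, `py`: `nw3`, `w3_ok`, `y0_lt` (`log p > l0`); `dx`, `dy`: `sets_x3`, `sets_y3` (`Fin.addCases`, `Fin.append_left/right`; `famX`, `T3B.famY3`). `cmp3`: `rfl`.
-/

set_option autoImplicit false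

open Finset

namespace Pool.Agent.Lib.TC

namespace MPar

variable {Q : MPar} {N : ℕ}

private theorem K3_kp (h : Q.Lg N) : (1 : ℝ) ≤ kp N := by
  have h1 := h.k0
  have h2 : (1 : ℝ) ≤ ((Q.k : ℝ) + 1) ^ 4 := one_le_pow₀ (by
    have : (0 : ℝ) ≤ Q.k := Nat.cast_nonneg _
    linarith)
  nlinarith

/-- the place of a set in the sequence of the sets -/
private def K3_ix (a b c : ℕ) (x : Fin (a + b + c)) : Fin a ⊕ (Fin b ⊕ Fin c) :=
  Fin.addCases (fun y => Fin.addCases (fun i => Sum.inl i) (fun f => Sum.inr (Sum.inl f)) y)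
    (fun e => Sum.inr (Sum.inr e)) x

private theorem K3_ix_inj (a b c : ℕ) : Function.Injective (K3_ix a b c) := by
  have h : Function.LeftInverse (Sum.elim (fun i => Fin.castAdd c (Fin.castAdd b i))
      (Sum.elim (fun f => Fin.castAdd c (Fin.natAdd a f)) (fun e => Fin.natAdd (a + b) e)))
      (K3_ix a b c) := by
    intro x
    unfold K3_ix
    refine Fin.addCases (fun y => ?_) (fun e => ?_) x
    · rw [Fin.addCases_left]
      refine Fin.addCases (fun i => ?_) (fun f => ?_) y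
      · rw [Fin.addCases_left]
        rfl
      · rw [Fin.addCases_right]
        rfl
    · rw [Fin.addCases_right]
      rfl
  exact h.injective

private theorem K3_fam {a b c : ℕ} (A : Fin a → Finset ℕ) (B : Fin b → Finset ℕ)
    (C : Fin c → Finset ℕ) (x : Fin (a + b + c)) :
    Fin.append (Fin.append A B) C x = Sum.elim A (Sum.elim B C) (K3_ix a b c x) := by
  unfold K3_ix
  refine Fin.addCases (fun y => ?_) (fun e => ?_) x
  · rw [Fin.addCases_left, Fin.append_left]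
    refine Fin.addCases (fun i => ?_) (fun f => ?_) y
    · rw [Fin.addCases_left, Fin.append_left]
      rfl
    · rw [Fin.addCases_right, Fin.append_right]
      rfl
  · rw [Fin.addCases_right, Fin.append_right]
    rfl

/-- the place of a set in the sequence of the sets of `Y` -/
private def K3_iy (a a' b c : ℕ) (x : Fin (a + a' + b + c)) : (Fin a ⊕ Fin a') ⊕ (Fin b ⊕ Fin c) :=
  Fin.addCases (fun y => Fin.addCases (fun z => Fin.addCases (fun i => Sum.inl (Sum.inl i))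
    (fun j => Sum.inl (Sum.inr j)) z) (fun f => Sum.inr (Sum.inl f)) y) (fun e => Sum.inr (Sum.inr e)) x

private theorem K3_iy_inj (a a' b c : ℕ) : Function.Injective (K3_iy a a' b c) := by
  have h : Function.LeftInverse (Sum.elim (Sum.elim (fun i => Fin.castAdd c (Fin.castAdd b (Fin.castAdd a' i)))
      (fun j => Fin.castAdd c (Fin.castAdd b (Fin.natAdd a j))))
      (Sum.elim (fun f => Fin.castAdd c (Fin.natAdd (a + a') f)) (fun e => Fin.natAdd (a + a' + b) e)))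
      (K3_iy a a' b c) := by
    intro x
    unfold K3_iy
    refine Fin.addCases (fun y => ?_) (fun e => ?_) x
    · rw [Fin.addCases_left]
      refine Fin.addCases (fun z => ?_) (fun f => ?_) y
      · rw [Fin.addCases_left]
        refine Fin.addCases (fun i => ?_) (fun j => ?_) z
        · rw [Fin.addCases_left]
          rfl
        · rw [Fin.addCases_right]
          rfl
      · rw [Fin.addCases_right]
        rfl
    · rw [Fin.addCases_right]
      rfl
  exact h.injective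

private theorem K3_famy {a a' b c : ℕ} (A : Fin a → Finset ℕ) (A' : Fin a' → Finset ℕ) (B : Fin b → Finset ℕ)
    (C : Fin c → Finset ℕ) (x : Fin (a + a' + b + c)) :
    Fin.append (Fin.append (Fin.append A A') B) C x =
      Sum.elim (Sum.elim A A') (Sum.elim B C) (K3_iy a a' b c x) := by
  unfold K3_iy
  refine Fin.addCases (fun y => ?_) (fun e => ?_) x
  · rw [Fin.addCases_left, Fin.append_left]
    refine Fin.addCases (fun z => ?_) (fun f => ?_) y
    · rw [Fin.addCases_left, Fin.append_left]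
      refine Fin.addCases (fun i => ?_) (fun j => ?_) z
      · rw [Fin.addCases_left, Fin.append_left]
        rfl
      · rw [Fin.addCases_right, Fin.append_right]
        rfl
    · rw [Fin.addCases_right, Fin.append_right]
      rfl
  · rw [Fin.addCases_right, Fin.append_right]
    rfl

private theorem K3_w (hQ : Q.Ok) (h : Q.Lg3 N) {p : ℕ} {i : ℕ} (hi : i ≤ Q.k)
    (hp : p ∈ Q.WX3 N i ∨ p ∈ Q.WA3 N i ∨ p ∈ Q.WB3 N i) : p.Prime ∧ ¬ p ∣ N ∧ Q.y0 N < p := by
  obtain ⟨h1, h2, h3, -⟩ := w3_ok hQ h hi hp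
  refine ⟨h1, h2, y0_lt hQ h.lg ?_⟩
  refine lt_of_le_of_lt (h.lg.lk.trans ?_) h3
  calc kp N = (kp N) ^ 1 := (pow_one _).symm
    _ ≤ (kp N) ^ 90 := pow_le_pow_right₀ (K3_kp h.lg) (by norm_num)

private theorem K3_nw (hQ : Q.Ok) (h : Q.Lg N) {p : ℕ}
    (hp : (∃ f, p ∈ (Q.sys3 N).FX f) ∨ (∃ f, p ∈ (Q.sys3 N).FY f) ∨ (∃ e, p ∈ (Q.sys3 N).OX e) ∨
      ∃ e, p ∈ (Q.sys3 N).OY e) :
    p.Prime ∧ ¬ p ∣ N ∧ Q.y0 N < p := by
  obtain ⟨h1, h2, h3, h4⟩ := nw3 hQ h hp
  exact ⟨h1, h2, y0_lt hQ h h3⟩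

theorem cmp3 (Q : MPar) (N : ℕ) : T3B.Cmp (Q.sys3 N) (Q.WA N) (Q.WB N) := ⟨fun _ => rfl⟩

theorem sets_ok3 (hQ : Q.Ok) (h : Q.Lg3 N) (W' : ℕ) (hW : ∀ p : ℕ, p.Prime → Q.y0 N < p → ¬ p ∣ W') :
    T3B.SetsOk3 (Q.sys3 N) (Q.WA N) (Q.WB N) (W' * N) (Q.y0 N) := by
  have key : ∀ p : ℕ, (p.Prime ∧ ¬ p ∣ N ∧ Q.y0 N < p) → p.Prime ∧ ¬ p ∣ W' * N ∧ Q.y0 N < p := by
    rintro p ⟨h1, h2, h3⟩
    refine ⟨h1, fun h4 => ?_, h3⟩
    rcases h1.dvd_mul.mp h4 with h5 | h5
    · exact hW p h1 h3 h5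
    · exact h2 h5
  constructor
  · intro c p hp
    apply key
    unfold TCB.famX at hp
    rw [K3_fam] at hp
    revert hp
    rcases K3_ix _ _ _ c with i | f | e
    · intro hp
      exact K3_w hQ h (Nat.lt_succ_iff.mp i.isLt) (Or.inl hp)
    · intro hp
      exact K3_nw hQ h.lg (Or.inl ⟨f, hp⟩)
    · intro hp
      exact K3_nw hQ h.lg (Or.inr (Or.inr (Or.inl ⟨e, hp⟩)))
  · intro c p hp
    apply key
    unfold T3B.famY3 at hp
    rw [K3_famy] at hp
    revert hp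
    rcases K3_iy _ _ _ _ c with (i | i) | f | e
    · intro hp
      exact K3_w hQ h (Nat.lt_succ_iff.mp i.isLt) (Or.inr (Or.inl hp))
    · intro hp
      exact K3_w hQ h (Nat.lt_succ_iff.mp i.isLt) (Or.inr (Or.inr hp))
    · intro hp
      exact K3_nw hQ h.lg (Or.inr (Or.inl ⟨f, hp⟩))
    · intro hp
      exact K3_nw hQ h.lg (Or.inr (Or.inr (Or.inr ⟨e, hp⟩)))
  · intro c c' hc
    unfold TCB.famX
    rw [K3_fam, K3_fam]
    exact sets_x3 hQ h _ _ fun h1 => hc (K3_ix_inj _ _ _ h1)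
  · intro c c' hc
    unfold T3B.famY3
    rw [K3_famy, K3_famy]
    exact sets_y3 hQ h _ _ fun h1 => hc (K3_iy_inj _ _ _ _ h1)

end MPar

end Pool.Agent.Lib.TC
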