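import Pool.Agent.Lib.MP_7b7e48_nt.T3S.R

/-!
# T3S.RY (60 minutes): the density of the family of `Y`

As `R` and `BR3.RY.rhoY_lo`; the windows: `∏_i WA ∏_i WB ≥ (2/K^2)^(2 (k+1)) ≥ K ^ (- 4 (k + 1))` (this is `2 (k+1)` more than in `Cf`), the fixers `(1/(100 l0))^k ≥ 1/K`. `rho (T3B.famY3 ..)` : `Fin.prod_univ_add` three times (see `E2_prod` in `BR/E2.lean`, `R_rhoY`).
-/

set_option autoImplicit false

open Finset

namespace Pool.Agent.Lib.TC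

open Pool.Agent.Lib.TCF (rho)

namespace MPar

variable {Q : MPar} {N : ℕ}

private theorem RY3_append {m n : ℕ} (A : Fin m → Finset ℕ) (B : Fin n → Finset ℕ) : rho (Fin.append A B) = rho A * rho B := by
  unfold rho
  rw [Fin.prod_univ_add]
  congr 1
  · refine prod_congr rfl fun c _ => ?_
    rw [Fin.append_left]
  · refine prod_congr rfl fun c _ => ?_
    rw [Fin.append_right]

private theorem RY3_rho (S : MS) (WA WB : Fin (S.k + 1) → Finset ℕ) :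
    rho (T3B.famY3 S WA WB) = rho WA * rho WB * rho S.FY * rho S.OY := by
  unfold T3B.famY3
  rw [RY3_append, RY3_append, RY3_append]

private theorem RY3_win {K : ℝ} (hK : 1 ≤ K) {m : ℕ} (f : Fin m → ℝ) (hf : ∀ i, 2 / K ^ 2 ≤ f i) : (1 / K ^ 2) ^ m ≤ ∏ i, f i := by
  have hK0 : 0 < K := by linarith
  refine R_const _ (by positivity) f fun i => ?_
  refine le_trans ?_ (hf i)
  gcongr
  norm_num

private theorem RY3_fin {K w z z1 x : ℝ} {c C : ℕ} (hK : 1 ≤ K) (hx : 0 ≤ x) (hz1 : 0 ≤ z1) (hw : 0 ≤ w) (hC : c + 1 ≤ C)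
    (h1 : 1 ≤ K ^ c * (x * z1)) (h2 : 1 ≤ K * w) (h3 : z1 * w ≤ z) : 1 ≤ K ^ C * (x * z) := by
  have hK0 : 0 < K := by linarith
  have h4 : 1 ≤ K ^ c * (x * z1) * (K * w) := by
    calc (1 : ℝ) = 1 * 1 := by norm_num
      _ ≤ _ := mul_le_mul h1 h2 (by norm_num) (by linarith)
  calc (1 : ℝ) ≤ K ^ c * (x * z1) * (K * w) := h4
    _ = K ^ (c + 1) * (x * (z1 * w)) := by ring
    _ ≤ K ^ C * (x * z) := by
      apply mul_le_mul (pow_le_pow_right₀ hK hC) (mul_le_mul_of_nonneg_left h3 hx)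
      · positivity
      · positivity

theorem rhoY3_lo (hQ : Q.Ok) (h : Q.Lg3 N) : 1 ≤ (Real.log N) ^ Q.Cf3 * rho (T3B.famY3 (Q.sys3 N) (Q.WA N) (Q.WB N)) := by
  obtain ⟨hL, hK, ha, hn0, hnr, hl⟩ := R_base hQ h.lg
  have hK1 : (1 : ℝ) ≤ Real.log N := by linarith
  have hK0 : (0 : ℝ) < Real.log N := by linarith
  have hk : (0 : ℝ) ≤ Q.k := Nat.cast_nonneg _
  have hl0 : 0 < Q.l0 N := by linarith
  have ha0 : 0 < 1.1 * (Q.G : ℝ) := by linarith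
  rw [RY3_rho]
  have hA : (1 / Real.log N ^ 2) ^ (Q.k + 1) ≤ rho (Q.WA N) :=
    RY3_win hK1 (fun i : Fin (Q.k + 1) => ∑ p ∈ Q.WA3 N i, 1 / (p : ℝ)) fun i => h.wa i (by omega)
  have hB : (1 / Real.log N ^ 2) ^ (Q.k + 1) ≤ rho (Q.WB N) :=
    RY3_win hK1 (fun i : Fin (Q.k + 1) => ∑ p ∈ Q.WB3 N i, 1 / (p : ℝ)) fun i => h.wb i (by omega)
  have hA0 : 0 ≤ (1 / Real.log N ^ 2) ^ (Q.k + 1) := by positivity
  have hAB : (1 / Real.log N ^ 2) ^ (2 * (Q.k + 1)) ≤ rho (Q.WA N) * rho (Q.WB N) := by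
    calc (1 / Real.log N ^ 2) ^ (2 * (Q.k + 1)) = (1 / Real.log N ^ 2) ^ (Q.k + 1) * (1 / Real.log N ^ 2) ^ (Q.k + 1) := by
          rw [two_mul, pow_add]
      _ ≤ _ := mul_le_mul hA hB hA0 (hA0.trans hA)
  have hF : (1 / (1.1 * (Q.G : ℝ))) ^ (Q.n0 N) ≤ rho (Q.sys3 N).FY :=
    R_const (m := Q.n0 N) _ (by positivity) (fun f : Fin (Q.n0 N) => ∑ p ∈ Q.FXs N f, 1 / (p : ℝ)) fun f => mFX hQ h.lg f.2
  have hO : (1 / (5 * Q.l0 N)) ^ (Q.k * Q.np N) * (1 / (1.1 * (Q.G : ℝ))) ^ Q.k * (1 / (100 * Q.l0 N)) ^ Q.k ≤ rho (Q.sys3 N).OY := by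
    have h1 : ∏ e : Fin (Q.k * (Q.np N + 2)), ∑ p ∈ Q.OY3 N ((e : ℕ) / (Q.np N + 2)) ((e : ℕ) % (Q.np N + 2)), 1 / (p : ℝ) =
        ∏ i ∈ range Q.k, ∏ t ∈ range (Q.np N + 2), ∑ p ∈ Q.OY3 N i t, 1 / (p : ℝ) :=
      R_prod Q.k (Q.np N + 2) (fun i t => ∑ p ∈ Q.OY3 N i t, 1 / (p : ℝ))
    have h2 : (1 / (5 * Q.l0 N)) ^ (Q.k * Q.np N) * (1 / (1.1 * (Q.G : ℝ))) ^ Q.k * (1 / (100 * Q.l0 N)) ^ Q.k ≤
        ∏ i ∈ range Q.k, ∏ t ∈ range (Q.np N + 2), ∑ p ∈ Q.OY3 N i t, 1 / (p : ℝ) := by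
      calc (1 / (5 * Q.l0 N)) ^ (Q.k * Q.np N) * (1 / (1.1 * (Q.G : ℝ))) ^ Q.k * (1 / (100 * Q.l0 N)) ^ Q.k
          = ∏ _i ∈ range Q.k, ((1 / (5 * Q.l0 N)) ^ (Q.np N) * (1 / (1.1 * (Q.G : ℝ))) * (1 / (100 * Q.l0 N))) := by
            rw [prod_const, card_range, mul_pow, mul_pow, ← pow_mul, mul_comm (Q.np N)]
        _ ≤ _ := by
            refine prod_le_prod (fun i _ => by positivity) fun i hi => ?_
            rw [mem_range] at hi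
            rw [Finset.prod_range_succ, Finset.prod_range_succ]
            have h3 : (1 / (5 * Q.l0 N)) ^ (Q.np N) ≤ ∏ t ∈ range (Q.np N), ∑ p ∈ Q.OY3 N i t, 1 / (p : ℝ) := by
              calc (1 / (5 * Q.l0 N)) ^ (Q.np N) = ∏ _t ∈ range (Q.np N), (1 / (5 * Q.l0 N)) := by
                    rw [prod_const, card_range]
                _ ≤ _ := prod_le_prod (fun _ _ => by positivity) fun t ht => by
                    rw [mem_range] at ht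
                    exact (yi_mass hQ h hi).1 ht
            have h4 : 1 / (1.1 * (Q.G : ℝ)) ≤ ∑ p ∈ Q.OY3 N i (Q.np N), 1 / (p : ℝ) := (yi_mass hQ h hi).2.1 rfl
            have h5 : 1 / (100 * Q.l0 N) ≤ ∑ p ∈ Q.OY3 N i (Q.np N + 1), 1 / (p : ℝ) :=
              (yi_mass hQ h hi).2.2 (Nat.lt_succ_self _)
            have h6 : (0 : ℝ) ≤ (1 / (5 * Q.l0 N)) ^ (Q.np N) := by positivity
            have h7 : (0 : ℝ) ≤ 1 / (1.1 * (Q.G : ℝ)) := by positivity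
            exact mul_le_mul (mul_le_mul h3 h4 h7 (h6.trans h3)) h5 (by positivity)
              (mul_nonneg (h6.trans h3) (h7.trans h4))
    exact h2.trans (le_of_eq h1.symm)
  have hw : 1 ≤ Real.log N * (1 / (100 * Q.l0 N)) ^ Q.k := by
    have h1 : (1 : ℝ) ≤ 100 * Q.l0 N := by linarith
    have h2 : (100 * Q.l0 N) ^ Q.k ≤ (100 * Q.l0 N) ^ (3 * Q.k) := pow_le_pow_right₀ h1 (by omega)
    have h3 := h2.trans h.fp
    rw [one_div_pow, mul_one_div, le_div_iff₀ (by positivity), one_mul]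
    exact h3
  have hmain := R_fin (K := Real.log N) (a := 1.1 * Q.G) (b := 5 * Q.l0 N) (m := 2 * (Q.k + 1)) (n1 := Q.n0 N) (n2 := Q.k)
    (s := Q.k * Q.np N) (c := ⌈((Q.la : ℝ) / 4 + 5 * Q.k) * Real.log (1.1 * Q.G)⌉₊) hK1 ha hl (R_pow ha hK1 (by
      push_cast
      have h2 : (Q.k : ℝ) * 1 ≤ Q.k * Real.log (Real.log N) := mul_le_mul_of_nonneg_left hL hk
      nlinarith)) h.lg.ppd hAB hF (le_refl _)
  refine RY3_fin hK1 ?_ (by positivity) (by positivity) ?_ hmain hw hO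
  · exact mul_nonneg ((by positivity : (0 : ℝ) ≤ (1 / Real.log N ^ 2) ^ (2 * (Q.k + 1))).trans hAB)
      ((by positivity : (0 : ℝ) ≤ (1 / (1.1 * (Q.G : ℝ))) ^ (Q.n0 N)).trans hF)
  · unfold Cf3 Cf
    omega

end MPar

end Pool.Agent.Lib.TC
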