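import Pool.Agent.Lib.MP_7b7e48_nt.BR3.WO
import Pool.Agent.Lib.MP_7b7e48_nt.BR3.WC
import Pool.Agent.Lib.MP_7b7e48_nt.T3S.RY
import Pool.Agent.Lib.MP_7b7e48_nt.T3S.K
import Pool.Agent.Lib.MP_7b7e48_nt.T3S.J2
import Pool.Agent.Lib.MP_7b7e48_nt.T3B.E4

/-!
# T3S.WC (50 minutes): the number of the tuples, the sums over the tuples

`card_xy3`, `size_xy3`: copies of `BR3.WC.card_xy`, `BR3.WO.size_xy` (`small_x3`, `small_y3`; `(sets_ok3 ..).injX`, `.injY cmp3`, `.sqX`, `.sqY cmp3` of `T3B/E4.lean`).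
`prX3_lo`: `sum_prX` (`BR3/WO.lean`, for every system), `rhoX3_lo`. `prY3_lo`: the sum is `rho (famY3)` : `(sets_ok3 ..).rhoY cmp3` gives `rho (famY3 ..) = ∑_ν 1 / prY id ν`, and `1 / prY id ν = prY (1/·) ν` (products); then `rhoY3_lo`.
-/

set_option autoImplicit false

open Finset Filter

namespace Pool.Agent.Lib.TC

namespace MPar

variable {Q : MPar} {N : ℕ}

private theorem WC3_card {α : Type*} {s : Finset α} {F : α → ℕ} (hF : Set.InjOn F s) (hpos : ∀ a ∈ s, 0 < F a) {x : ℝ} (hx : 0 ≤ x)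
    (h : ∀ a ∈ s, (F a : ℝ) ≤ x) : (s.card : ℝ) ≤ x := by
  classical
  have h1 : s.image F ⊆ Ioc 0 ⌊x⌋₊ := by
    intro n hn
    obtain ⟨a, ha, rfl⟩ := mem_image.1 hn
    rw [mem_Ioc]
    exact ⟨hpos a ha, Nat.le_floor (h a ha)⟩
  have h2 := card_le_card h1
  rw [card_image_of_injOn hF, Nat.card_Ioc, Nat.sub_zero] at h2
  calc (s.card : ℝ) ≤ (⌊x⌋₊ : ℝ) := by exact_mod_cast h2
    _ ≤ x := Nat.floor_le hx

private theorem WC3_ok (hQ : Q.Ok) (h : Q.Lg3 N) : T3B.SetsOk3 (Q.sys3 N) (Q.WA N) (Q.WB N) (1 * N) (Q.y0 N) :=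
  sets_ok3 hQ h 1 (fun p hp _ hd => by
    have := Nat.le_of_dvd one_pos hd
    have := hp.one_lt
    omega)

private theorem WC3_inv (S : MS) (ν : S.TY) : S.prY (fun l => 1 / (l : ℝ)) ν = 1 / ((S.prY id ν : ℕ) : ℝ) := by
  unfold MS.prY
  rw [prod_div_distrib, prod_div_distrib, prod_div_distrib, prod_const_one, prod_const_one, prod_const_one]
  push_cast
  simp only [id]
  rw [div_mul_div_comm, div_mul_div_comm, one_mul, one_mul]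

theorem size_xy3 (hQ : Q.Ok) (h : Q.Lg3 N) {μ : (Q.sys3 N).TX} (hμ : μ ∈ (Q.sys3 N).MX) {ν : (Q.sys3 N).TY} (hν : ν ∈ (Q.sys3 N).MY) :
    (((Q.sys3 N).prX id μ * (Q.sys3 N).prY id ν : ℕ) : ℝ) ≤ (N : ℝ) ^ (8 * ((Q.k : ℝ) + 1) * Q.e1) := by
  have hN : (0 : ℝ) < N := by
    have := h.lg.N1
    exact_mod_cast (by omega : 0 < N)
  have h1 := small_x3 hQ h hμ
  have h2 := small_y3 hQ h hν
  rw [Nat.cast_mul]
  calc (((Q.sys3 N).prX id μ : ℕ) : ℝ) * (((Q.sys3 N).prY id ν : ℕ) : ℝ) ≤ (N : ℝ) ^ (4 * ((Q.k : ℝ) + 1) * Q.e1) * (N : ℝ) ^ (4 * ((Q.k : ℝ) + 1) * Q.e1) :=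
        mul_le_mul h1 h2 (Nat.cast_nonneg _) (Real.rpow_nonneg hN.le _)
    _ = _ := by rw [← Real.rpow_add hN]; congr 1; ring

theorem card_xy3 (hQ : Q.Ok) (h : Q.Lg3 N) : ((Q.sys3 N).MX.card : ℝ) * (Q.sys3 N).MY.card ≤ (N : ℝ) ^ (8 * ((Q.k : ℝ) + 1) * Q.e1) := by
  have hN : (0 : ℝ) < N := by
    have := h.lg.N1
    exact_mod_cast (by omega : 0 < N)
  have hs := WC3_ok hQ h
  have hc := cmp3 Q N
  have h1 : ((Q.sys3 N).MX.card : ℝ) ≤ (N : ℝ) ^ (4 * ((Q.k : ℝ) + 1) * Q.e1) :=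
    WC3_card (F := fun μ => (Q.sys3 N).prX id μ) (fun μ hμ μ' hμ' he => hs.injX hμ hμ' he)
      (fun μ hμ => (hs.sqX hμ).ne_zero.bot_lt) (Real.rpow_nonneg hN.le _) (fun μ hμ => small_x3 hQ h hμ)
  have h2 : ((Q.sys3 N).MY.card : ℝ) ≤ (N : ℝ) ^ (4 * ((Q.k : ℝ) + 1) * Q.e1) :=
    WC3_card (F := fun ν => (Q.sys3 N).prY id ν) (fun ν hν ν' hν' he => hs.injY hc hν hν' he)
      (fun ν hν => (hs.sqY hc hν).ne_zero.bot_lt) (Real.rpow_nonneg hN.le _) (fun ν hν => small_y3 hQ h hν)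
  calc ((Q.sys3 N).MX.card : ℝ) * (Q.sys3 N).MY.card ≤ (N : ℝ) ^ (4 * ((Q.k : ℝ) + 1) * Q.e1) * (N : ℝ) ^ (4 * ((Q.k : ℝ) + 1) * Q.e1) :=
        mul_le_mul h1 h2 (Nat.cast_nonneg _) (Real.rpow_nonneg hN.le _)
    _ = _ := by rw [← Real.rpow_add hN]; congr 1; ring

theorem prX3_lo (hQ : Q.Ok) (h : Q.Lg3 N) : 1 / (Real.log N) ^ Q.Cf3 ≤ ∑ μ ∈ (Q.sys3 N).MX, (Q.sys3 N).prX (fun l => 1 / (l : ℝ)) μ := by
  have hK : 0 < (Real.log N) ^ Q.Cf3 := by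
    have := h.lg.K1
    positivity
  rw [sum_prX, div_le_iff₀ hK, mul_comm]
  exact rhoX3_lo hQ h

theorem prY3_lo (hQ : Q.Ok) (h : Q.Lg3 N) : 1 / (Real.log N) ^ Q.Cf3 ≤ ∑ ν ∈ (Q.sys3 N).MY, (Q.sys3 N).prY (fun l => 1 / (l : ℝ)) ν := by
  have hK : 0 < (Real.log N) ^ Q.Cf3 := by
    have := h.lg.K1
    positivity
  have h1 : ∑ ν ∈ (Q.sys3 N).MY, (Q.sys3 N).prY (fun l => 1 / (l : ℝ)) ν = TCF.rho (T3B.famY3 (Q.sys3 N) (Q.WA N) (Q.WB N)) := by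
    rw [(WC3_ok hQ h).rhoY (cmp3 Q N)]
    exact sum_congr rfl fun ν _ => WC3_inv _ ν
  rw [h1, div_le_iff₀ hK, mul_comm]
  exact rhoY3_lo hQ h

end MPar

end Pool.Agent.Lib.TC
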