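import Pool.Agent.Lib.MP_7b7e48_nt.BR3.T
import Pool.Agent.Lib.MP_7b7e48_nt.T3S.FL
import Pool.Agent.Lib.MP_7b7e48_nt.T3B.E0

/-!
# T3S.T (50 minutes): every set has mass at most 1

Windows: `(a, a + Z]` with `Z ≤ a`: at most `Z` elements, each `1/p ≤ 1/a` (private lemma `T_win` of `BR3/T.lean`): `(3 Z3, 4 Z3]`, `(3 V, 4 V]`, `(2 V, 3 V]`. Free sets and old marks: `BR3.T.fam_upX`, `fam_upY` for the old system (choose the index: `FX f` = `famX (sys N) (castAdd (natAdd f))`,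
`OX3 i t = OXs i t = (sys N).OX ⟨i nit + t, _⟩`), or the private lemmas there. Fixers: subsets of `PR s (s + 1/4)`, `s ≥ 3/2 l0`: `mup`: `log ((s + 1/4)/s) + 1/10 ≤ 1`.
-/

set_option autoImplicit false

open Finset

namespace Pool.Agent.Lib.TC

open Pool.Agent.Lib.TCB (famX)

namespace MPar

variable {Q : MPar} {N : ℕ}

private theorem T3_win (a Z : ℕ) (hZ : Z ≤ a) (P : ℕ → Prop) [DecidablePred P] :
    ∑ p ∈ (Ioc a (a + Z)).filter P, 1 / (p : ℝ) ≤ 1 := by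
  rcases Nat.eq_zero_or_pos Z with h0 | h0
  · rw [h0, Nat.add_zero, Finset.Ioc_self, Finset.filter_empty, Finset.sum_empty]
    norm_num
  · have hZ0 : (0 : ℝ) < Z := by exact_mod_cast h0
    have h1 : ∀ p ∈ (Ioc a (a + Z)).filter P, 1 / (p : ℝ) ≤ 1 / Z := by
      intro p hp
      have h2 := (mem_Ioc.mp (mem_filter.mp hp).1).1
      exact one_div_le_one_div_of_le hZ0 (by exact_mod_cast (by omega : Z ≤ p))
    have h3 : (((Ioc a (a + Z)).filter P).card : ℝ) ≤ Z := by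
      have h4 := Finset.card_filter_le (Ioc a (a + Z)) P
      rw [Nat.card_Ioc, Nat.add_sub_cancel_left] at h4
      exact_mod_cast h4
    calc ∑ p ∈ (Ioc a (a + Z)).filter P, 1 / (p : ℝ) ≤ ∑ _p ∈ (Ioc a (a + Z)).filter P, 1 / (Z : ℝ) := Finset.sum_le_sum h1
      _ = (((Ioc a (a + Z)).filter P).card : ℝ) * (1 / Z) := by rw [Finset.sum_const, nsmul_eq_mul]
      _ ≤ Z * (1 / Z) := mul_le_mul_of_nonneg_right h3 (by positivity)
      _ = 1 := mul_one_div_cancel hZ0.ne'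

private theorem T3_pw (M x Z q a : ℕ) (hx : 1 ≤ x) : ∑ p ∈ pw M x Z q a, 1 / (p : ℝ) ≤ 1 := by
  unfold pw
  rw [Nat.add_mul, Nat.one_mul]
  exact T3_win _ _ (Nat.le_mul_of_pos_left Z hx) _

private theorem T3_l0 (h : Q.Lg N) : (10 : ℝ) ^ 6 ≤ Q.l0 N := by
  have h2 : (1 : ℝ) ≤ (Q.k + 1) ^ 4 := by
    have h3 : (1 : ℝ) ≤ (Q.k : ℝ) + 1 := by
      have : (0 : ℝ) ≤ Q.k := Nat.cast_nonneg _
      linarith
    exact one_le_pow₀ h3
  refine le_trans ?_ h.lb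
  have h3 : (10 : ℝ) ^ 6 * 1 ≤ (10 : ℝ) ^ 6 * (Q.k + 1) ^ 4 := mul_le_mul_of_nonneg_left h2 (by norm_num)
  linarith

private theorem T3_pr (h : Q.Lg N) {s t : ℝ} (hs : Q.l0 N ≤ s) (hst : s ≤ t) (ht : t ≤ 2 * s) {I : Finset ℕ} (hI : I ⊆ Pool.Agent.Lib.OW.PR s t) :
    ∑ p ∈ I, 1 / (p : ℝ) ≤ 1 := by
  have hl := T3_l0 h
  have hs0 : 0 < s := by linarith
  refine (Finset.sum_le_sum_of_subset_of_nonneg hI fun _ _ _ => by positivity).trans ((h.mup s t hs hst).trans ?_)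
  have h1 : Real.log (t / s) ≤ Real.log 2 := by
    refine Real.log_le_log (div_pos (by linarith) hs0) ?_
    rw [div_le_iff₀ hs0]
    exact ht
  have h2 := Real.log_two_lt_d9
  linarith

private theorem T3_fx (hQ : Q.Ok) (h : Q.Lg N) (f : Fin (Q.sys N).n0) : ∑ p ∈ Q.FXs N f, 1 / (p : ℝ) ≤ 1 := by
  have h1 := fam_upX hQ h (Fin.castAdd (Q.sys N).nX (Fin.natAdd ((Q.sys N).k + 1) f))
  unfold famX at h1
  rw [Fin.append_left, Fin.append_right] at h1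
  exact h1

private theorem T3_idx {k n i t : ℕ} (hi : i < k) (ht : t < n) : i * n + t < k * n := by
  calc i * n + t < i * n + n := by omega
    _ = (i + 1) * n := by ring
    _ ≤ k * n := Nat.mul_le_mul_right n hi

private theorem T3_dm {n i t : ℕ} (ht : t < n) : (i * n + t) / n = i ∧ (i * n + t) % n = t := by
  constructor
  · rw [Nat.mul_comm, Nat.mul_add_div (by omega), Nat.div_eq_of_lt ht, Nat.add_zero]
  · rw [Nat.mul_comm, Nat.mul_add_mod, Nat.mod_eq_of_lt ht]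

private theorem T3_ox (hQ : Q.Ok) (h : Q.Lg N) {i t : ℕ} (hi : i < Q.k) (ht : t < Q.nit N) :
    ∑ p ∈ Q.OXs N i t, 1 / (p : ℝ) ≤ 1 := by
  have h1 := fam_upX hQ h (Fin.natAdd ((Q.sys N).k + 1 + (Q.sys N).n0) (⟨i * Q.nit N + t, T3_idx hi ht⟩ : Fin (Q.sys N).nX))
  unfold famX at h1
  rw [Fin.append_right] at h1
  change ∑ p ∈ Q.OXs N ((i * Q.nit N + t) / Q.nit N) ((i * Q.nit N + t) % Q.nit N), 1 / (p : ℝ) ≤ 1 at h1
  rw [(T3_dm ht).1, (T3_dm ht).2] at h1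
  exact h1

private theorem T3_oy (hQ : Q.Ok) (h : Q.Lg N) {i t : ℕ} (hi : i < Q.k) (ht : t < Q.np N + 1) :
    ∑ p ∈ Q.OYs N i t, 1 / (p : ℝ) ≤ 1 := by
  have h1 := fam_upY hQ h (Fin.natAdd ((Q.sys N).k + 1 + (Q.sys N).n0) (⟨i * (Q.np N + 1) + t, T3_idx hi ht⟩ : Fin (Q.sys N).nY))
  unfold TCB.famY at h1
  rw [Fin.append_right] at h1
  change ∑ p ∈ Q.OYs N ((i * (Q.np N + 1) + t) / (Q.np N + 1)) ((i * (Q.np N + 1) + t) % (Q.np N + 1)), 1 / (p : ℝ) ≤ 1 at h1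
  rw [(T3_dm ht).1, (T3_dm ht).2] at h1
  exact h1

private theorem T3_div {k n e : ℕ} (he : e < k * n) : e / n < k := by
  refine Nat.div_lt_of_lt_mul ?_
  rwa [Nat.mul_comm]

private theorem T3_ox3 (hQ : Q.Ok) (h : Q.Lg N) {i t : ℕ} (hi : i < Q.k) : ∑ p ∈ Q.OX3 N i t, 1 / (p : ℝ) ≤ 1 := by
  have hl := T3_l0 h
  have hi0 : (0 : ℝ) ≤ i := Nat.cast_nonneg i
  unfold OX3
  split_ifs with h1 h2
  · exact T3_ox hQ h hi h1
  · unfold U1
    refine T3_pr h (s := 3 / 2 * Q.l0 N + i) (t := 3 / 2 * Q.l0 N + i + 1 / 4) ?_ ?_ ?_ (Finset.filter_subset _ _)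
    · linarith
    · linarith
    · linarith
  · unfold U2
    refine T3_pr h (s := 3 / 2 * Q.l0 N + i + 1 / 2) (t := 3 / 2 * Q.l0 N + i + 3 / 4) ?_ ?_ ?_ (Finset.filter_subset _ _)
    · linarith
    · linarith
    · linarith

private theorem T3_oy3 (hQ : Q.Ok) (h : Q.Lg N) {i t : ℕ} (hi : i < Q.k) : ∑ p ∈ Q.OY3 N i t, 1 / (p : ℝ) ≤ 1 := by
  have hl := T3_l0 h
  have hi0 : (0 : ℝ) ≤ i := Nat.cast_nonneg i
  unfold OY3
  split_ifs with h1
  · exact T3_oy hQ h hi h1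
  · unfold U3
    refine T3_pr h (s := 3 * Q.l0 N + 2 * i + 1 / 4) (t := 3 * Q.l0 N + 2 * i + 1 / 2) ?_ ?_ ?_ (Finset.filter_subset _ _)
    · linarith
    · linarith
    · linarith

theorem up_x3 (hQ : Q.Ok) (h : Q.Lg3 N) (c) : ∑ p ∈ famX (Q.sys3 N) c, 1 / (p : ℝ) ≤ 1 := by
  unfold famX
  refine Fin.addCases (fun c => ?_) (fun c => ?_) c
  · rw [Fin.append_left]
    refine Fin.addCases (fun c => ?_) (fun c => ?_) c
    · rw [Fin.append_left]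
      exact T3_pw N 3 (Q.Z3 N c) (Q.W ^ 2) 1 (by norm_num)
    · rw [Fin.append_right]
      exact T3_fx hQ h.lg c
  · rw [Fin.append_right]
    exact T3_ox3 hQ h.lg (T3_div c.2)

theorem up_y3 (hQ : Q.Ok) (h : Q.Lg3 N) (c) : ∑ p ∈ T3B.famY3 (Q.sys3 N) (Q.WA N) (Q.WB N) c, 1 / (p : ℝ) ≤ 1 := by
  unfold T3B.famY3
  refine Fin.addCases (fun c => ?_) (fun c => ?_) c
  · rw [Fin.append_left]
    refine Fin.addCases (fun c => ?_) (fun c => ?_) c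
    · rw [Fin.append_left]
      refine Fin.addCases (fun c => ?_) (fun c => ?_) c
      · rw [Fin.append_left]
        exact T3_pw N 3 (Q.V N c) (Q.W ^ 2) 1 (by norm_num)
      · rw [Fin.append_right]
        exact T3_pw N 2 (Q.V N c) (Q.W ^ 2) (Q.b c) (by norm_num)
    · rw [Fin.append_right]
      exact T3_fx hQ h.lg c
  · rw [Fin.append_right]
    exact T3_oy3 hQ h.lg (T3_div c.2)

end MPar

end Pool.Agent.Lib.TC
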