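import Pool.Agent.Lib.MP_7b7e48_nt.BR3.TT
import Pool.Agent.Lib.MP_7b7e48_nt.T3S.T
import Pool.Agent.Lib.MP_7b7e48_nt.T3S.K

/-!
# T3S.TT (50 minutes): the total mass

As `BR3/TT.lean` (copy `TT_core`; for `Y` the windows are `Fin.append WA WB : Fin (k + 1 + (k + 1))`): `∏ (1 + V_c) ≤ exp (number of windows) exp (∑_{p ∈ PR 0 (κ^80)} 1/p) ≤ exp (2 (k+1)) κ ^ 90 ≤ κ ^ 91 ≤ K` (`up_x3`, `up_y3` for the windows; `nw3`, `sets_x3`, `sets_y3`; `mer`; `k00 : exp (4 (k+1)) ≤ κ`).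
-/

set_option autoImplicit false

open Finset

namespace Pool.Agent.Lib.TC

open Pool.Agent.Lib.TCB (famX)

namespace MPar

variable {Q : MPar} {N : ℕ}

private theorem T3TT_core {a n m : ℕ} (W : Fin a → Finset ℕ) (F : Fin n → Finset ℕ) (O : Fin m → Finset ℕ) (P : Finset ℕ)
    (hw : ∀ c, ∑ p ∈ W c, 1 / (p : ℝ) ≤ 1)
    (hd : ∀ x y : Fin n ⊕ Fin m, x ≠ y → Disjoint (Sum.elim F O x) (Sum.elim F O y)) (hs : ∀ x, Sum.elim F O x ⊆ P) :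
    ∏ c, (1 + ∑ p ∈ (Fin.append (Fin.append W F) O : Fin (a + n + m) → Finset ℕ) c, 1 / (p : ℝ)) ≤
      Real.exp a * Real.exp (∑ p ∈ P, 1 / (p : ℝ)) := by
  have h0 : ∀ S : Finset ℕ, 0 ≤ ∑ p ∈ S, 1 / (p : ℝ) := fun S => sum_nonneg fun p _ => by positivity
  have h1 : ∀ S : Finset ℕ, 1 + ∑ p ∈ S, 1 / (p : ℝ) ≤ Real.exp (∑ p ∈ S, 1 / (p : ℝ)) := fun S => by
    have := Real.add_one_le_exp (∑ p ∈ S, 1 / (p : ℝ))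
    linarith
  have e1 : ∏ c, (1 + ∑ p ∈ (Fin.append (Fin.append W F) O : Fin (a + n + m) → Finset ℕ) c, 1 / (p : ℝ)) =
      (∏ c, (1 + ∑ p ∈ W c, 1 / (p : ℝ))) * (∏ c, (1 + ∑ p ∈ F c, 1 / (p : ℝ))) * ∏ c, (1 + ∑ p ∈ O c, 1 / (p : ℝ)) := by
    rw [Fin.prod_univ_add]
    congr 1
    · rw [Fin.prod_univ_add]
      congr 1
      · refine prod_congr rfl fun c _ => ?_
        rw [Fin.append_left, Fin.append_left]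
      · refine prod_congr rfl fun c _ => ?_
        rw [Fin.append_left, Fin.append_right]
    · refine prod_congr rfl fun c _ => ?_
      rw [Fin.append_right]
  have w1 : ∏ c, (1 + ∑ p ∈ W c, 1 / (p : ℝ)) ≤ Real.exp a := by
    calc ∏ c, (1 + ∑ p ∈ W c, 1 / (p : ℝ)) ≤ ∏ _c : Fin a, Real.exp 1 :=
          prod_le_prod (fun c _ => by have := h0 (W c); linarith) fun c _ => (h1 _).trans (Real.exp_le_exp.2 (hw c))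
      _ = Real.exp a := by
          rw [prod_const, card_univ, Fintype.card_fin, ← Real.exp_nat_mul, mul_one]
  have f1 : ∏ c, (1 + ∑ p ∈ F c, 1 / (p : ℝ)) ≤ Real.exp (∑ c, ∑ p ∈ F c, 1 / (p : ℝ)) := by
    rw [Real.exp_sum]
    exact prod_le_prod (fun c _ => by have := h0 (F c); linarith) fun c _ => h1 _
  have f2 : ∏ c, (1 + ∑ p ∈ O c, 1 / (p : ℝ)) ≤ Real.exp (∑ c, ∑ p ∈ O c, 1 / (p : ℝ)) := by
    rw [Real.exp_sum]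
    exact prod_le_prod (fun c _ => by have := h0 (O c); linarith) fun c _ => h1 _
  have s1 : (∑ c, ∑ p ∈ F c, 1 / (p : ℝ)) + ∑ c, ∑ p ∈ O c, 1 / (p : ℝ) ≤ ∑ p ∈ P, 1 / (p : ℝ) := by
    have h2 : (∑ c, ∑ p ∈ F c, 1 / (p : ℝ)) + ∑ c, ∑ p ∈ O c, 1 / (p : ℝ) =
        ∑ x : Fin n ⊕ Fin m, ∑ p ∈ Sum.elim F O x, 1 / (p : ℝ) := by
      rw [Fintype.sum_sum_type]
      rfl
    have h3 : ∑ x : Fin n ⊕ Fin m, ∑ p ∈ Sum.elim F O x, 1 / (p : ℝ) =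
        ∑ p ∈ (univ : Finset (Fin n ⊕ Fin m)).biUnion (Sum.elim F O), 1 / (p : ℝ) := by
      rw [sum_biUnion]
      intro x _ y _ hxy
      exact hd x y hxy
    rw [h2, h3]
    refine sum_le_sum_of_subset_of_nonneg ?_ fun p _ _ => by positivity
    intro p hp
    obtain ⟨x, -, hx⟩ := mem_biUnion.1 hp
    exact hs x hx
  have p0 : 0 ≤ ∏ c, (1 + ∑ p ∈ O c, 1 / (p : ℝ)) := prod_nonneg fun c _ => by have := h0 (O c); linarith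
  have p1 : 0 ≤ ∏ c, (1 + ∑ p ∈ F c, 1 / (p : ℝ)) := prod_nonneg fun c _ => by have := h0 (F c); linarith
  rw [e1]
  calc (∏ c, (1 + ∑ p ∈ W c, 1 / (p : ℝ))) * (∏ c, (1 + ∑ p ∈ F c, 1 / (p : ℝ))) * ∏ c, (1 + ∑ p ∈ O c, 1 / (p : ℝ)) =
        (∏ c, (1 + ∑ p ∈ W c, 1 / (p : ℝ))) * ((∏ c, (1 + ∑ p ∈ F c, 1 / (p : ℝ))) * ∏ c, (1 + ∑ p ∈ O c, 1 / (p : ℝ))) :=
        mul_assoc _ _ _
    _ ≤ Real.exp a * (Real.exp (∑ c, ∑ p ∈ F c, 1 / (p : ℝ)) * Real.exp (∑ c, ∑ p ∈ O c, 1 / (p : ℝ))) :=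
        mul_le_mul w1 (mul_le_mul f1 f2 p0 (Real.exp_pos _).le) (mul_nonneg p1 p0) (Real.exp_pos _).le
    _ = Real.exp a * Real.exp ((∑ c, ∑ p ∈ F c, 1 / (p : ℝ)) + ∑ c, ∑ p ∈ O c, 1 / (p : ℝ)) := by rw [Real.exp_add]
    _ ≤ Real.exp a * Real.exp (∑ p ∈ P, 1 / (p : ℝ)) :=
        mul_le_mul_of_nonneg_left (Real.exp_le_exp.2 s1) (Real.exp_pos _).le

private theorem T3TT_kp (h : Q.Lg N) : (10 : ℝ) ^ 10 ≤ kp N := by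
  have h1 := h.k0
  have h2 : (1 : ℝ) ≤ (Q.k + 1) ^ 4 := by
    have : (1 : ℝ) ≤ (Q.k : ℝ) + 1 := by
      have : (0 : ℝ) ≤ Q.k := Nat.cast_nonneg _
      linarith
    exact one_le_pow₀ this
  have h3 : (10 : ℝ) ^ 10 * 1 ≤ (10 : ℝ) ^ 10 * (Q.k + 1) ^ 4 :=
    mul_le_mul_of_nonneg_left h2 (by norm_num)
  linarith

private theorem T3TT_fin (h : Q.Lg N) {a : ℕ} (ha : a ≤ 2 * (Q.k + 1)) : Real.exp (a : ℝ) *
    Real.exp (∑ p ∈ Pool.Agent.Lib.OW.PR 0 ((kp N) ^ 80), 1 / (p : ℝ)) ≤ Real.log N := by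
  have hκ := T3TT_kp h
  have hκ1 : (1 : ℝ) ≤ kp N := le_trans (by norm_num) hκ
  have hκ0 : (0 : ℝ) < kp N := by linarith
  have ha' : (a : ℝ) ≤ 2 * ((Q.k : ℝ) + 1) := by exact_mod_cast ha
  have h1 : Real.exp (a : ℝ) ≤ kp N := by
    refine le_trans (Real.exp_le_exp.2 ?_) h.k00
    have : (0 : ℝ) ≤ Q.k := Nat.cast_nonneg _
    linarith
  have h2 : Real.exp (∑ p ∈ Pool.Agent.Lib.OW.PR 0 ((kp N) ^ 80), 1 / (p : ℝ)) ≤ kp N ^ 90 := by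
    refine (Real.exp_le_exp.2 h.mer).trans ?_
    rw [mul_comm, Real.exp_mul, Real.exp_log hκ0]
    have : kp N ^ (90 : ℝ) = kp N ^ (90 : ℕ) := by
      rw [← Real.rpow_natCast]
      norm_num
    rw [this]
  rw [← h.Kk]
  calc Real.exp (a : ℝ) * Real.exp (∑ p ∈ Pool.Agent.Lib.OW.PR 0 ((kp N) ^ 80), 1 / (p : ℝ)) ≤ kp N * kp N ^ 90 :=
        mul_le_mul h1 h2 (Real.exp_pos _).le hκ0.le
    _ = kp N ^ 91 := by ring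
    _ ≤ kp N ^ 100 := pow_le_pow_right₀ hκ1 (by norm_num)

private theorem T3TT_PR (hQ : Q.Ok) (h : Q.Lg N) {p : ℕ}
    (hp : (∃ f, p ∈ (Q.sys3 N).FX f) ∨ (∃ f, p ∈ (Q.sys3 N).FY f) ∨ (∃ e, p ∈ (Q.sys3 N).OX e) ∨ ∃ e, p ∈ (Q.sys3 N).OY e) :
    p ∈ Pool.Agent.Lib.OW.PR 0 ((kp N) ^ 80) := by
  have h1 := nw3 hQ h hp
  refine (Pool.Agent.Lib.OW.mem_PR_log h1.1).2 ⟨?_, h1.2.2.2⟩
  have h2 := h.lb
  have h3 : (0 : ℝ) ≤ (10 : ℝ) ^ 6 * (Q.k + 1) ^ 4 := by positivity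
  linarith [h1.2.2.1]

theorem tot_x3 (hQ : Q.Ok) (h : Q.Lg3 N) : ∏ c, (1 + ∑ p ∈ famX (Q.sys3 N) c, 1 / (p : ℝ)) ≤ Real.log N := by
  have ha : (Q.sys3 N).k + 1 ≤ 2 * (Q.k + 1) := by
    change Q.k + 1 ≤ 2 * (Q.k + 1)
    omega
  refine le_trans (T3TT_core (Q.sys3 N).WX (Q.sys3 N).FX (Q.sys3 N).OX (Pool.Agent.Lib.OW.PR 0 ((kp N) ^ 80)) (fun c => ?_)
    (fun x y hxy => ?_) (fun x p hp => ?_)) (T3TT_fin h.lg ha)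
  · have h1 := up_x3 hQ h (Fin.castAdd (Q.sys3 N).nX (Fin.castAdd (Q.sys3 N).n0 c))
    unfold famX at h1
    rwa [Fin.append_left, Fin.append_left] at h1
  · exact sets_x3 hQ h (Sum.inr x) (Sum.inr y) fun h1 => hxy (Sum.inr_injective h1)
  · rcases x with f | e
    · exact T3TT_PR hQ h.lg (Or.inl ⟨f, hp⟩)
    · exact T3TT_PR hQ h.lg (Or.inr (Or.inr (Or.inl ⟨e, hp⟩)))

theorem tot_y3 (hQ : Q.Ok) (h : Q.Lg3 N) : ∏ c, (1 + ∑ p ∈ T3B.famY3 (Q.sys3 N) (Q.WA N) (Q.WB N) c, 1 / (p : ℝ)) ≤ Real.log N := by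
  have ha : (Q.sys3 N).k + 1 + ((Q.sys3 N).k + 1) ≤ 2 * (Q.k + 1) := by
    change Q.k + 1 + (Q.k + 1) ≤ 2 * (Q.k + 1)
    omega
  refine le_trans (T3TT_core (Fin.append (Q.WA N) (Q.WB N)) (Q.sys3 N).FY (Q.sys3 N).OY (Pool.Agent.Lib.OW.PR 0 ((kp N) ^ 80))
    (fun c => ?_) (fun x y hxy => ?_) (fun x p hp => ?_)) (T3TT_fin h.lg ha)
  · have h1 := up_y3 hQ h (Fin.castAdd (Q.sys3 N).nY (Fin.castAdd (Q.sys3 N).n0 c))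
    unfold T3B.famY3 at h1
    rwa [Fin.append_left, Fin.append_left] at h1
  · exact sets_y3 hQ h (Sum.inr x) (Sum.inr y) fun h1 => hxy (Sum.inr_injective h1)
  · rcases x with f | e
    · exact T3TT_PR hQ h.lg (Or.inr (Or.inl ⟨f, hp⟩))
    · exact T3TT_PR hQ h.lg (Or.inr (Or.inr (Or.inr ⟨e, hp⟩)))

end MPar

end Pool.Agent.Lib.TC
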