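import Pool.Agent.Lib.MP_7b7e48_nt.BR3.P6
import Pool.Agent.Lib.MP_7b7e48_nt.T3S.WG
import Pool.Agent.Lib.MP_7b7e48_nt.T3S.G
import Pool.Agent.Lib.MP_7b7e48_nt.T3S.J
import Pool.Agent.Lib.MP_7b7e48_nt.T3B.E0

/-!
# T3S.WP (50 minutes): the factors of the windows of `Y` in the classes of a small prime

`ev_pwp`: copy of the proof of `BR3.P6.ev_WYp` for a general window `pw N x Z (W^2) a`, `1 ≤ x ≤ 3`, `exp (κ ^ 90) ≤ Z`, `a` coprime to `W` (`∑_{pw N x Z q a} 1/l = WCL N x Z q a` by `rfl`, `ev_wcl3 3`). `ev_winok3`: `x = 3`, `Z = V i`, `a = 1` and `x = 2`, `Z = V i`, `a = b i` (`V_lo`);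
`p ∈ T.PS`: `p ≥ T.p0`, so `p` does not divide `W` (see `BR3.WO.ev_winok`).
-/

set_option autoImplicit false

open Finset Filter

namespace Pool.Agent.Lib.TC

namespace MPar

theorem ev_pwp {Q : MPar} (hQ : Q.Ok) : ∀ᶠ N : ℕ in atTop, ∀ x Z a : ℕ, 1 ≤ x → x ≤ 3 → Real.exp ((kp N) ^ 90) ≤ Z → a.Coprime Q.W →
    ∀ p : ℕ, p.Prime → ¬ p ∣ Q.W → (p : ℝ) ≤ 2 * Real.log N → ∀ r : ℕ, ¬ p ∣ r →
    (∑ l ∈ pw N x Z (Q.W ^ 2) a, 1 / (l : ℝ)) / (4 * ((p : ℝ) - 1)) ≤ ∑ l ∈ (pw N x Z (Q.W ^ 2) a).filter (fun l => l ≡ r [MOD p]), 1 / (l : ℝ) ∧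
    ∑ l ∈ (pw N x Z (Q.W ^ 2) a).filter (fun l => l ≡ r [MOD p]), 1 / (l : ℝ) ≤ 4 / ((p : ℝ) - 1) * ∑ l ∈ pw N x Z (Q.W ^ 2) a, 1 / (l : ℝ) := by
  have hlog : Tendsto (fun N : ℕ => Real.log (N : ℝ)) atTop atTop :=
    Real.tendsto_log_atTop.comp tendsto_natCast_atTop_atTop
  filter_upwards [ev_wcl3 3, hlog.eventually_ge_atTop ((Q.W : ℝ) ^ 2), hlog.eventually_ge_atTop 2]
    with N hN hW h2 x Z b hx1 hx3 hZ hbW p hp hpW hpK r hr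
  obtain ⟨V, hV, h⟩ := hN x hx1 hx3 Z hZ
  have hcb : b.Coprime (Q.W ^ 2) := Nat.Coprime.pow_right 2 hbW
  have hW1 : 1 ≤ Q.W ^ 2 := Nat.one_le_pow _ _ hQ.W0
  have hK0 : (0 : ℝ) < Real.log N := by linarith
  have hK1 : (1 : ℝ) ≤ Real.log N := by linarith
  have hq0 : ((Q.W ^ 2 : ℕ) : ℝ) ≤ (Real.log N) ^ 3 := by
    push_cast
    nlinarith [mul_nonneg hK0.le hK0.le]
  have hq1 : ((Q.W ^ 2 * p : ℕ) : ℝ) ≤ (Real.log N) ^ 3 := by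
    push_cast
    have h3 : (Q.W : ℝ) ^ 2 * p ≤ Real.log N * (2 * Real.log N) :=
      mul_le_mul hW hpK (by positivity) hK0.le
    nlinarith [mul_nonneg hK0.le hK0.le]
  have hpc : p.Coprime Q.W := (Nat.Prime.coprime_iff_not_dvd hp).mpr hpW
  have hc : (Q.W ^ 2).Coprime p := (Nat.Coprime.pow_left 2 hpc.symm)
  have hrc : r.Coprime p := ((Nat.Prime.coprime_iff_not_dvd hp).mpr hr).symm
  set a := (Nat.chineseRemainder hc b r : ℕ) with ha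
  have ha1 : a ≡ b [MOD Q.W ^ 2] := (Nat.chineseRemainder hc b r).2.1
  have ha2 : a ≡ r [MOD p] := (Nat.chineseRemainder hc b r).2.2
  have hac : a.Coprime (Q.W ^ 2 * p) := by
    refine Nat.Coprime.mul_right ?_ ?_
    · unfold Nat.Coprime
      rw [ha1.gcd_eq]
      exact hcb
    · unfold Nat.Coprime
      rw [ha2.gcd_eq]
      exact hrc
  have hset0 : ∑ l ∈ pw N x Z (Q.W ^ 2) b, 1 / (l : ℝ) = WCL N x Z (Q.W ^ 2) b := rfl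
  have hset : ∑ l ∈ (pw N x Z (Q.W ^ 2) b).filter (fun l => l ≡ r [MOD p]), 1 / (l : ℝ) =
      WCL N x Z (Q.W ^ 2 * p) a := by
    unfold pw WCL
    rw [filter_filter]
    refine sum_congr ?_ fun _ _ => rfl
    refine filter_congr fun l _ => ?_
    rw [← Nat.modEq_and_modEq_iff_modEq_mul hc]
    constructor
    · rintro ⟨⟨h4, h5, h6⟩, h7⟩
      exact ⟨h4, h5, h6.trans ha1.symm, h7.trans ha2.symm⟩
    · rintro ⟨h4, h5, h6, h7⟩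
      exact ⟨⟨h4, h5, h6.trans ha1⟩, h7.trans ha2⟩
  have hA := h (Q.W ^ 2) b hW1 hq0 hcb
  have hB := h (Q.W ^ 2 * p) a (Nat.mul_pos hW1 hp.pos) hq1 hac
  rw [← hset0] at hA
  rw [← hset] at hB
  have hφ : (0 : ℝ) < (Q.W ^ 2).totient := by exact_mod_cast Nat.totient_pos.mpr hW1
  have hp1 : (0 : ℝ) < (p : ℝ) - 1 := by
    have : (1 : ℝ) < p := by exact_mod_cast hp.one_lt
    linarith
  have hφ2 : (((Q.W ^ 2 * p).totient : ℕ) : ℝ) = (Q.W ^ 2).totient * ((p : ℝ) - 1) := by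
    rw [Nat.totient_mul hc, Nat.totient_prime hp, Nat.cast_mul, Nat.cast_sub hp.one_lt.le, Nat.cast_one]
  rw [hφ2] at hB
  set S0 := ∑ l ∈ pw N x Z (Q.W ^ 2) b, 1 / (l : ℝ)
  set S1 := ∑ l ∈ (pw N x Z (Q.W ^ 2) b).filter (fun l => l ≡ r [MOD p]), 1 / (l : ℝ)
  set F : ℝ := (((Q.W ^ 2).totient : ℕ) : ℝ) with hF
  have hu : 0 < V / (F * ((p : ℝ) - 1)) := by positivity
  have e1 : 0.9 * V / F = (0.9 * ((p : ℝ) - 1)) * (V / (F * ((p : ℝ) - 1))) := by field_simp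
  have e2 : 1.1 * V / F = (1.1 * ((p : ℝ) - 1)) * (V / (F * ((p : ℝ) - 1))) := by field_simp
  have e3 : 0.9 * V / (F * ((p : ℝ) - 1)) = 0.9 * (V / (F * ((p : ℝ) - 1))) := by field_simp
  have e4 : 1.1 * V / (F * ((p : ℝ) - 1)) = 1.1 * (V / (F * ((p : ℝ) - 1))) := by field_simp
  rw [e1, e2] at hA
  rw [e3, e4] at hB
  set v := V / (F * ((p : ℝ) - 1))
  constructor
  · rw [div_le_iff₀ (by positivity)]
    nlinarith [hA.1, hA.2, hB.1, hB.2, mul_pos hp1 hu, mul_le_mul_of_nonneg_left hB.1 hp1.le]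
  · rw [div_mul_eq_mul_div, le_div_iff₀ hp1]
    nlinarith [hA.1, hA.2, hB.1, hB.2, mul_pos hp1 hu, mul_le_mul_of_nonneg_left hB.2 hp1.le]

theorem ev_winok3 {Q : MPar} (hQ : Q.Ok) : ∀ᶠ N : ℕ in atTop, ∀ T : Dat, T.N = N →
    (∀ p : ℕ, p.Prime → p ∣ Q.W → p < T.p0) → ∀ y1 : ℕ, (y1 : ℝ) ≤ 2 * Real.log N → T3B.WinOk3 (Q.sys3 N) (Q.WA N) (Q.WB N) T y1 := by
  filter_upwards [ev_pwp hQ, ev_Lg3 hQ] with N h hL T hT hW y1 hy1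
  have key : ∀ x Z a : ℕ, 1 ≤ x → x ≤ 3 → Real.exp ((kp N) ^ 90) ≤ Z → a.Coprime Q.W →
      ∀ p : ℕ, p ∈ T.PS → p ≤ y1 → ∀ r : ℕ, ¬ p ∣ r →
      (∑ l ∈ pw N x Z (Q.W ^ 2) a, 1 / (l : ℝ)) / (4 * ((p : ℝ) - 1)) ≤ ∑ l ∈ (pw N x Z (Q.W ^ 2) a).filter (fun l => l ≡ r [MOD p]), 1 / (l : ℝ) ∧
      ∑ l ∈ (pw N x Z (Q.W ^ 2) a).filter (fun l => l ≡ r [MOD p]), 1 / (l : ℝ) ≤ 4 / ((p : ℝ) - 1) * ∑ l ∈ pw N x Z (Q.W ^ 2) a, 1 / (l : ℝ) := by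
    intro x Z a hx1 hx3 hZ ha p hp hpy r hr
    unfold Dat.PS at hp
    rw [mem_filter] at hp
    refine h x Z a hx1 hx3 hZ ha p hp.2.1 (fun hd => ?_) ?_ r hr
    · have := hW p hp.2.1 hd
      omega
    · have : (p : ℝ) ≤ y1 := by exact_mod_cast hpy
      linarith
  have hVi : ∀ i : Fin ((Q.sys3 N).k + 1), Real.exp ((kp N) ^ 90) ≤ (Q.V N i : ℝ) := fun i =>
    V_lo hQ hL.lh (Nat.lt_succ_iff.1 i.2)
  have hb : ∀ i : ℕ, (Q.b i).Coprime Q.W := fun i => hQ.bc i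
  exact ⟨fun i p hp hpy r hr => (key 3 (Q.V N i) 1 (by norm_num) le_rfl (hVi i) (Nat.coprime_one_left _) p hp hpy r hr).1,
    fun i p hp hpy r hr => (key 3 (Q.V N i) 1 (by norm_num) le_rfl (hVi i) (Nat.coprime_one_left _) p hp hpy r hr).2,
    fun i p hp hpy r hr => (key 2 (Q.V N i) (Q.b i) (by norm_num) (by norm_num) (hVi i) (hb i) p hp hpy r hr).1,
    fun i p hp hpy r hr => (key 2 (Q.V N i) (Q.b i) (by norm_num) (by norm_num) (hVi i) (hb i) p hp hpy r hr).2⟩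

end MPar

end Pool.Agent.Lib.TC
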