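import Pool.Agent.Lib.MP_7b7e48_nt.BR3.RY
import Pool.Agent.Lib.MP_7b7e48_nt.T3S.L

/-!
# T3S.R (60 minutes): the density of the family of `X`

`Cf3 = Cf + 2 (k + 1) + 2`. As `BR3.R.rhoX_lo` (lemmas `R_rhoX`, `R_prod`, `R_base`, `R_pow`, `R_fin`, `R_const` are public), with `nit + 2` items in a slot: `∏_e` over `e < k (nit + 2)` = `∏_{i < k} ∏_{t < nit + 2}`; the two fixers of a slot have mass `≥ 1/(100 l0)`, and `(100 l0)^(2 k) ≤ (100 l0) ^ (3 k) ≤ K` (`h.fp`).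
So `rho (famX sys3) ≥ K ^ (- Cf - 1)`. (The easiest way: `rho (famX sys3) ≥ (the lower bound used in R.rhoX_lo) (1/(100 l0)) ^ (2 k)`.)
-/

set_option autoImplicit false

open Finset

namespace Pool.Agent.Lib.TC

open Pool.Agent.Lib.TCB (famX)
open Pool.Agent.Lib.TCF (rho)

namespace MPar

variable {Q : MPar} {N : ℕ}

/-- exponent of the density of the families -/
noncomputable def Cf3 (Q : MPar) : ℕ := Q.Cf + 2 * (Q.k + 1) + 2

/-- the final computation with the fixers -/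
private theorem R3_fin {K a b d : ℝ} {m n1 n2 s c r : ℕ} (hK : 1 ≤ K) (ha : 1 ≤ a) (hb : 1 ≤ b) (hd : 1 ≤ d)
    (hA : a ^ (n1 + n2) ≤ K ^ c) (hB : b ^ s ≤ K) (hD : d ^ r ≤ K) {x y z : ℝ} (hx : (1 / K ^ 2) ^ m ≤ x) (hy : (1 / a) ^ n1 ≤ y)
    (hz : (1 / b) ^ s * (1 / a) ^ n2 * (1 / d) ^ r ≤ z) : 1 ≤ K ^ (c + 2 * m + 2 + 1) * (x * y * z) := by
  have ha0 : 0 < a := by linarith
  have hb0 : 0 < b := by linarith
  have hd0 : 0 < d := by linarith
  have hK0 : 0 < K := by linarith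
  have hdr : 0 < d ^ r := by positivity
  have hz' : (1 / b) ^ s * (1 / a) ^ n2 ≤ z * d ^ r := by
    calc (1 / b) ^ s * (1 / a) ^ n2 = (1 / b) ^ s * (1 / a) ^ n2 * (1 / d) ^ r * d ^ r := by
          rw [mul_assoc _ ((1 / d) ^ r) (d ^ r), ← mul_pow, one_div_mul_cancel hd0.ne', one_pow, mul_one]
      _ ≤ z * d ^ r := mul_le_mul_of_nonneg_right hz hdr.le
  have h1 := R_fin hK ha hb hA hB hx hy hz'
  have hx0 : 0 ≤ x := le_trans (by positivity) hx
  have hy0 : 0 ≤ y := le_trans (by positivity) hy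
  have hz0 : 0 ≤ z := le_trans (by positivity) hz
  calc (1 : ℝ) ≤ K ^ (c + 2 * m + 2) * (x * y * (z * d ^ r)) := h1
    _ = K ^ (c + 2 * m + 2) * (x * y * z) * d ^ r := by ring
    _ ≤ K ^ (c + 2 * m + 2) * (x * y * z) * K := mul_le_mul_of_nonneg_left hD (by positivity)
    _ = K ^ (c + 2 * m + 2 + 1) * (x * y * z) := by ring

theorem rhoX3_lo (hQ : Q.Ok) (h : Q.Lg3 N) : 1 ≤ (Real.log N) ^ Q.Cf3 * rho (famX (Q.sys3 N)) := by
  obtain ⟨hL, hK, ha, hn0, hnr, hl⟩ := R_base hQ h.lg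
  have hK1 : (1 : ℝ) ≤ Real.log N := by linarith
  have hk : (0 : ℝ) ≤ Q.k := Nat.cast_nonneg _
  have hl2 : (1 : ℝ) ≤ 100 * Q.l0 N := by linarith
  have hrho0 : 0 ≤ rho (famX (Q.sys3 N)) := by
    unfold rho
    exact prod_nonneg fun c _ => sum_nonneg fun p _ => by positivity
  have hmain : 1 ≤ (Real.log N) ^ (Q.Cf + 1) * rho (famX (Q.sys3 N)) := by
    rw [R_rhoX]
    unfold Cf
    refine R3_fin (K := Real.log N) (a := 1.1 * Q.G) (b := 5 * Q.l0 N) (d := 100 * Q.l0 N) (m := Q.k + 1) (n1 := Q.n0 N) (n2 := Q.k * Q.nr N)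
      (s := Q.k * Q.np N) (r := 2 * Q.k) hK1 ha hl hl2 (R_pow ha hK1 ?_) h.lg.ppd ?_ ?_ ?_ ?_
    · push_cast
      have h1 : (Q.k : ℝ) * Q.nr N ≤ Q.k * (9 / 2 * Real.log (Real.log N)) := mul_le_mul_of_nonneg_left hnr hk
      have h2 : (0 : ℝ) ≤ Q.k * Real.log (Real.log N) := mul_nonneg hk (by linarith)
      nlinarith
    · exact (pow_le_pow_right₀ hl2 (by omega)).trans h.fp
    · refine R_const (m := Q.k + 1) _ (by positivity) (fun i : Fin (Q.k + 1) => ∑ p ∈ Q.WX3 N i, 1 / (p : ℝ)) fun i => ?_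
      refine le_trans ?_ (h.wx i (by omega))
      gcongr
      norm_num
    · exact R_const (m := Q.n0 N) _ (by positivity) (fun f : Fin (Q.n0 N) => ∑ p ∈ Q.FXs N f, 1 / (p : ℝ))
        fun f => mFX hQ h.lg f.2
    · have h1 : ∏ e : Fin (Q.k * (Q.nit N + 2)), ∑ p ∈ Q.OX3 N ((e : ℕ) / (Q.nit N + 2)) ((e : ℕ) % (Q.nit N + 2)), 1 / (p : ℝ) =
          ∏ i ∈ range Q.k, ∏ t ∈ range (Q.nit N + 2), ∑ p ∈ Q.OX3 N i t, 1 / (p : ℝ) :=
        R_prod Q.k (Q.nit N + 2) (fun i t => ∑ p ∈ Q.OX3 N i t, 1 / (p : ℝ))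
      have h2 : (1 / (5 * Q.l0 N)) ^ (Q.k * Q.np N) * (1 / (1.1 * (Q.G : ℝ))) ^ (Q.k * Q.nr N) * (1 / (100 * Q.l0 N)) ^ (2 * Q.k) ≤
          ∏ i ∈ range Q.k, ∏ t ∈ range (Q.nit N + 2), ∑ p ∈ Q.OX3 N i t, 1 / (p : ℝ) := by
        calc (1 / (5 * Q.l0 N)) ^ (Q.k * Q.np N) * (1 / (1.1 * (Q.G : ℝ))) ^ (Q.k * Q.nr N) * (1 / (100 * Q.l0 N)) ^ (2 * Q.k)
            = ∏ _i ∈ range Q.k, ((1 / (5 * Q.l0 N)) ^ (Q.np N) * (1 / (1.1 * (Q.G : ℝ))) ^ (Q.nr N) * (1 / (100 * Q.l0 N)) * (1 / (100 * Q.l0 N))) := by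
              rw [prod_const, card_range, mul_pow, mul_pow, mul_pow, ← pow_mul, ← pow_mul, mul_comm (Q.np N), mul_comm (Q.nr N), two_mul, pow_add]
              ring
          _ ≤ _ := by
              refine prod_le_prod (fun i _ => by positivity) fun i hi => ?_
              rw [mem_range] at hi
              rw [prod_range_succ, prod_range_succ]
              unfold nit
              rw [Finset.prod_range_add]
              have h3 : (1 / (5 * Q.l0 N)) ^ (Q.np N) ≤ ∏ t ∈ range (Q.np N), ∑ p ∈ Q.OX3 N i t, 1 / (p : ℝ) := by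
                calc (1 / (5 * Q.l0 N)) ^ (Q.np N) = ∏ _t ∈ range (Q.np N), (1 / (5 * Q.l0 N)) := by
                      rw [prod_const, card_range]
                  _ ≤ _ := prod_le_prod (fun _ _ => by positivity) fun t ht => by
                      rw [mem_range] at ht
                      exact (xi_mass hQ h hi).1 ht
              have h4 : (1 / (1.1 * (Q.G : ℝ))) ^ (Q.nr N) ≤
                  ∏ t ∈ range (Q.nr N), ∑ p ∈ Q.OX3 N i (Q.np N + t), 1 / (p : ℝ) := by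
                calc (1 / (1.1 * (Q.G : ℝ))) ^ (Q.nr N) = ∏ _t ∈ range (Q.nr N), (1 / (1.1 * (Q.G : ℝ))) := by
                      rw [prod_const, card_range]
                  _ ≤ _ := prod_le_prod (fun _ _ => by positivity) fun t ht => by
                      rw [mem_range] at ht
                      exact (xi_mass hQ h hi).2.1 (by omega) (by unfold nit; omega)
              have h5 : 1 / (100 * Q.l0 N) ≤ ∑ p ∈ Q.OX3 N i (Q.np N + Q.nr N), 1 / (p : ℝ) :=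
                (xi_mass hQ h hi).2.2 (by unfold nit; omega)
              have h6 : 1 / (100 * Q.l0 N) ≤ ∑ p ∈ Q.OX3 N i (Q.np N + Q.nr N + 1), 1 / (p : ℝ) :=
                (xi_mass hQ h hi).2.2 (by unfold nit; omega)
              have q1 : (0 : ℝ) ≤ (1 / (5 * Q.l0 N)) ^ (Q.np N) := by positivity
              have q2 : (0 : ℝ) ≤ (1 / (1.1 * (Q.G : ℝ))) ^ (Q.nr N) := by positivity
              have q3 : (0 : ℝ) ≤ 1 / (100 * Q.l0 N) := by positivity
              have g1 := mul_le_mul h3 h4 q2 (q1.trans h3)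
              have g2 := mul_le_mul g1 h5 q3 ((mul_nonneg q1 q2).trans g1)
              exact mul_le_mul g2 h6 q3 ((mul_nonneg (mul_nonneg q1 q2) q3).trans g2)
      exact h2.trans (le_of_eq h1.symm)
  refine hmain.trans (mul_le_mul_of_nonneg_right ?_ hrho0)
  refine pow_le_pow_right₀ hK1 ?_
  unfold Cf3
  omega

end MPar

end Pool.Agent.Lib.TC
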