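import Pool.Agent.Lib.MP_7b7e48_nt.BR3.WO
import Pool.Agent.Lib.MP_7b7e48_nt.T3S.R

/-!
# T3S.S (40 minutes): the number of colourings

`gG3`: copy of the proof of `BR3.S.gG` (with its private lemmas `S_la`, `S_L`, `S_n0`, `S_logm`, `S_log06`); `Cf3 = Cf + 2 (k+1) + 2`, and `60 (k + 1)` instead of `20 (k + 1)`: all together `m^2/16 ≥ 10 m log m + (62 + 2 + 22) m + .. + B` for `m ≥ 20000 + B` (`log m ≤ m / 1000`).
`cc3_lo`: `(sys3 N).CC.card = (sys N).CC.card` by `rfl` (`CC` depends only on `k` and `n0`): `exact cc_lo hQ h`. `cc33`: `exact cc3 hQ h hB`.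
-/

set_option autoImplicit false

open Finset

namespace Pool.Agent.Lib.TC

namespace MPar

private theorem S3_la {Q : MPar} (hQ : Q.Ok) : (Q.la : ℝ) = ((Q.k : ℝ) + 1) ^ 2 / 2 := by
  obtain ⟨r, hr⟩ := hQ.ko
  have h1 : Q.la = 2 * (r + 1) ^ 2 := by
    unfold la
    rw [hr]
    have h2 : (2 * r + 1 + 1) ^ 2 = 2 * (2 * (r + 1) ^ 2) := by ring
    omega
  rw [h1, hr]
  push_cast
  ring

private theorem S3_L {Q : MPar} {N : ℕ} (h : Q.Lg N) : 400 * ((Q.k : ℝ) + 1) ≤ Real.log (Real.log N) := by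
  have h1 := h.k00
  have h2 := Real.exp_pos (4 * ((Q.k : ℝ) + 1))
  have h3 : 4 * ((Q.k : ℝ) + 1) ≤ Real.log (kp N) := by
    rw [Real.le_log_iff_exp_le (by linarith)]
    exact h1
  rw [← h.Kk, Real.log_pow]
  push_cast
  linarith

private theorem S3_n0 {Q : MPar} {N : ℕ} (h : Q.Lg N) :
    (Q.la : ℝ) * (Real.log (Real.log N) / 4 - 2) ≤ Q.n0 N := by
  have hk : (0 : ℝ) ≤ Q.k := Nat.cast_nonneg _
  have hL := S3_L h
  unfold n0
  rw [Nat.cast_mul, Nat.cast_sub h.j12.le]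
  refine mul_le_mul_of_nonneg_left ?_ (Nat.cast_nonneg _)
  have h1 : Real.log (Real.log N) / 2 < (j2 N : ℝ) + 1 := Nat.lt_floor_add_one _
  have h2 : (j1 N : ℝ) < Real.log (Real.log N) / 4 + 1 := Nat.ceil_lt_add_one (by linarith)
  linarith

private theorem S3_logm {m : ℝ} (hm : 20000 ≤ m) : Real.log m ≤ m / 1000 := by
  have h1 : Real.log m = Real.log (m / 2 ^ 13) + 13 * Real.log 2 := by
    rw [Real.log_div (by linarith) (by positivity), Real.log_pow]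
    push_cast
    ring
  have h2 : Real.log (m / 2 ^ 13) ≤ m / 2 ^ 13 - 1 := Real.log_le_sub_one_of_pos (by positivity)
  have h3 := Real.log_two_lt_d9
  rw [h1]
  norm_num at h2 ⊢
  linarith

private theorem S3_log06 : Real.log (3 / 5) ≤ -(1 / 2) := by
  rw [Real.log_le_iff_le_exp (by norm_num), Real.exp_neg]
  have h1 : Real.exp (1 / 2) ≤ 5 / 3 := by
    have h2 : Real.exp (1 / 2) ^ 2 = Real.exp 1 := by
      rw [← Real.exp_nat_mul]
      norm_num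
    have h3 := Real.exp_one_lt_d9
    have h4 := Real.exp_pos (1 / 2 : ℝ)
    nlinarith
  have h4 := Real.exp_pos (1 / 2 : ℝ)
  rw [← one_div, le_div_iff₀ h4]
  linarith

/-- (G) -/
theorem gG3 (B : ℕ) : ∃ k0 : ℕ, ∀ Q : MPar, Q.Ok → k0 ≤ Q.k → ∀ N : ℕ, Q.Lg N →
    (Real.log N) ^ (Q.Cf3 + 60 * (Q.k + 1) + B) ≤ ((Q.k : ℝ) + 1) ^ (2 * Q.n0 N) := by
  refine ⟨20000 + B, fun Q hQ hk N h => ?_⟩
  have hla := S3_la hQ
  have hL := S3_L h
  have hn0 := S3_n0 h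
  obtain ⟨hL1, hK, ha, -, -, -⟩ := R_base hQ h
  have hkr : (20000 : ℝ) + B ≤ Q.k := by exact_mod_cast hk
  have hB0 : (0 : ℝ) ≤ B := Nat.cast_nonneg _
  set L := Real.log (Real.log N) with hLdef
  set m : ℝ := (Q.k : ℝ) + 1 with hm
  have hm0 : 20000 + (B : ℝ) ≤ m := by linarith
  have hm1 : (20000 : ℝ) ≤ m := by linarith
  have hmpos : 0 < m := by linarith
  have hlm := S3_logm hm1
  have hlm0 : 0 ≤ Real.log m := Real.log_nonneg (by linarith)
  have hla0 : (0 : ℝ) ≤ Q.la := Nat.cast_nonneg _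
  -- `log (1.1 G) ≤ 2 log m - 1/2`
  have hG : Real.log (1.1 * Q.G) ≤ 2 * Real.log m - 1 / 2 := by
    have h1 : 1.1 * (Q.G : ℝ) ≤ 3 / 5 * m ^ 2 := by
      have h2 : (Q.G : ℝ) = m ^ 2 / 2 + 6 * (m - 1) := by
        unfold G
        push_cast
        rw [hla, hm]
        ring
      rw [h2]
      nlinarith
    have h2 := Real.log_le_log (by linarith) h1
    have h4 : Real.log (3 / 5 * m ^ 2) = Real.log (3 / 5) + 2 * Real.log m := by
      rw [Real.log_mul (by norm_num) (by positivity), Real.log_pow]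
      push_cast
      ring
    rw [h4] at h2
    have h3 := S3_log06
    linarith
  have hG0 : 0 ≤ Real.log (1.1 * Q.G) := Real.log_nonneg ha
  have hCf : (Q.Cf : ℝ) ≤ ((Q.la : ℝ) / 4 + 5 * Q.k) * Real.log (1.1 * Q.G) + 2 * m + 3 := by
    unfold Cf
    have h1 : (⌈((Q.la : ℝ) / 4 + 5 * Q.k) * Real.log (1.1 * Q.G)⌉₊ : ℝ) <
        ((Q.la : ℝ) / 4 + 5 * Q.k) * Real.log (1.1 * Q.G) + 1 := Nat.ceil_lt_add_one (by positivity)
    push_cast
    linarith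
  have hCf2 : (Q.Cf : ℝ) ≤ Q.la / 2 * Real.log m - Q.la / 8 + 10 * m * Real.log m + 2 * m + 3 := by
    have h1 : ((Q.la : ℝ) / 4 + 5 * Q.k) * Real.log (1.1 * Q.G) ≤
        ((Q.la : ℝ) / 4 + 5 * Q.k) * (2 * Real.log m - 1 / 2) := mul_le_mul_of_nonneg_left hG (by positivity)
    have h2 : ((Q.la : ℝ) / 4 + 5 * Q.k) * (2 * Real.log m - 1 / 2) =
        Q.la / 2 * Real.log m - Q.la / 8 + 10 * Q.k * Real.log m - 5 / 2 * Q.k := by ring
    have h3 : 10 * (Q.k : ℝ) * Real.log m ≤ 10 * m * Real.log m :=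
      mul_le_mul_of_nonneg_right (by linarith) hlm0
    have h4 : (0 : ℝ) ≤ Q.k := Nat.cast_nonneg _
    linarith
  -- the exponent
  have hE : (Q.Cf : ℝ) + 62 * m + (B + 2) ≤ Q.la * Real.log m * (1 / 2 - 1 / (100 * m)) := by
    have h1 : Q.la * Real.log m * (1 / 2 - 1 / (100 * m)) = Q.la / 2 * Real.log m - m / 200 * Real.log m := by
      rw [hla]
      field_simp
      ring
    rw [h1]
    have h2 : m * Real.log m ≤ m * (m / 1000) := mul_le_mul_of_nonneg_left hlm hmpos.le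
    have h3 : (Q.la : ℝ) / 8 = m ^ 2 / 16 := by rw [hla]; ring
    have h4 : 20000 * m ≤ m * m := mul_le_mul_of_nonneg_right hm1 hmpos.le
    nlinarith
  have hn2 : (Q.Cf : ℝ) * L + (62 * m + (B + 2)) * L ≤ 2 * Q.n0 N * Real.log m := by
    have h1 : ((Q.Cf : ℝ) + 62 * m + (B + 2)) * L ≤ Q.la * Real.log m * (1 / 2 - 1 / (100 * m)) * L :=
      mul_le_mul_of_nonneg_right hE (by linarith)
    have h2 : 2 * ((Q.la : ℝ) * (L / 4 - 2)) * Real.log m ≤ 2 * Q.n0 N * Real.log m :=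
      mul_le_mul_of_nonneg_right (by linarith) hlm0
    have h3 : Q.la * Real.log m * (1 / 2 - 1 / (100 * m)) * L ≤ 2 * ((Q.la : ℝ) * (L / 4 - 2)) * Real.log m := by
      have h4 : 4 ≤ 1 / (100 * m) * L := by
        rw [div_mul_eq_mul_div, one_mul, le_div_iff₀ (by positivity)]
        linarith
      have h5 : 0 ≤ Q.la * Real.log m := mul_nonneg hla0 hlm0
      have h6 := mul_le_mul_of_nonneg_left h4 h5
      nlinarith
    nlinarith
  have hK0 : 0 < Real.log N := by linarith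
  have e0 : Q.Cf3 + 60 * (Q.k + 1) + B = Q.Cf + 62 * (Q.k + 1) + (B + 2) := by
    unfold Cf3
    ring
  have h3 : (Real.log N) ^ (Q.Cf3 + 60 * (Q.k + 1) + B) =
      Real.exp ((Q.Cf + 62 * (Q.k + 1) + (B + 2) : ℕ) * Real.log (Real.log N)) := by
    rw [e0, mul_comm ((Q.Cf + 62 * (Q.k + 1) + (B + 2) : ℕ) : ℝ), Real.exp_mul, Real.exp_log hK0, Real.rpow_natCast]
  have h4 : m ^ (2 * Q.n0 N) = Real.exp ((2 * Q.n0 N : ℕ) * Real.log m) := by
    rw [mul_comm ((2 * Q.n0 N : ℕ) : ℝ) (Real.log m), Real.exp_mul, Real.exp_log hmpos, Real.rpow_natCast]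
  rw [h3, h4, Real.exp_le_exp]
  push_cast
  rw [← hLdef, ← hm]
  linarith

theorem cc3_lo {Q : MPar} {N : ℕ} (hQ : Q.Ok) (h : Q.Lg N) : ((Q.k : ℝ) + 1) ^ (2 * Q.n0 N) / 2 ≤ ((Q.sys3 N).CC.card : ℝ) := by
  have e : (Q.sys3 N).CC.card = (Q.sys N).CC.card := rfl
  rw [e]
  exact cc_lo hQ h

theorem cc33 {Q : MPar} {N : ℕ} (hQ : Q.Ok) (h : Q.Lg N) {B : ℕ} (hB : 4 * (B + 12) ≤ Q.k + 1) :
    4 ^ Q.k * ((Q.k * (Q.k + 1) : ℕ) : ℝ) ^ (2 * Q.n0 N) * (Real.log N) ^ (B + 10) ≤ ((Q.sys3 N).CC.card : ℝ) ^ 2 := by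
  have e : (Q.sys3 N).CC.card = (Q.sys N).CC.card := rfl
  rw [e]
  exact cc3 hQ h hB

end MPar

end Pool.Agent.Lib.TC
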