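import Pool.Agent.Lib.MP_7b7e48_nt.BR3.G

/-!
# T3S.D: the mark system of theorem TC3 (TC3.md, section 7), definitions

The system `sys` of BR3 with two changes.

* Windows: `hf` = the parameters with `e1 / 2` instead of `e1`, `V i = hf.Z i`, `Z3 i = 6 (V i) ^ 2`; `WX3 i` = primes in `(3 Z3 i, 4 Z3 i]`, `≡ 1 mod W ^ 2`;
  `WA3 i` = primes in `(3 V i, 4 V i]`, `≡ 1 mod W ^ 2` (`= hf.WXs i`), `WB3 i` = primes in `(2 V i, 3 V i]`, `≡ b i mod W ^ 2`; `WY3 i` = the products `b' b''` (in `(Z3 i, 2 Z3 i]`).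
* Parity fixers of the slot `i < k`: two more marks of `X`, `U1 i`, `U2 i`, one more mark of `Y`, `U3 i`; `0 < log u + log u' - log w < 3/4`. All three get the colour `i` if the number of the
  other marks of colour `i` is even, otherwise the colour `k`.

The mark `(i, t)` of `X` has the number `i * (nit + 2) + t` (`t = nit`, `nit + 1`: fixers), the mark `(i, t)` of `Y` the number `i * (np + 2) + t` (`t = np + 1`: fixer).
`xr`, `yr`: the marks which belong to the system `sys`.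
-/

set_option autoImplicit false

open Finset

namespace Pool.Agent.Lib.TC

namespace MPar

variable (Q : MPar) (N : ℕ)

/-- half the exponent -/
noncomputable def hf : MPar := { Q with e1 := Q.e1 / 2 }

/-- the scales of the windows of `Y` -/
noncomputable def V (i : ℕ) : ℕ := Q.hf.Z N i

noncomputable def Z3 (i : ℕ) : ℕ := 6 * Q.V N i ^ 2

/-- primes of the window `(x Z, (x + 1) Z]` in a residue class -/
noncomputable def pw (N x Z q a : ℕ) : Finset ℕ := (Ioc (x * Z) ((x + 1) * Z)).filter fun p => p.Prime ∧ ¬ p ∣ N ∧ p ≡ a [MOD q]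

noncomputable def WX3 (i : ℕ) : Finset ℕ := pw N 3 (Q.Z3 N i) (Q.W ^ 2) 1

noncomputable def WA3 (i : ℕ) : Finset ℕ := pw N 3 (Q.V N i) (Q.W ^ 2) 1

noncomputable def WB3 (i : ℕ) : Finset ℕ := pw N 2 (Q.V N i) (Q.W ^ 2) (Q.b i)

noncomputable def WY3 (i : ℕ) : Finset ℕ := (Q.WA3 N i ×ˢ Q.WB3 N i).image fun x => x.1 * x.2

/-- the parity fixers -/
noncomputable def U1 (i : ℕ) : Finset ℕ :=
  (Pool.Agent.Lib.OW.PR (3 / 2 * Q.l0 N + i) (3 / 2 * Q.l0 N + i + 1 / 4)).filter fun p => ¬ p ∣ N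

noncomputable def U2 (i : ℕ) : Finset ℕ :=
  (Pool.Agent.Lib.OW.PR (3 / 2 * Q.l0 N + i + 1 / 2) (3 / 2 * Q.l0 N + i + 3 / 4)).filter fun p => ¬ p ∣ N

noncomputable def U3 (i : ℕ) : Finset ℕ :=
  (Pool.Agent.Lib.OW.PR (3 * Q.l0 N + 2 * i + 1 / 4) (3 * Q.l0 N + 2 * i + 1 / 2)).filter fun p => ¬ p ∣ N

noncomputable def OX3 (i t : ℕ) : Finset ℕ := if t < Q.nit N then Q.OXs N i t else if t = Q.nit N then Q.U1 N i else Q.U2 N i

noncomputable def OY3 (i t : ℕ) : Finset ℕ := if t < Q.np N + 1 then Q.OYs N i t else Q.U3 N i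

/-- the mark `(i, t)` of `X` -/
noncomputable def gx3 (x : Fin (Q.k * (Q.nit N + 2)) → ℕ) (i t : ℕ) : ℕ := ext1 x (i * (Q.nit N + 2) + t)

/-- the mark `(i, t)` of `Y` -/
noncomputable def gy3 (y : Fin (Q.k * (Q.np N + 2)) → ℕ) (i t : ℕ) : ℕ := ext1 y (i * (Q.np N + 2) + t)

/-- the marks of the old system -/
noncomputable def xr (x : Fin (Q.k * (Q.nit N + 2)) → ℕ) : Fin (Q.k * Q.nit N) → ℕ := fun e => Q.gx3 N x ((e : ℕ) / Q.nit N) ((e : ℕ) % Q.nit N)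

noncomputable def yr (y : Fin (Q.k * (Q.np N + 2)) → ℕ) : Fin (Q.k * (Q.np N + 1)) → ℕ := fun e =>
  Q.gy3 N y ((e : ℕ) / (Q.np N + 1)) ((e : ℕ) % (Q.np N + 1))

/-- the selected items -/
noncomputable def sel3 (c : FE (Q.n0 N) → Fin (Q.k + 1)) (xs ys : Fin (Q.n0 N) → ℕ) (x : Fin (Q.k * (Q.nit N + 2)) → ℕ)
    (y : Fin (Q.k * (Q.np N + 2)) → ℕ) (i : ℕ) : Finset ℕ := Q.sel N c xs ys (Q.xr N x) (Q.yr N y) i

/-- the number of the marks of colour `i` without the fixers -/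
noncomputable def cnt3 (c : FE (Q.n0 N) → Fin (Q.k + 1)) (xs ys : Fin (Q.n0 N) → ℕ) (x : Fin (Q.k * (Q.nit N + 2)) → ℕ)
    (y : Fin (Q.k * (Q.np N + 2)) → ℕ) (i : ℕ) : ℕ :=
  (univ.filter (fun f => (c f : ℕ) = i)).card + (Q.sel3 N c xs ys x y i).card + (((Q.sel3 N c xs ys x y i).filter (fun t => t < Q.np N)).card + 1)

/-- **the mark system of TC3** -/
noncomputable def sys3 : MS where
  k := Q.k
  n0 := Q.n0 N
  nX := Q.k * (Q.nit N + 2)
  nY := Q.k * (Q.np N + 2)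
  WX i := Q.WX3 N i
  WY i := Q.WY3 N i
  FX f := Q.FXs N f
  FY f := Q.FXs N f
  OX e := Q.OX3 N ((e : ℕ) / (Q.nit N + 2)) ((e : ℕ) % (Q.nit N + 2))
  OY e := Q.OY3 N ((e : ℕ) / (Q.np N + 2)) ((e : ℕ) % (Q.np N + 2))
  cX c xs ys x y e :=
    if ((e : ℕ) % (Q.nit N + 2) < Q.nit N ∧ (e : ℕ) % (Q.nit N + 2) ∈ Q.sel3 N c xs ys x y ((e : ℕ) / (Q.nit N + 2))) ∨
      (Q.nit N ≤ (e : ℕ) % (Q.nit N + 2) ∧ Even (Q.cnt3 N c xs ys x y ((e : ℕ) / (Q.nit N + 2)))) then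
      Q.col ((e : ℕ) / (Q.nit N + 2)) else Q.col Q.k
  cY c xs ys x y e :=
    if (e : ℕ) % (Q.np N + 2) = Q.np N ∨ ((e : ℕ) % (Q.np N + 2) < Q.np N ∧ (e : ℕ) % (Q.np N + 2) ∈ Q.sel3 N c xs ys x y ((e : ℕ) / (Q.np N + 2))) ∨
      ((e : ℕ) % (Q.np N + 2) = Q.np N + 1 ∧ Even (Q.cnt3 N c xs ys x y ((e : ℕ) / (Q.np N + 2)))) then
      Q.col ((e : ℕ) / (Q.np N + 2)) else Q.col Q.k

/-- the windows of the `b'` -/
noncomputable def WA : Fin ((Q.sys3 N).k + 1) → Finset ℕ := fun i => Q.WA3 N i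

/-- the windows of the `b''` -/
noncomputable def WB : Fin ((Q.sys3 N).k + 1) → Finset ℕ := fun i => Q.WB3 N i

/-- the family of `Y`: first all `b'`, then all `b''`, the free primes, the other marks -/
noncomputable def famY3 : Fin ((Q.sys3 N).k + 1 + ((Q.sys3 N).k + 1) + (Q.sys3 N).n0 + (Q.sys3 N).nY) → Finset ℕ :=
  Fin.append (Fin.append (Fin.append (Q.WA N) (Q.WB N)) (Q.sys3 N).FY) (Q.sys3 N).OY

end MPar

end Pool.Agent.Lib.TC
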