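import Pool.Agent.Lib.MP_7b7e48_nt.BR3.W
import Pool.Agent.Lib.MP_7b7e48_nt.BR3.DT
import Pool.Agent.Lib.MP_7b7e48_nt.T3S.RY

/-!
# T3S.W (50 minutes): the data of the frame, sizes

Copy of `BR3/W.lean` with `J1 = 8 MM ^ 2 JJ J2` and exponent `4 (k + 1)` instead of `2 (k + 1)`: `R = W ^ 2 N`, `K = log N`, `log R ≤ 2 K`, `JJ ≤ K ^ 1001`, `MM ≤ K ^ (C1 + 1)`
(copy the private `W_ev`, or use `ev_logR`, `ev_MM` of `BR3/DT.lean`).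
`ev_J13`: `W ^ 2 J1 = 64 W^2 JJ ^ 7 MM ^ 4 ⌈..⌉ ≤ 128 W^2 K ^ (7007 + 4 C1 + 4 + Cf3 + 4 (k + 1) + 1)`, `128 W ^ 2 ≤ K`.
`ev_J03`: `J0 rho ≥ JJ ^ 5 K ^ (Cf3 + 4 (k + 1) + 1) rho ≥ JJ ^ 5 K ^ (4 (k + 1) + 1) ≥ JJ ^ 4 (4 log R) ^ (4 (k+1))` (`rhoY3_lo`; `JJ K ≥ 8 ^ (4 (k+1))`).
-/

set_option autoImplicit false

open Finset Filter

namespace Pool.Agent.Lib.TC

open Pool.Agent.Lib.TCB (famX)
open Pool.Agent.Lib.TCF (rho)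
open Pool.Agent.Lib.RH (Prm MM JJ)

namespace MPar

noncomputable def J03 (Q : MPar) (N : ℕ) : ℕ :=
  JJ (Q.W ^ 2 * N) ^ 5 * ⌈(Real.log N) ^ (Q.Cf3 + 4 * (Q.k + 1) + 1)⌉₊

noncomputable def J23 (P : Prm) (Q : MPar) (N : ℕ) : ℕ := 8 * JJ (Q.W ^ 2 * N) * MM P (Q.W ^ 2 * N) ^ 2 * J03 Q N

noncomputable def J13 (P : Prm) (Q : MPar) (N : ℕ) : ℕ := 8 * MM P (Q.W ^ 2 * N) ^ 2 * JJ (Q.W ^ 2 * N) * J23 P Q N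

/-- the data of the frame -/
noncomputable def fdat3 (P : Prm) (Q : MPar) (N : ℕ) : TCF.Dat :=
  T3B.datS3 (Q.sys3 N) (Q.WA N) (Q.WB N) (J03 Q N) (J13 P Q N) (J23 P Q N) (Q.y0 N)

/-- the sizes for the modulus `W ^ 2 N` -/
private theorem W3_ev {P : Prm} (hP : P.Ok) {Q : MPar} (hQ : Q.Ok) (T : ℝ) : ∀ᶠ N : ℕ in atTop,
    1 ≤ N ∧ T ≤ Real.log N ∧ 1 ≤ Real.log N ∧ Real.log ((Q.W ^ 2 * N : ℕ) : ℝ) ≤ 2 * Real.log N ∧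
      0 ≤ Real.log ((Q.W ^ 2 * N : ℕ) : ℝ) ∧ RH.Num P (Q.W ^ 2 * N) := by
  obtain ⟨N0, hN0⟩ := RH.num P hP
  filter_upwards [eventually_ge_atTop 1, eventually_ge_atTop N0, RH.ev_log_ge T, RH.ev_log_ge 1,
    RH.ev_log_ge (2 * Real.log Q.W)] with N h1 h2 h3 h4 h5
  have hW : 1 ≤ Q.W := hQ.W0
  have hW2 : 1 ≤ Q.W ^ 2 := Nat.one_le_pow _ _ hW
  have hWr : (0 : ℝ) < Q.W := by exact_mod_cast hW
  have hNr : (0 : ℝ) < N := by exact_mod_cast h1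
  have h6 : Real.log ((Q.W ^ 2 * N : ℕ) : ℝ) = 2 * Real.log Q.W + Real.log N := by
    rw [Nat.cast_mul, Nat.cast_pow, Real.log_mul (by positivity) hNr.ne', Real.log_pow]
    norm_num
  refine ⟨h1, h3, h4, ?_, Real.log_natCast_nonneg _, hN0 _ ?_⟩
  · rw [h6]
    linarith
  · exact h2.trans (Nat.le_mul_of_pos_left N hW2)

theorem ev_J13 {P : Prm} (hP : P.Ok) {Q : MPar} (hQ : Q.Ok) : ∀ᶠ N : ℕ in atTop,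
    ((Q.W ^ 2 * J13 P Q N : ℕ) : ℝ) ≤ (Real.log N) ^ (Q.Cf3 + 4 * (Q.k + 1) + 4 * P.C1 + 7013) := by
  filter_upwards [W3_ev hP hQ ((2 : ℝ) ^ 1001), W3_ev hP hQ ((2 : ℝ) ^ (P.C1 + 1)),
    W3_ev hP hQ (128 * (Q.W : ℝ) ^ 2)] with N h1 h2 h3
  obtain ⟨hN1, hT1, hK1, hR, hR0, hnum⟩ := h1
  have hT2 := h2.2.1
  have hT3 := h3.2.1
  obtain ⟨K, hK⟩ : ∃ K : ℝ, K = Real.log N := ⟨_, rfl⟩
  have hJ := hnum.J2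
  have hM := hnum.M2
  unfold J13 J23 J03
  obtain ⟨J, hJJ⟩ : ∃ J : ℕ, J = JJ (Q.W ^ 2 * N) := ⟨_, rfl⟩
  obtain ⟨M, hMM⟩ : ∃ M : ℕ, M = MM P (Q.W ^ 2 * N) := ⟨_, rfl⟩
  obtain ⟨e, he⟩ : ∃ e : ℕ, e = Q.Cf3 + 4 * (Q.k + 1) + 1 := ⟨_, rfl⟩
  rw [← hJJ] at hJ ⊢
  rw [← hMM] at hM ⊢
  rw [← he]
  rw [← hK] at hT1 hT2 hT3 hK1 hR ⊢
  obtain ⟨c, hc⟩ : ∃ c : ℕ, c = ⌈K ^ e⌉₊ := ⟨_, rfl⟩
  rw [← hc]
  have hK0 : 0 < K := lt_of_lt_of_le one_pos hK1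
  have hJ' : (J : ℝ) ≤ K ^ 1001 := by
    calc (J : ℝ) ≤ 2 * (Real.log ((Q.W ^ 2 * N : ℕ) : ℝ)) ^ 1000 := hJ
      _ ≤ 2 * (2 * K) ^ 1000 := mul_le_mul_of_nonneg_left (pow_le_pow_left₀ hR0 hR 1000) (by norm_num)
      _ = 2 ^ 1001 * K ^ 1000 := by
          rw [mul_pow, ← mul_assoc, ← pow_succ']
      _ ≤ K * K ^ 1000 := mul_le_mul_of_nonneg_right hT1 (by positivity)
      _ = K ^ 1001 := by rw [← pow_succ']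
  have hM' : (M : ℝ) ≤ K ^ (P.C1 + 1) := by
    calc (M : ℝ) ≤ 2 * (Real.log ((Q.W ^ 2 * N : ℕ) : ℝ)) ^ P.C1 := hM
      _ ≤ 2 * (2 * K) ^ P.C1 := mul_le_mul_of_nonneg_left (pow_le_pow_left₀ hR0 hR _) (by norm_num)
      _ = 2 ^ (P.C1 + 1) * K ^ P.C1 := by
          rw [mul_pow, ← mul_assoc, ← pow_succ']
      _ ≤ K * K ^ P.C1 := mul_le_mul_of_nonneg_right hT2 (by positivity)
      _ = K ^ (P.C1 + 1) := by rw [← pow_succ']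
  have hc' : (c : ℝ) ≤ 2 * K ^ e := by
    have h4 := Nat.ceil_lt_add_one (show 0 ≤ K ^ e by positivity)
    have h5 : (1 : ℝ) ≤ K ^ e := one_le_pow₀ hK1
    rw [hc]
    linarith only [h4, h5]
  have h6 : ((Q.W ^ 2 * (8 * M ^ 2 * J * (8 * J * M ^ 2 * (J ^ 5 * c))) : ℕ) : ℝ) =
      64 * (Q.W : ℝ) ^ 2 * (J : ℝ) ^ 7 * (M : ℝ) ^ 4 * c := by
    push_cast
    ring
  rw [h6]
  calc 64 * (Q.W : ℝ) ^ 2 * (J : ℝ) ^ 7 * (M : ℝ) ^ 4 * c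
      ≤ 64 * (Q.W : ℝ) ^ 2 * (K ^ 1001) ^ 7 * (K ^ (P.C1 + 1)) ^ 4 * (2 * K ^ e) := by
        have a1 := pow_le_pow_left₀ (Nat.cast_nonneg J) hJ' 7
        have a2 := pow_le_pow_left₀ (Nat.cast_nonneg M) hM' 4
        refine mul_le_mul ?_ hc' (Nat.cast_nonneg _) (by positivity)
        refine mul_le_mul ?_ a2 (by positivity) (by positivity)
        exact mul_le_mul_of_nonneg_left a1 (by positivity)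
    _ = (128 * (Q.W : ℝ) ^ 2) * ((K ^ 1001) ^ 7 * (K ^ (P.C1 + 1)) ^ 4 * K ^ e) := by ring
    _ ≤ K * ((K ^ 1001) ^ 7 * (K ^ (P.C1 + 1)) ^ 4 * K ^ e) := mul_le_mul_of_nonneg_right hT3 (by positivity)
    _ = K ^ (Q.Cf3 + 4 * (Q.k + 1) + 4 * P.C1 + 7013) := by
        rw [← pow_mul, ← pow_mul, ← pow_add, ← pow_add, ← pow_succ', he]
        congr 1
        ring

theorem ev_J03 {P : Prm} (hP : P.Ok) {Q : MPar} (hQ : Q.Ok) : ∀ᶠ N : ℕ in atTop, Q.Lg3 N →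
    (JJ (Q.W ^ 2 * N) : ℝ) ^ 4 * (4 * Real.log ((Q.W ^ 2 * N : ℕ) : ℝ)) ^ (4 * (Q.k + 1)) ≤
      J03 Q N * rho (T3B.famY3 (Q.sys3 N) (Q.WA N) (Q.WB N)) := by
  filter_upwards [W3_ev hP hQ ((8 : ℝ) ^ (4 * (Q.k + 1)))] with N h1 hL
  obtain ⟨hN1, hT1, hK1, hR, hR0, hnum⟩ := h1
  have hrho := rhoY3_lo hQ hL
  have hJ := hnum.J1
  have hKR : (10 : ℝ) ^ 9 ≤ Real.log ((Q.W ^ 2 * N : ℕ) : ℝ) := hnum.K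
  obtain ⟨K, hK⟩ : ∃ K : ℝ, K = Real.log N := ⟨_, rfl⟩
  unfold J03
  obtain ⟨J, hJJ⟩ : ∃ J : ℕ, J = JJ (Q.W ^ 2 * N) := ⟨_, rfl⟩
  obtain ⟨r, hr⟩ : ∃ r : ℝ, r = rho (T3B.famY3 (Q.sys3 N) (Q.WA N) (Q.WB N)) := ⟨_, rfl⟩
  rw [← hJJ] at hJ ⊢
  rw [← hr] at hrho ⊢
  rw [← hK] at hT1 hK1 hR hrho ⊢
  have hK0 : 0 < K := by linarith
  have hJ1 : (1 : ℝ) ≤ J := by
    refine le_trans (one_le_pow₀ ?_) hJ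
    linarith
  have hr0 : 0 < r := by
    by_contra hneg
    push Not at hneg
    have : K ^ Q.Cf3 * r ≤ 0 := mul_nonpos_of_nonneg_of_nonpos (by positivity) hneg
    linarith
  have hc : K ^ (Q.Cf3 + 4 * (Q.k + 1) + 1) ≤ (⌈K ^ (Q.Cf3 + 4 * (Q.k + 1) + 1)⌉₊ : ℝ) := Nat.le_ceil _
  calc (J : ℝ) ^ 4 * (4 * Real.log ((Q.W ^ 2 * N : ℕ) : ℝ)) ^ (4 * (Q.k + 1))
      ≤ (J : ℝ) ^ 4 * (8 * K) ^ (4 * (Q.k + 1)) := by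
        refine mul_le_mul_of_nonneg_left (pow_le_pow_left₀ (by linarith) (by linarith) _) (by positivity)
    _ = (J : ℝ) ^ 4 * (8 ^ (4 * (Q.k + 1)) * K ^ (4 * (Q.k + 1))) := by rw [mul_pow]
    _ ≤ (J : ℝ) ^ 4 * ((J * K) * K ^ (4 * (Q.k + 1))) := by
        refine mul_le_mul_of_nonneg_left (mul_le_mul_of_nonneg_right ?_ (by positivity)) (by positivity)
        calc (8 : ℝ) ^ (4 * (Q.k + 1)) ≤ K := hT1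
          _ = 1 * K := (one_mul K).symm
          _ ≤ J * K := mul_le_mul_of_nonneg_right hJ1 hK0.le
    _ = (J : ℝ) ^ 5 * K ^ (4 * (Q.k + 1) + 1) * 1 := by ring
    _ ≤ (J : ℝ) ^ 5 * K ^ (4 * (Q.k + 1) + 1) * (K ^ Q.Cf3 * r) :=
        mul_le_mul_of_nonneg_left hrho (by positivity)
    _ = (J : ℝ) ^ 5 * K ^ (Q.Cf3 + 4 * (Q.k + 1) + 1) * r := by ring
    _ ≤ (J : ℝ) ^ 5 * (⌈K ^ (Q.Cf3 + 4 * (Q.k + 1) + 1)⌉₊ : ℝ) * r :=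
        mul_le_mul_of_nonneg_right (mul_le_mul_of_nonneg_left hc (by positivity)) hr0.le
    _ = ((J ^ 5 * ⌈K ^ (Q.Cf3 + 4 * (Q.k + 1) + 1)⌉₊ : ℕ) : ℝ) * r := by push_cast; ring

end MPar

end Pool.Agent.Lib.TC
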