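import Pool.Agent.Lib.MP_7b7e48_nt.T3S.X1
import Pool.Agent.Lib.MP_7b7e48_nt.T3S.WC

/-!
# T3S.X2 (70 minutes): the number of the exceptional pairs

`EX3 T s u` = the `n < N` in `T.SSet` with the missing pattern. `LE` (`T3D/Def.lean`) for `X`: there is a good cycle `(c, e, t)` of `(μ, ν, X)` and `i ≤ k` with `n = e i A i` or `n = e i B i` in the missing pattern; `n ∈ EX3` by `Good.setA`, `Good.setB` (`SSet`).
`ex_one`: for fixed tuples choose the data `(A j (j < k), B j (j < k), e k, i, side, n)` for every `X`: `X` is determined by the data (`ex_det`); `A j, B j ≤ exp (κ ^ 80)` (`AA3_le`, `comp3`: `B < A`), `e k ≤ N ^ (4 (k+1) e1)` (`ex_last`).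
As `BR3.V2.af_card` (`card_le_card_of_forall_subsingleton`). `ex_card`: sum over the pairs, `card_xy3`.
-/

set_option autoImplicit false

open Finset

namespace Pool.Agent.Lib.TC

open Pool.Agent.Lib.MP_45349e_nt.LS (lam)

namespace MPar

open Classical in
/-- the exceptional numbers -/
noncomputable def EX3 (T : Dat) (s u : ℝ) : Finset ℕ := (range T.N).filter fun n => T.SSet n ∧ T3D.Pat T.N s u n

variable {Q : MPar} {N : ℕ}

/-- the small data of a cycle of `X`: the short cofactors, `e k`, the index, the side and the value of an exceptional number -/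
private def X2_R (Q : MPar) (N : ℕ) (T : Dat) (μ : (Q.sys3 N).TX) (ν : (Q.sys3 N).TY) (X : ℕ)
    (x : (Fin Q.k → ℕ) × (Fin Q.k → ℕ) × ℕ × ℕ × Bool × ℕ) : Prop :=
  ∃ c e t, (Q.sys3 N).Good T c μ ν X e t ∧ (∀ j : Fin Q.k, (Q.sys3 N).AA T.N c μ ν X j = x.1 j) ∧
    (∀ j : Fin Q.k, (Q.sys3 N).BB T.N c μ ν (X - T.D * T.N) j = x.2.1 j) ∧ e Q.k = x.2.2.1 ∧ x.2.2.2.1 < Q.k + 1 ∧
    ((x.2.2.2.2.1 = true ∧ e x.2.2.2.1 * (Q.sys3 N).AA T.N c μ ν X x.2.2.2.1 = x.2.2.2.2.2) ∨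
      (x.2.2.2.2.1 = false ∧ e x.2.2.2.1 * (Q.sys3 N).BB T.N c μ ν (X - T.D * T.N) x.2.2.2.1 = x.2.2.2.2.2))

open Classical in
theorem ex_one (hQ : Q.Ok) (h : Q.Lg3 N) {T : Dat} (hT : T.N = N) (hD : 0 < T.D) (s u : ℝ) (B : ℕ) {μ : (Q.sys3 N).TX} (hμ : μ ∈ (Q.sys3 N).MX)
    {ν : (Q.sys3 N).TY} (hν : ν ∈ (Q.sys3 N).MY) :
    (((range (B + 1)).filter fun X => T.D * T.N < X ∧ T3D.LE (Q.sys3 N) T s u μ ν X).card : ℝ) ≤
      (Real.exp ((kp N) ^ 80) + 1) ^ (2 * Q.k) * ((N : ℝ) ^ (4 * ((Q.k : ℝ) + 1) * Q.e1) + 1) * (2 * (Q.k + 1)) * (EX3 T s u).card := by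
  subst hT
  set b : ℕ := ⌊Real.exp ((kp T.N) ^ 80)⌋₊ with hb
  set g : ℕ := ⌊(T.N : ℝ) ^ (4 * ((Q.k : ℝ) + 1) * Q.e1)⌋₊ with hg
  have hb1 : (b : ℝ) ≤ Real.exp ((kp T.N) ^ 80) := Nat.floor_le (Real.exp_pos _).le
  have hg1 : (g : ℝ) ≤ (T.N : ℝ) ^ (4 * ((Q.k : ℝ) + 1) * Q.e1) := Nat.floor_le (Real.rpow_nonneg (Nat.cast_nonneg _) _)
  let DD : Finset ((Fin Q.k → ℕ) × (Fin Q.k → ℕ) × ℕ × ℕ × Bool × ℕ) :=
    Fintype.piFinset (fun _ => range (b + 1)) ×ˢ Fintype.piFinset (fun _ => range (b + 1)) ×ˢ range (g + 1) ×ˢ range (Q.k + 1) ×ˢ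
      (univ : Finset Bool) ×ˢ EX3 T s u
  have hcard : ((range (B + 1)).filter fun X => T.D * T.N < X ∧ T3D.LE (Q.sys3 T.N) T s u μ ν X).card ≤ DD.card := by
    refine card_le_card_of_forall_subsingleton (fun X x => X2_R Q T.N T μ ν X x) ?_ ?_
    · intro X hX
      rw [mem_filter] at hX
      obtain ⟨_, hX1, c, e, t, hG, i, hi, hP⟩ := hX
      have hA : ∀ j : Fin Q.k, ((Q.sys3 T.N).AA T.N c μ ν X j : ℝ) ≤ Real.exp ((kp T.N) ^ 80) :=
        fun j => AA3_le hQ h.lg c hμ hν X j.2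
      have hB : ∀ j : Fin Q.k, ((Q.sys3 T.N).BB T.N c μ ν (X - T.D * T.N) j : ℝ) ≤ Real.exp ((kp T.N) ^ 80) := by
        intro j
        refine le_trans ?_ (hA j)
        exact_mod_cast (comp3 hQ h.lg c hμ hν X (X - T.D * T.N) j.2).1.le
      have he := ex_last hQ h rfl hD hμ hν hX1 hG
      rcases hP with hP | hP
      · refine ⟨(fun j => (Q.sys3 T.N).AA T.N c μ ν X j, fun j => (Q.sys3 T.N).BB T.N c μ ν (X - T.D * T.N) j, e Q.k, i, true,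
          e i * (Q.sys3 T.N).AA T.N c μ ν X i), ?_, c, e, t, hG, fun j => rfl, fun j => rfl, rfl, hi, Or.inl ⟨rfl, rfl⟩⟩
        simp only [DD, mem_product, mem_range, Fintype.mem_piFinset, mem_univ, true_and]
        refine ⟨fun j => Nat.lt_succ_of_le (Nat.le_floor (hA j)), fun j => Nat.lt_succ_of_le (Nat.le_floor (hB j)),
          Nat.lt_succ_of_le (Nat.le_floor he), hi, ?_⟩
        unfold EX3
        rw [mem_filter, mem_range]
        have h1 := hG.setA i hi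
        exact ⟨h1.2.1, h1, hP⟩
      · refine ⟨(fun j => (Q.sys3 T.N).AA T.N c μ ν X j, fun j => (Q.sys3 T.N).BB T.N c μ ν (X - T.D * T.N) j, e Q.k, i, false,
          e i * (Q.sys3 T.N).BB T.N c μ ν (X - T.D * T.N) i), ?_, c, e, t, hG, fun j => rfl, fun j => rfl, rfl, hi, Or.inr ⟨rfl, rfl⟩⟩
        simp only [DD, mem_product, mem_range, Fintype.mem_piFinset, mem_univ, true_and]
        refine ⟨fun j => Nat.lt_succ_of_le (Nat.le_floor (hA j)), fun j => Nat.lt_succ_of_le (Nat.le_floor (hB j)),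
          Nat.lt_succ_of_le (Nat.le_floor he), hi, ?_⟩
        unfold EX3
        rw [mem_filter, mem_range]
        have h1 := hG.setB i hi
        exact ⟨h1.2.1, h1, hP⟩
    · intro x _ X hX X' hX'
      obtain ⟨c, e, t, hG, hA, hB, he, hi, hn⟩ := hX.2
      obtain ⟨c', e', t', hG', hA', hB', he', hi', hn'⟩ := hX'.2
      refine ex_det hQ h rfl hμ hν hG hG' ?_ ?_ (he.trans he'.symm) hi ?_
      · intro j hj
        exact (hA ⟨j, hj⟩).trans (hA' ⟨j, hj⟩).symm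
      · intro j hj
        exact (hB ⟨j, hj⟩).trans (hB' ⟨j, hj⟩).symm
      · rcases hn with ⟨h1, h2⟩ | ⟨h1, h2⟩
        · rcases hn' with ⟨h3, h4⟩ | ⟨h3, h4⟩
          · exact Or.inl (h2.trans h4.symm)
          · rw [h1] at h3
            exact absurd h3 (by decide)
        · rcases hn' with ⟨h3, h4⟩ | ⟨h3, h4⟩
          · rw [h1] at h3
            exact absurd h3 (by decide)
          · exact Or.inr (h2.trans h4.symm)
  have hDD : DD.card = (b + 1) ^ Q.k * ((b + 1) ^ Q.k * ((g + 1) * ((Q.k + 1) * (2 * (EX3 T s u).card)))) := by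
    simp only [DD, card_product, Fintype.card_piFinset, prod_const, card_univ, Fintype.card_fin, card_range, Fintype.card_bool]
  have h1 : (((range (B + 1)).filter fun X => T.D * T.N < X ∧ T3D.LE (Q.sys3 T.N) T s u μ ν X).card : ℝ) ≤ (DD.card : ℝ) := by
    exact_mod_cast hcard
  refine h1.trans ?_
  rw [hDD]
  push_cast
  have q2 : ((b : ℝ) + 1) ^ Q.k ≤ (Real.exp ((kp T.N) ^ 80) + 1) ^ Q.k := pow_le_pow_left₀ (by positivity) (by linarith) _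
  calc ((b : ℝ) + 1) ^ Q.k * (((b : ℝ) + 1) ^ Q.k * (((g : ℝ) + 1) * (((Q.k : ℝ) + 1) * (2 * ((EX3 T s u).card : ℝ)))))
      ≤ (Real.exp ((kp T.N) ^ 80) + 1) ^ Q.k * ((Real.exp ((kp T.N) ^ 80) + 1) ^ Q.k *
        (((T.N : ℝ) ^ (4 * ((Q.k : ℝ) + 1) * Q.e1) + 1) * (((Q.k : ℝ) + 1) * (2 * ((EX3 T s u).card : ℝ))))) := by
        gcongr
    _ = _ := by ring

open Classical in
theorem ex_card (hQ : Q.Ok) (h : Q.Lg3 N) {T : Dat} (hT : T.N = N) (hD : 0 < T.D) (s u : ℝ) (B : ℕ) :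
    ∑ μ ∈ (Q.sys3 N).MX, ∑ ν ∈ (Q.sys3 N).MY, (((range (B + 1)).filter fun X => T.D * T.N < X ∧ T3D.LE (Q.sys3 N) T s u μ ν X).card : ℝ) ≤
      (N : ℝ) ^ (8 * ((Q.k : ℝ) + 1) * Q.e1) * ((Real.exp ((kp N) ^ 80) + 1) ^ (2 * Q.k) * ((N : ℝ) ^ (4 * ((Q.k : ℝ) + 1) * Q.e1) + 1) *
        (2 * (Q.k + 1)) * (EX3 T s u).card) := by
  set K : ℝ := (Real.exp ((kp N) ^ 80) + 1) ^ (2 * Q.k) * ((N : ℝ) ^ (4 * ((Q.k : ℝ) + 1) * Q.e1) + 1) *
        (2 * (Q.k + 1)) * (EX3 T s u).card with hK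
  have hK0 : 0 ≤ K := by
    have h1 : (0 : ℝ) ≤ (N : ℝ) ^ (4 * ((Q.k : ℝ) + 1) * Q.e1) := Real.rpow_nonneg (Nat.cast_nonneg _) _
    positivity
  calc ∑ μ ∈ (Q.sys3 N).MX, ∑ ν ∈ (Q.sys3 N).MY, (((range (B + 1)).filter fun X => T.D * T.N < X ∧ T3D.LE (Q.sys3 N) T s u μ ν X).card : ℝ)
      ≤ ∑ μ ∈ (Q.sys3 N).MX, ∑ ν ∈ (Q.sys3 N).MY, K :=
        sum_le_sum fun μ hμ => sum_le_sum fun ν hν => ex_one hQ h hT hD s u B hμ hν
    _ = ((Q.sys3 N).MX.card : ℝ) * (Q.sys3 N).MY.card * K := by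
        rw [sum_const, sum_const, nsmul_eq_mul, nsmul_eq_mul]
        ring
    _ ≤ _ := mul_le_mul_of_nonneg_right (card_xy3 hQ h) hK0

end MPar

end Pool.Agent.Lib.TC
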