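import Pool.Agent.Lib.MP_7b7e48_nt.BR3.V
import Pool.Agent.Lib.MP_7b7e48_nt.T3S.X2

/-!
# T3S.X3 (40 minutes): the exceptional pairs are rare

`ex_card` and numerics: copy the private `V_exp` of `BR3/V.lean` and the end of `br4_ac`: `(exp (κ ^ 80) + 1) ^ (2 k) ≤ N ^ e1`, `N ^ (4 (k+1) e1) + 1 ≤ N ^ (4 (k+1) e1 + e1)`, `2 (k + 1) ≤ N ^ e1` for large `N`: the product is
`≤ N ^ (1 - ε + (12 (k+1) + 3) e1) ≤ N ^ (1 - ε/2)`.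
-/

set_option autoImplicit false

open Finset Filter

namespace Pool.Agent.Lib.TC

open Pool.Agent.Lib.MP_45349e_nt.LS (lam)

namespace MPar

private theorem X3_kp : Tendsto (fun N : ℕ => kp N) atTop atTop :=
  (tendsto_rpow_atTop (by norm_num : (0 : ℝ) < 1 / 100)).comp (Real.tendsto_log_atTop.comp tendsto_natCast_atTop_atTop)

private theorem X3_exp (k : ℕ) {δ : ℝ} (hδ : 0 < δ) : ∀ᶠ N : ℕ in atTop, (kp N) ^ 100 = Real.log N →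
    (Real.exp ((kp N) ^ 80) + 1) ^ (2 * k) ≤ (N : ℝ) ^ δ := by
  filter_upwards [X3_kp.eventually_ge_atTop 1, X3_kp.eventually_ge_atTop (4 * k / δ), eventually_ge_atTop 1] with N h1 h2 hN hK
  have hN0 : (0 : ℝ) < N := by exact_mod_cast hN
  have h3 : Real.exp ((kp N) ^ 80) + 1 ≤ Real.exp (2 * (kp N) ^ 80) := by
    have h4 : (1 : ℝ) ≤ (kp N) ^ 80 := one_le_pow₀ h1
    have h5 : (1 : ℝ) ≤ Real.exp ((kp N) ^ 80) := Real.one_le_exp (by positivity)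
    have h6 : (2 : ℝ) ≤ Real.exp ((kp N) ^ 80) := by
      have := Real.add_one_le_exp ((kp N) ^ 80)
      linarith
    have h7 : Real.exp (2 * (kp N) ^ 80) = Real.exp ((kp N) ^ 80) * Real.exp ((kp N) ^ 80) := by
      rw [← Real.exp_add]; congr 1; ring
    rw [h7]
    nlinarith
  have h8 : (Real.exp ((kp N) ^ 80) + 1) ^ (2 * k) ≤ Real.exp (2 * (kp N) ^ 80) ^ (2 * k) :=
    pow_le_pow_left₀ (by positivity) h3 _
  refine h8.trans ?_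
  rw [← Real.exp_nat_mul, Real.rpow_def_of_pos hN0, ← hK]
  apply Real.exp_le_exp.2
  push_cast
  have h9 : 4 * (k : ℝ) ≤ δ * kp N := by
    rw [div_le_iff₀ hδ] at h2
    linarith
  have h10 : kp N ≤ (kp N) ^ 20 := by
    calc kp N = (kp N) ^ 1 := (pow_one _).symm
      _ ≤ _ := pow_le_pow_right₀ h1 (by norm_num)
  have h11 : 4 * (k : ℝ) ≤ δ * (kp N) ^ 20 := h9.trans (mul_le_mul_of_nonneg_left h10 hδ.le)
  have h12 : 4 * (k : ℝ) * (kp N) ^ 80 ≤ δ * (kp N) ^ 20 * (kp N) ^ 80 :=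
    mul_le_mul_of_nonneg_right h11 (by positivity)
  calc 2 * (k : ℝ) * (2 * (kp N) ^ 80) = 4 * (k : ℝ) * (kp N) ^ 80 := by ring
    _ ≤ δ * (kp N) ^ 20 * (kp N) ^ 80 := h12
    _ = (kp N) ^ 100 * δ := by ring

theorem ev_exb {Q : MPar} (hQ : Q.Ok) {ε : ℝ} (hε : 0 < ε) (he : 30 * ((Q.k : ℝ) + 1) * Q.e1 ≤ ε) : ∀ᶠ N : ℕ in atTop, Q.Lg3 N → ∀ T : Dat,
    T.N = N → 0 < T.D → ∀ (s u : ℝ) (B : ℕ), ((EX3 T s u).card : ℝ) ≤ (N : ℝ) ^ (1 - ε) → T3D.EXB (Q.sys3 N) T s u B (ε / 2) := by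
  have hδ := hQ.e0
  filter_upwards [X3_exp Q.k hδ, Pool.Agent.Lib.RH.ev_log_pow 0 Q.e1 hδ (2 * (Q.k + 1)) (by positivity), eventually_ge_atTop 1] with N h1 h4 hN h T hT hD s u B hE
  rw [pow_zero, mul_one] at h4
  have hN0 : (0 : ℝ) < N := by exact_mod_cast hN
  have hN1 : (1 : ℝ) ≤ N := by exact_mod_cast hN
  have hk : (1 : ℝ) ≤ (Q.k : ℝ) + 1 := by
    have : (0 : ℝ) ≤ Q.k := Nat.cast_nonneg _
    linarith
  have h5 := h1 h.lg.Kk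
  have h6 := ex_card hQ h hT hD s u B
  unfold T3D.EXB
  refine h6.trans ?_
  rw [hT]
  obtain ⟨δ, hd⟩ : ∃ δ : ℝ, δ = Q.e1 := ⟨_, rfl⟩
  obtain ⟨m, hm⟩ : ∃ m : ℝ, m = (Q.k : ℝ) + 1 := ⟨_, rfl⟩
  rw [← hd] at h4 h5 hδ he ⊢
  rw [← hm] at hk he h4 ⊢
  have one : ∀ s : ℝ, 0 ≤ s → 1 ≤ (N : ℝ) ^ s := fun s hs => Real.one_le_rpow hN1 hs
  have g2 : (2 : ℝ) ≤ (N : ℝ) ^ δ := by
    refine le_trans ?_ h4
    linarith
  have f4 : (N : ℝ) ^ (4 * m * δ) + 1 ≤ (N : ℝ) ^ (4 * m * δ + δ) := by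
    have a1 := one (4 * m * δ) (by positivity)
    calc (N : ℝ) ^ (4 * m * δ) + 1 ≤ (N : ℝ) ^ (4 * m * δ) * 2 := by linarith
      _ ≤ (N : ℝ) ^ (4 * m * δ) * (N : ℝ) ^ δ := mul_le_mul_of_nonneg_left g2 (by positivity)
      _ = _ := by rw [← Real.rpow_add hN0]
  have h7 : (N : ℝ) ^ (8 * m * δ) * ((Real.exp ((kp N) ^ 80) + 1) ^ (2 * Q.k) * ((N : ℝ) ^ (4 * m * δ) + 1) *
      (2 * m) * (EX3 T s u).card) ≤ (N : ℝ) ^ (8 * m * δ) * ((N : ℝ) ^ δ * (N : ℝ) ^ (4 * m * δ + δ) *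
      (N : ℝ) ^ δ * (N : ℝ) ^ (1 - ε)) := by
    gcongr
  refine h7.trans ?_
  rw [← Real.rpow_add hN0, ← Real.rpow_add hN0, ← Real.rpow_add hN0, ← Real.rpow_add hN0]
  refine Real.rpow_le_rpow_of_exponent_le hN1 ?_
  have : δ ≤ m * δ := by nlinarith
  nlinarith

end MPar

end Pool.Agent.Lib.TC
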