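import Pool.Agent.Lib.MP_7b7e48_nt.BR3.DT
import Pool.Agent.Lib.MP_7b7e48_nt.T3S.W
import Pool.Agent.Lib.MP_7b7e48_nt.T3S.S

/-!
# T3S.DT (50 minutes): sizes of `D`, `y1` and of the number of the colourings

Copies of `ev_D`, `ev_y1`, `ev_cc1` of `BR3/DT.lean` (`ev_J13`, `ev_J03`, `gG3`, `cc3_lo`). `ev_cc13`: `gG3 (4 C1 + 7014 + B)`: `D K ^ (56 (k+1) + B) ≤ K ^ (Cf3 + 60 (k + 1) + 4 C1 + 7013 + B)`.
-/

set_option autoImplicit false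

open Finset Filter

namespace Pool.Agent.Lib.TC

open Pool.Agent.Lib.TCF (rho)
open Pool.Agent.Lib.RH (Prm MM JJ)

namespace MPar

/-- all `D` which occur are small -/
theorem ev_D3 {P : Prm} (hP : P.Ok) {Q : MPar} (hQ : Q.Ok) (hC : Q.Cf3 + 4 * (Q.k + 1) + 4 * P.C1 + 7014 ≤ Q.Cp) :
    ∀ᶠ N : ℕ in atTop, Q.Lg N → Q.W ^ 2 * J13 P Q N ≤ Q.y0 N := by
  filter_upwards [ev_J13 hP hQ] with N h1 h
  obtain ⟨-, y2, -⟩ := y0_bd hQ h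
  have hK := h.K1
  have hK1 : 1 ≤ Real.log N := by linarith
  have h2 : ((Q.W ^ 2 * J13 P Q N : ℕ) : ℝ) ≤ Q.y0 N :=
    h1.trans ((pow_le_pow_right₀ hK1 (by omega)).trans y2)
  exact_mod_cast h2

/-- the number `y1 = ⌈log N⌉` -/
theorem ev_y13 {P : Prm} (hP : P.Ok) {Q : MPar} (hQ : Q.Ok) (hC : 3 ≤ Q.Cp) : ∀ᶠ N : ℕ in atTop, Q.Lg3 N →
    Real.log N ≤ (⌈Real.log N⌉₊ : ℝ) ∧ (⌈Real.log N⌉₊ : ℝ) ≤ 2 * Real.log N ∧ ⌈Real.log N⌉₊ ≤ Q.y0 N ∧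
    (⌈Real.log N⌉₊ : ℝ) ≤ (Real.log ((Q.W ^ 2 * N : ℕ) : ℝ)) ^ 2 ∧
    ((JJ (Q.W ^ 2 * N) : ℕ) : ℝ) ^ 3 * (4 * (⌈Real.log N⌉₊ : ℝ)) ^ (4 * Q.k + 4) ≤ J03 Q N * rho (T3B.famY3 (Q.sys3 N) (Q.WA N) (Q.WB N)) := by
  filter_upwards [ev_J03 hP hQ, ev_MM hP hQ 0, ev_logR Q.W hQ.W0] with N h1 h2 h3 h
  obtain ⟨-, y2, -⟩ := y0_bd hQ h.lg
  obtain ⟨-, -, -, j1⟩ := h2
  obtain ⟨l1, l2⟩ := h3
  have hK := h.lg.K1
  have hK1 : 1 ≤ Real.log N := by linarith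
  have hK0 : 0 ≤ Real.log N := by linarith
  have c1 : Real.log N ≤ (⌈Real.log N⌉₊ : ℝ) := Nat.le_ceil _
  have c2 : (⌈Real.log N⌉₊ : ℝ) ≤ 2 * Real.log N := by
    have := Nat.ceil_lt_add_one hK0
    linarith
  have c3 : 2 * Real.log N ≤ (Real.log N) ^ 2 := by nlinarith
  refine ⟨c1, c2, ?_, ?_, ?_⟩
  · have h4 : (⌈Real.log N⌉₊ : ℝ) ≤ Q.y0 N :=
      c2.trans (c3.trans ((pow_le_pow_right₀ hK1 (by omega)).trans y2))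
    exact_mod_cast h4
  · exact c2.trans (c3.trans (pow_le_pow_left₀ hK0 l1 _))
  · refine le_trans ?_ (h1 h)
    set J : ℝ := ((JJ (Q.W ^ 2 * N) : ℕ) : ℝ) with hJ
    set lR := Real.log ((Q.W ^ 2 * N : ℕ) : ℝ) with hlR
    have hJ0 : 0 ≤ J := Nat.cast_nonneg _
    have h5 : (2 : ℝ) ^ (4 * Q.k + 4) ≤ J := by
      refine le_trans ?_ j1
      have h6 : Real.exp (18 * ((Q.k : ℝ) + 1)) = Real.exp (9 / 2) ^ (4 * Q.k + 4) := by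
        rw [← Real.exp_nat_mul]
        congr 1
        push_cast
        ring
      rw [h6]
      refine pow_le_pow_left₀ (by norm_num) ?_ _
      have := Real.add_one_le_exp (9 / 2 : ℝ)
      linarith
    have h7 : (4 * (⌈Real.log N⌉₊ : ℝ)) ^ (4 * Q.k + 4) ≤ 2 ^ (4 * Q.k + 4) * (4 * lR) ^ (4 * Q.k + 4) := by
      rw [← mul_pow]
      refine pow_le_pow_left₀ (by positivity) ?_ _
      linarith
    have h8 : (4 * (Q.k + 1)) = 4 * Q.k + 4 := by ring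
    rw [h8]
    have hlR0 : 0 ≤ lR := hK0.trans l1
    calc J ^ 3 * (4 * (⌈Real.log N⌉₊ : ℝ)) ^ (4 * Q.k + 4) ≤ J ^ 3 * (2 ^ (4 * Q.k + 4) * (4 * lR) ^ (4 * Q.k + 4)) := by gcongr
      _ ≤ J ^ 3 * (J * (4 * lR) ^ (4 * Q.k + 4)) := by gcongr
      _ = J ^ 4 * (4 * lR) ^ (4 * Q.k + 4) := by ring

/-- the number of the colourings compared with `D` -/
theorem ev_cc13 {P : Prm} (hP : P.Ok) (B : ℕ) : ∃ k0 : ℕ, ∀ Q : MPar, Q.Ok → k0 ≤ Q.k → ∀ᶠ N : ℕ in atTop, Q.Lg N → ∀ D : ℕ,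
    D ≤ Q.W ^ 2 * J13 P Q N → (D : ℝ) * (Real.log N) ^ (56 * (Q.k + 1) + B) ≤ ((Q.sys3 N).CC.card : ℝ) := by
  obtain ⟨k0, hk0⟩ := gG3 (4 * P.C1 + 7014 + B)
  refine ⟨k0, fun Q hQ hk => ?_⟩
  filter_upwards [ev_J13 hP hQ] with N h1 h D hD
  have hg := hk0 Q hQ hk N h
  have hcc := cc3_lo hQ h
  have hK := h.K1
  have hK2 : 2 ≤ Real.log N := by linarith
  have hK0 : 0 < Real.log N := by linarith
  have h2 : (D : ℝ) ≤ (Real.log N) ^ (Q.Cf3 + 4 * (Q.k + 1) + 4 * P.C1 + 7013) := by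
    refine le_trans ?_ h1
    exact_mod_cast hD
  have h3 : (D : ℝ) * (Real.log N) ^ (56 * (Q.k + 1) + B) ≤
      (Real.log N) ^ (Q.Cf3 + 4 * (Q.k + 1) + 4 * P.C1 + 7013) * (Real.log N) ^ (56 * (Q.k + 1) + B) := by gcongr
  have h4 : (Real.log N) ^ (Q.Cf3 + 60 * (Q.k + 1) + (4 * P.C1 + 7014 + B)) =
      Real.log N * ((Real.log N) ^ (Q.Cf3 + 4 * (Q.k + 1) + 4 * P.C1 + 7013) * (Real.log N) ^ (56 * (Q.k + 1) + B)) := by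
    rw [← pow_add, ← pow_succ']
    congr 1
    ring
  rw [h4] at hg
  have h5 : 2 * ((Real.log N) ^ (Q.Cf3 + 4 * (Q.k + 1) + 4 * P.C1 + 7013) * (Real.log N) ^ (56 * (Q.k + 1) + B)) ≤
      Real.log N * ((Real.log N) ^ (Q.Cf3 + 4 * (Q.k + 1) + 4 * P.C1 + 7013) * (Real.log N) ^ (56 * (Q.k + 1) + B)) :=
    mul_le_mul_of_nonneg_right hK2 (by positivity)
  linarith

end MPar

end Pool.Agent.Lib.TC
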