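import Pool.Agent.Lib.MP_7b7e48_nt.T3S.XR

/-!
# T3S.IX (50 minutes): the products of the marks of `X` of a slot

`SEL3` = the selected items. `kX3_iff`: for `i < k` the mark `e` has the colour `i` iff `e / (nit + 2) = i` and (`e % (nit+2) < nit` is selected, or `nit ≤ e % (nit + 2)` and the number `cnt3` is even) (see `BR3/I1.lean`: `kX_iff`; `col j = min j k`).
`oX3_eq`: the index set is the image of `SEL3 ∪ (if Even cnt3 then {nit, nit + 1} else ∅)` under `t ↦ i (nit + 2) + t` (`prod_bij` as in `I1.oX_eq`, `SEL3 ⊆ range nit` by `sel3_sub`).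
-/

set_option autoImplicit false

open Finset

namespace Pool.Agent.Lib.TC

namespace MPar

variable {Q : MPar} {N : ℕ}

/-- the selected items of the slot `i` -/
noncomputable def SEL3 (Q : MPar) (N : ℕ) (c : (Q.sys3 N).Col) (μ : (Q.sys3 N).TX) (ν : (Q.sys3 N).TY) (i : ℕ) : Finset ℕ :=
  Q.sel3 N c (fun f => cell N (μ.2.1 f)) (fun f => cell N (ν.2.1 f)) μ.2.2 ν.2.2 i

/-- the number of the marks of colour `i` without the fixers -/
noncomputable def CN3 (Q : MPar) (N : ℕ) (c : (Q.sys3 N).Col) (μ : (Q.sys3 N).TX) (ν : (Q.sys3 N).TY) (i : ℕ) : ℕ :=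
  Q.cnt3 N c (fun f => cell N (μ.2.1 f)) (fun f => cell N (ν.2.1 f)) μ.2.2 ν.2.2 i

theorem SEL3_sub (hQ : Q.Ok) (h : Q.Lg N) (c : (Q.sys3 N).Col) {μ : (Q.sys3 N).TX}
    (hμ : μ ∈ (Q.sys3 N).MX) {ν : (Q.sys3 N).TY} (hν : ν ∈ (Q.sys3 N).MY) {i : ℕ} (hi : i < Q.k) : SEL3 Q N c μ ν i ⊆ range (Q.nit N) := by
  unfold MS.MX at hμ
  unfold MS.MY at hν
  rw [mem_product, mem_product] at hμ hν
  exact sel3_sub hQ h hμ.2.2 hν.2.2 c hμ.2.1 hν.2.1 hi

private theorem IX_dm {n : ℕ} (i : ℕ) {t : ℕ} (ht : t < n) : (i * n + t) / n = i ∧ (i * n + t) % n = t := by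
  have hn : 0 < n := by omega
  constructor
  · rw [Nat.add_comm, Nat.add_mul_div_right _ _ hn, Nat.div_eq_of_lt ht, zero_add]
  · rw [Nat.add_comm, Nat.add_mul_mod_self_right, Nat.mod_eq_of_lt ht]

private theorem IX_lt {k n i : ℕ} (hi : i < k) {t : ℕ} (ht : t < n) : i * n + t < k * n := by
  calc i * n + t < i * n + n := by omega
    _ = (i + 1) * n := by ring
    _ ≤ k * n := Nat.mul_le_mul_right _ hi

theorem kX3_iff (c : (Q.sys3 N).Col) (μ : (Q.sys3 N).TX) (ν : (Q.sys3 N).TY) {i : ℕ} (hi : i < Q.k) (e : Fin (Q.sys3 N).nX) :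
    ((Q.sys3 N).kX N c μ ν e : ℕ) = i ↔ (e : ℕ) / (Q.nit N + 2) = i ∧
      (((e : ℕ) % (Q.nit N + 2) < Q.nit N ∧ (e : ℕ) % (Q.nit N + 2) ∈ SEL3 Q N c μ ν i) ∨
        (Q.nit N ≤ (e : ℕ) % (Q.nit N + 2) ∧ Even (CN3 Q N c μ ν i))) := by
  have he : (e : ℕ) / (Q.nit N + 2) < Q.k := by
    have h1 : (e : ℕ) < Q.k * (Q.nit N + 2) := e.2
    exact Nat.div_lt_of_lt_mul (by rwa [Nat.mul_comm] at h1)
  have hk : (Q.sys3 N).kX N c μ ν e =
      if ((e : ℕ) % (Q.nit N + 2) < Q.nit N ∧ (e : ℕ) % (Q.nit N + 2) ∈ SEL3 Q N c μ ν ((e : ℕ) / (Q.nit N + 2))) ∨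
        (Q.nit N ≤ (e : ℕ) % (Q.nit N + 2) ∧ Even (CN3 Q N c μ ν ((e : ℕ) / (Q.nit N + 2)))) then
        Q.col ((e : ℕ) / (Q.nit N + 2)) else Q.col Q.k := rfl
  rw [hk]
  constructor
  · intro h1
    by_cases h2 : ((e : ℕ) % (Q.nit N + 2) < Q.nit N ∧ (e : ℕ) % (Q.nit N + 2) ∈ SEL3 Q N c μ ν ((e : ℕ) / (Q.nit N + 2))) ∨
        (Q.nit N ≤ (e : ℕ) % (Q.nit N + 2) ∧ Even (CN3 Q N c μ ν ((e : ℕ) / (Q.nit N + 2))))
    · rw [if_pos h2] at h1
      have h3 : (e : ℕ) / (Q.nit N + 2) = i := by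
        unfold col at h1
        simp only at h1
        omega
      rw [h3] at h2
      exact ⟨h3, h2⟩
    · rw [if_neg h2] at h1
      unfold col at h1
      simp only at h1
      omega
  · rintro ⟨h1, h2⟩
    rw [h1, if_pos h2]
    unfold col
    simp only
    omega

theorem oX3_eq (hQ : Q.Ok) (h : Q.Lg N) {M : Type*} [CommMonoid M] (F : ℕ → M) (c : (Q.sys3 N).Col) {μ : (Q.sys3 N).TX}
    (hμ : μ ∈ (Q.sys3 N).MX) {ν : (Q.sys3 N).TY} (hν : ν ∈ (Q.sys3 N).MY) {i : ℕ} (hi : i < Q.k) :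
    (Q.sys3 N).oX N F c μ ν i = (∏ t ∈ SEL3 Q N c μ ν i, F (Q.gx3 N μ.2.2 i t)) *
      if Even (CN3 Q N c μ ν i) then F (Q.gx3 N μ.2.2 i (Q.nit N)) * F (Q.gx3 N μ.2.2 i (Q.nit N + 1)) else 1 := by
  have hs := SEL3_sub hQ h c hμ hν hi
  have hlt0 : ∀ t ∈ SEL3 Q N c μ ν i, t < Q.nit N := fun t ht => mem_range.1 (hs ht)
  obtain ⟨P, hP⟩ : ∃ P : Finset ℕ, P = if Even (CN3 Q N c μ ν i) then {Q.nit N, Q.nit N + 1} else ∅ := ⟨_, rfl⟩
  have hPm : ∀ t, t ∈ P ↔ (Q.nit N ≤ t ∧ t < Q.nit N + 2) ∧ Even (CN3 Q N c μ ν i) := by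
    intro t
    rw [hP]
    split_ifs with h1
    · rw [mem_insert, mem_singleton]
      constructor
      · intro h2
        exact ⟨by omega, h1⟩
      · rintro ⟨h2, _⟩
        omega
    · constructor
      · intro h2
        exact absurd h2 (notMem_empty _)
      · rintro ⟨_, h2⟩
        exact absurd h2 h1
  have hdis : Disjoint (SEL3 Q N c μ ν i) P := by
    rw [disjoint_left]
    intro t h1 h2
    have h3 := hlt0 t h1
    have h4 := ((hPm t).1 h2).1.1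
    omega
  have hP2 : ∏ t ∈ P, F (Q.gx3 N μ.2.2 i t) =
      if Even (CN3 Q N c μ ν i) then F (Q.gx3 N μ.2.2 i (Q.nit N)) * F (Q.gx3 N μ.2.2 i (Q.nit N + 1)) else 1 := by
    rw [hP]
    split_ifs with h1
    · rw [prod_pair (by omega)]
    · rw [prod_empty]
  rw [← hP2, ← prod_union hdis]
  have hlt : ∀ t ∈ SEL3 Q N c μ ν i ∪ P, t < Q.nit N + 2 := by
    intro t ht
    rw [mem_union] at ht
    rcases ht with h1 | h1
    · have := hlt0 t h1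
      omega
    · exact ((hPm t).1 h1).1.2
  unfold MS.oX
  symm
  refine prod_bij (fun t ht => (⟨i * (Q.nit N + 2) + t, IX_lt hi (hlt t ht)⟩ : Fin (Q.sys3 N).nX)) ?_ ?_ ?_ ?_
  · intro t ht
    rw [mem_filter]
    refine ⟨mem_univ _, ?_⟩
    rw [kX3_iff c μ ν hi]
    obtain ⟨d1, d2⟩ := IX_dm i (hlt t ht)
    refine ⟨d1, ?_⟩
    change ((i * (Q.nit N + 2) + t) % (Q.nit N + 2) < Q.nit N ∧ (i * (Q.nit N + 2) + t) % (Q.nit N + 2) ∈ SEL3 Q N c μ ν i) ∨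
      (Q.nit N ≤ (i * (Q.nit N + 2) + t) % (Q.nit N + 2) ∧ Even (CN3 Q N c μ ν i))
    rw [d2]
    rw [mem_union] at ht
    rcases ht with h1 | h1
    · exact Or.inl ⟨hlt0 t h1, h1⟩
    · have h2 := (hPm t).1 h1
      exact Or.inr ⟨h2.1.1, h2.2⟩
  · intro a _ b _ hab
    have := congrArg Fin.val hab
    simp only at this
    omega
  · intro e he
    rw [mem_filter, kX3_iff c μ ν hi] at he
    refine ⟨(e : ℕ) % (Q.nit N + 2), ?_, ?_⟩
    · rw [mem_union]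
      rcases he.2.2 with h1 | h1
      · exact Or.inl h1.2
      · exact Or.inr ((hPm _).2 ⟨⟨h1.1, Nat.mod_lt _ (Nat.succ_pos _)⟩, h1.2⟩)
    · ext
      change i * (Q.nit N + 2) + (e : ℕ) % (Q.nit N + 2) = (e : ℕ)
      rw [← he.2.1, Nat.mul_comm]
      exact Nat.div_add_mod _ _
  · intro t ht
    unfold gx3 ext1
    have h1 : i * (Q.nit N + 2) + t < Q.k * (Q.nit N + 2) := IX_lt hi (hlt t ht)
    rw [dif_pos h1]
    rfl

end MPar

end Pool.Agent.Lib.TC
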