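import Pool.Agent.Lib.MP_7b7e48_nt.T3S.IX

/-!
# T3S.IY (50 minutes): the products of the marks of `Y` of a slot

The same as `IX` (see also `I1.kY_iff`, `I1.oY_eq`): for `i < k` the mark `e` of `Y` has the colour `i` iff `e / (np + 2) = i` and `e % (np + 2)` is `np`, or `< np` and selected, or `np + 1` and `cnt3` is even. Index set: `{np} ∪ {t ∈ SEL3, t < np} ∪ (if Even then {np + 1})`.
-/

set_option autoImplicit false

open Finset

namespace Pool.Agent.Lib.TC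

namespace MPar

variable {Q : MPar} {N : ℕ}

private theorem IY_dm {n : ℕ} (i : ℕ) {t : ℕ} (ht : t < n) : (i * n + t) / n = i ∧ (i * n + t) % n = t := by
  have hn : 0 < n := by omega
  constructor
  · rw [Nat.add_comm, Nat.add_mul_div_right _ _ hn, Nat.div_eq_of_lt ht, zero_add]
  · rw [Nat.add_comm, Nat.add_mul_mod_self_right, Nat.mod_eq_of_lt ht]

private theorem IY_lt {k n i : ℕ} (hi : i < k) {t : ℕ} (ht : t < n) : i * n + t < k * n := by
  calc i * n + t < i * n + n := by omega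
    _ = (i + 1) * n := by ring
    _ ≤ k * n := Nat.mul_le_mul_right _ hi

theorem kY3_iff (c : (Q.sys3 N).Col) (μ : (Q.sys3 N).TX) (ν : (Q.sys3 N).TY) {i : ℕ} (hi : i < Q.k) (e : Fin (Q.sys3 N).nY) :
    ((Q.sys3 N).kY N c μ ν e : ℕ) = i ↔ (e : ℕ) / (Q.np N + 2) = i ∧
      ((e : ℕ) % (Q.np N + 2) = Q.np N ∨ ((e : ℕ) % (Q.np N + 2) < Q.np N ∧ (e : ℕ) % (Q.np N + 2) ∈ SEL3 Q N c μ ν i) ∨
        ((e : ℕ) % (Q.np N + 2) = Q.np N + 1 ∧ Even (CN3 Q N c μ ν i))) := by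
  have he : (e : ℕ) / (Q.np N + 2) < Q.k := by
    have h1 : (e : ℕ) < Q.k * (Q.np N + 2) := e.2
    exact Nat.div_lt_of_lt_mul (by rwa [Nat.mul_comm] at h1)
  have hk : (Q.sys3 N).kY N c μ ν e = if (e : ℕ) % (Q.np N + 2) = Q.np N ∨
      ((e : ℕ) % (Q.np N + 2) < Q.np N ∧ (e : ℕ) % (Q.np N + 2) ∈ SEL3 Q N c μ ν ((e : ℕ) / (Q.np N + 2))) ∨
      ((e : ℕ) % (Q.np N + 2) = Q.np N + 1 ∧ Even (CN3 Q N c μ ν ((e : ℕ) / (Q.np N + 2)))) then
    Q.col ((e : ℕ) / (Q.np N + 2)) else Q.col Q.k := rfl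
  rw [hk]
  constructor
  · intro h1
    by_cases h2 : (e : ℕ) % (Q.np N + 2) = Q.np N ∨
      ((e : ℕ) % (Q.np N + 2) < Q.np N ∧ (e : ℕ) % (Q.np N + 2) ∈ SEL3 Q N c μ ν ((e : ℕ) / (Q.np N + 2))) ∨
      ((e : ℕ) % (Q.np N + 2) = Q.np N + 1 ∧ Even (CN3 Q N c μ ν ((e : ℕ) / (Q.np N + 2))))
    · rw [if_pos h2] at h1
      have h3 : (e : ℕ) / (Q.np N + 2) = i := by
        unfold col at h1
        simp only at h1
        omega
      rw [h3] at h2
      exact ⟨h3, h2⟩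
    · rw [if_neg h2] at h1
      unfold col at h1
      simp only at h1
      omega
  · rintro ⟨h1, h2⟩
    rw [h1, if_pos h2]
    unfold col
    simp only
    omega

theorem oY3_eq {M : Type*} [CommMonoid M] (F : ℕ → M) (c : (Q.sys3 N).Col) (μ : (Q.sys3 N).TX) (ν : (Q.sys3 N).TY) {i : ℕ} (hi : i < Q.k) :
    (Q.sys3 N).oY N F c μ ν i = F (Q.gy3 N ν.2.2 i (Q.np N)) * (∏ t ∈ (SEL3 Q N c μ ν i).filter (fun t => t < Q.np N), F (Q.gy3 N ν.2.2 i t)) *
      if Even (CN3 Q N c μ ν i) then F (Q.gy3 N ν.2.2 i (Q.np N + 1)) else 1 := by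
  classical
  set A : Finset ℕ := (SEL3 Q N c μ ν i).filter (fun t => t < Q.np N) with hA
  set B : Finset ℕ := if Even (CN3 Q N c μ ν i) then {Q.np N + 1} else ∅ with hB
  have hni : Q.np N ∉ A := by
    rw [hA, mem_filter]
    rintro ⟨_, h1⟩
    exact lt_irrefl _ h1
  have hmB : ∀ t, t ∈ B ↔ t = Q.np N + 1 ∧ Even (CN3 Q N c μ ν i) := by
    intro t
    rw [hB]
    split_ifs with h1
    · simp [h1]
    · simp [h1]
  have hdis : Disjoint (insert (Q.np N) A) B := by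
    rw [disjoint_left]
    intro t h1 h2
    rw [hmB] at h2
    rw [mem_insert, hA, mem_filter] at h1
    rcases h1 with h1 | h1 <;> omega
  have hprodB : (if Even (CN3 Q N c μ ν i) then F (Q.gy3 N ν.2.2 i (Q.np N + 1)) else 1) = ∏ t ∈ B, F (Q.gy3 N ν.2.2 i t) := by
    rw [hB]
    split_ifs with h1
    · rw [prod_singleton]
    · rw [prod_empty]
  rw [hprodB, ← prod_insert (f := fun t => F (Q.gy3 N ν.2.2 i t)) hni, ← prod_union hdis]
  have hin : ∀ t, t ∈ insert (Q.np N) A ∪ B ↔ (t = Q.np N ∨ (t < Q.np N ∧ t ∈ SEL3 Q N c μ ν i) ∨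
      (t = Q.np N + 1 ∧ Even (CN3 Q N c μ ν i))) := by
    intro t
    rw [mem_union, mem_insert, hmB, hA, mem_filter]
    constructor
    · rintro ((h1 | ⟨h1, h2⟩) | h1)
      · exact Or.inl h1
      · exact Or.inr (Or.inl ⟨h2, h1⟩)
      · exact Or.inr (Or.inr h1)
    · rintro (h1 | ⟨h1, h2⟩ | h1)
      · exact Or.inl (Or.inl h1)
      · exact Or.inl (Or.inr ⟨h2, h1⟩)
      · exact Or.inr h1
  have hlt : ∀ t ∈ insert (Q.np N) A ∪ B, t < Q.np N + 2 := by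
    intro t ht
    rcases (hin t).1 ht with h1 | ⟨h1, _⟩ | ⟨h1, _⟩
    · exact h1 ▸ Nat.lt_add_of_pos_right (by norm_num)
    · exact h1.trans (Nat.lt_add_of_pos_right (by norm_num))
    · exact h1 ▸ Nat.lt_succ_self _
  unfold MS.oY
  symm
  refine prod_bij (fun t ht => (⟨i * (Q.np N + 2) + t, IY_lt hi (hlt t ht)⟩ : Fin (Q.sys3 N).nY)) ?_ ?_ ?_ ?_
  · intro t ht
    rw [mem_filter]
    refine ⟨mem_univ _, ?_⟩
    rw [kY3_iff c μ ν hi]
    obtain ⟨d1, d2⟩ := IY_dm i (hlt t ht)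
    refine ⟨d1, ?_⟩
    have h2 := (hin t).1 ht
    change (i * (Q.np N + 2) + t) % (Q.np N + 2) = _ ∨ ((i * (Q.np N + 2) + t) % (Q.np N + 2) < _ ∧ (i * (Q.np N + 2) + t) % (Q.np N + 2) ∈ _) ∨
      ((i * (Q.np N + 2) + t) % (Q.np N + 2) = _ ∧ _)
    rw [d2]
    exact h2
  · intro a _ b _ hab
    have := congrArg Fin.val hab
    simp only at this
    omega
  · intro e he
    rw [mem_filter, kY3_iff c μ ν hi] at he
    refine ⟨(e : ℕ) % (Q.np N + 2), (hin _).2 he.2.2, ?_⟩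
    ext
    change i * (Q.np N + 2) + (e : ℕ) % (Q.np N + 2) = (e : ℕ)
    rw [← he.2.1, Nat.mul_comm]
    exact Nat.div_add_mod _ _
  · intro t ht
    unfold gy3 ext1
    have h1 : i * (Q.np N + 2) + t < Q.k * (Q.np N + 2) := IY_lt hi (hlt t ht)
    rw [dif_pos h1]
    rfl

end MPar

end Pool.Agent.Lib.TC
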