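import Pool.Agent.Lib.MP_7b7e48_nt.T3D.Lab
import Pool.Agent.Lib.MP_7b7e48_nt.T3D.Def
import Pool.Agent.Lib.MP_7b7e48_nt.TC.T06
import Pool.Agent.Lib.MP_7b7e48_nt.T3S.WY
import Pool.Agent.Lib.MP_7b7e48_nt.T3S.AB
import Pool.Agent.Lib.MP_7b7e48_nt.T3S.J2

/-!
# T3S.X1 (60 minutes): a cycle is determined by its small data and by one exceptional number

`S = Q.sys3 N`, the tuples `μ`, `ν` and `T` are fixed. PROOF of `ex_det`: `T06` (`m = k + 1 ≥ 2`, `al = ext1 μ.1`, `be = ext1 ν.1`; the `A i`, `B i` are positive since `SSet (e i A i)`, `SSet (e i B i)`: `Good.setA`, `setB`, `Nat.pos_of_mul_pos_left`;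
`ext1 μ.1 i`, `ext1 ν.1 i > 0`: `w3_ok`, `wy3_facts`): so `A i = A' i` for all `i ≤ k`, and `X = ∏ al i A i = X'` (`Good.prodA`). See `BR3.V1.af_det`.
`ex_last`: `e k AA k < N ≤ D N < X = ∏_{i ≤ k} α i AA i` (`Cyc.ltE`), so `e k < ∏_{i ≤ k} α i ∏_{i < k} AA i ≤ prX id μ ≤ N ^ (4 (k+1) e1)`: see `BR3.V2`, `V2_prod`, `rel_bd` (there is a private copy of everything needed), `small_x3`.
-/

set_option autoImplicit false

open Finset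

namespace Pool.Agent.Lib.TC

namespace MPar

variable {Q : MPar} {N : ℕ}

private theorem X1_mx {μ : (Q.sys3 N).TX} (hμ : μ ∈ (Q.sys3 N).MX) :
    (∀ i : Fin ((Q.sys3 N).k + 1), μ.1 i ∈ Q.WX3 N i) ∧ (∀ f : Fin (Q.sys3 N).n0, μ.2.1 f ∈ (Q.sys3 N).FX f) ∧
      ∀ e : Fin (Q.sys3 N).nX, μ.2.2 e ∈ (Q.sys3 N).OX e := by
  unfold MS.MX at hμ
  rw [mem_product, mem_product, Fintype.mem_piFinset, Fintype.mem_piFinset, Fintype.mem_piFinset] at hμ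
  exact ⟨fun i => hμ.1 i, fun f => hμ.2.1 f, fun e => hμ.2.2 e⟩

private theorem X1_my {ν : (Q.sys3 N).TY} (hν : ν ∈ (Q.sys3 N).MY)
    (i : Fin ((Q.sys3 N).k + 1)) : ν.1 i ∈ Q.WY3 N i := by
  unfold MS.MY at hν
  rw [mem_product, Fintype.mem_piFinset] at hν
  exact hν.1 i

private theorem X1_px (hQ : Q.Ok) (h : Q.Lg3 N) {μ : (Q.sys3 N).TX} (hμ : μ ∈ (Q.sys3 N).MX) (i : ℕ) : 0 < ext1 μ.1 i := by
  unfold ext1
  split_ifs with hi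
  · exact (w3_ok hQ h (Nat.lt_succ_iff.1 hi) (Or.inl ((X1_mx hμ).1 ⟨i, hi⟩))).1.pos
  · exact Nat.one_pos

private theorem X1_py (hQ : Q.Ok) (h : Q.Lg3 N) {ν : (Q.sys3 N).TY} (hν : ν ∈ (Q.sys3 N).MY) (i : ℕ) : 0 < ext1 ν.1 i := by
  unfold ext1
  split_ifs with hi
  · exact (wy3_facts hQ h (Nat.lt_succ_iff.1 hi) (X1_my hν ⟨i, hi⟩)).1
  · exact Nat.one_pos

/-- the product of the short cofactors is at most the product of the marks -/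
private theorem X1_prod (hQ : Q.Ok) (h : Q.Lg3 N) (c : (Q.sys3 N).Col) {μ : (Q.sys3 N).TX} (hμ : μ ∈ (Q.sys3 N).MX)
    (ν : (Q.sys3 N).TY) (X : ℕ) :
    (∏ i ∈ range (Q.k + 1), ext1 μ.1 i) * ∏ i ∈ range Q.k, (Q.sys3 N).AA N c μ ν X i ≤ (Q.sys3 N).prX id μ := by
  obtain ⟨_, h2, h3⟩ := X1_mx hμ
  have p2 : ∀ f, 1 ≤ μ.2.1 f := fun f => (nw3 hQ h.lg (Or.inl ⟨f, h2 f⟩)).1.one_lt.le
  have p3 : ∀ e, 1 ≤ μ.2.2 e := fun e => (nw3 hQ h.lg (Or.inr (Or.inr (Or.inl ⟨e, h3 e⟩)))).1.one_lt.le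
  have e1 : ∏ i ∈ range (Q.k + 1), ext1 μ.1 i = ∏ i, μ.1 i := by
    change ∏ i ∈ range ((Q.sys3 N).k + 1), ext1 μ.1 i = ∏ i, μ.1 i
    rw [← Fin.prod_univ_eq_prod_range (fun i => ext1 μ.1 i) ((Q.sys3 N).k + 1)]
    refine prod_congr rfl fun i _ => ?_
    unfold ext1
    rw [dif_pos i.2]
  have e2 : ∏ i ∈ range Q.k, (Q.sys3 N).AA N c μ ν X i = (∏ i ∈ range Q.k, (Q.sys3 N).fX id c μ i) * ∏ i ∈ range Q.k, (Q.sys3 N).oX N id c μ ν i := by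
    rw [← prod_mul_distrib]
    refine prod_congr rfl fun i hi => ?_
    have hi' : i < (Q.sys3 N).k := mem_range.1 hi
    unfold MS.AA
    rw [if_pos hi']
  have e3 : ∏ i ∈ range Q.k, (Q.sys3 N).fX id c μ i ≤ ∏ f, μ.2.1 f := by
    have h4 : ∏ i ∈ range (Q.k + 1), (Q.sys3 N).fX id c μ i = ∏ f, μ.2.1 f := by
      unfold MS.fX
      exact prod_fiberwise_of_maps_to (fun f _ => mem_range.2 (c (Sum.inl f)).2) _
    rw [← h4, prod_range_succ]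
    refine Nat.le_mul_of_pos_right _ ?_
    unfold MS.fX
    exact prod_pos fun f _ => p2 f
  have e4 : ∏ i ∈ range Q.k, (Q.sys3 N).oX N id c μ ν i ≤ ∏ e, μ.2.2 e := by
    have h4 : ∏ i ∈ range (Q.k + 1), (Q.sys3 N).oX N id c μ ν i = ∏ e, μ.2.2 e := by
      unfold MS.oX
      exact prod_fiberwise_of_maps_to (fun e _ => mem_range.2 ((Q.sys3 N).kX N c μ ν e).2) _
    rw [← h4, prod_range_succ]
    refine Nat.le_mul_of_pos_right _ ?_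
    unfold MS.oX
    exact prod_pos fun e _ => p3 e
  rw [e1, e2]
  change (∏ i, μ.1 i) * _ ≤ (∏ i, μ.1 i) * (∏ f, μ.2.1 f) * ∏ e, μ.2.2 e
  rw [mul_assoc]
  exact Nat.mul_le_mul_left _ (Nat.mul_le_mul e3 e4)


theorem ex_det (hQ : Q.Ok) (h : Q.Lg3 N) {T : Dat} (hT : T.N = N) {μ : (Q.sys3 N).TX} (hμ : μ ∈ (Q.sys3 N).MX) {ν : (Q.sys3 N).TY}
    (hν : ν ∈ (Q.sys3 N).MY) {X X' : ℕ} {c c' : (Q.sys3 N).Col} {e t e' t' : ℕ → ℕ} (g : (Q.sys3 N).Good T c μ ν X e t)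
    (g' : (Q.sys3 N).Good T c' μ ν X' e' t')
    (hA : ∀ j < Q.k, (Q.sys3 N).AA T.N c μ ν X j = (Q.sys3 N).AA T.N c' μ ν X' j)
    (hB : ∀ j < Q.k, (Q.sys3 N).BB T.N c μ ν (X - T.D * T.N) j = (Q.sys3 N).BB T.N c' μ ν (X' - T.D * T.N) j)
    (he : e Q.k = e' Q.k) {i : ℕ} (hi : i < Q.k + 1)
    (hn : e i * (Q.sys3 N).AA T.N c μ ν X i = e' i * (Q.sys3 N).AA T.N c' μ ν X' i ∨
      e i * (Q.sys3 N).BB T.N c μ ν (X - T.D * T.N) i = e' i * (Q.sys3 N).BB T.N c' μ ν (X' - T.D * T.N) i) : X = X' := by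
  subst hT
  have cy := g.cyc
  change Cyc T.N (Q.k + 1) ((Q.sys3 T.N).AA T.N c μ ν X) ((Q.sys3 T.N).BB T.N c μ ν (X - T.D * T.N)) (ext1 μ.1) (ext1 ν.1) e t at cy
  have cy' := g'.cyc
  change Cyc T.N (Q.k + 1) ((Q.sys3 T.N).AA T.N c' μ ν X') ((Q.sys3 T.N).BB T.N c' μ ν (X' - T.D * T.N)) (ext1 μ.1) (ext1 ν.1) e' t' at cy'
  have pA : ∀ i < Q.k + 1, 0 < (Q.sys3 T.N).AA T.N c μ ν X i := by
    intro i hi
    have h2 := (g.setA i hi).1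
    change 0 < e i * (Q.sys3 T.N).AA T.N c μ ν X i at h2
    exact Nat.pos_of_mul_pos_left h2
  have pB : ∀ i < Q.k + 1, 0 < (Q.sys3 T.N).BB T.N c μ ν (X - T.D * T.N) i := by
    intro i hi
    have h2 := (g.setB i hi).1
    change 0 < e i * (Q.sys3 T.N).BB T.N c μ ν (X - T.D * T.N) i at h2
    exact Nat.pos_of_mul_pos_left h2
  have hk := hQ.k1
  have hres := T06 (by omega) cy cy' pA pB (fun i _ => X1_px hQ h hμ i) (fun i _ => X1_py hQ h hν i)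
    (fun i hi => by
      have hi' : i < Q.k := by omega
      exact ⟨hA i hi', hB i hi'⟩)
    (by rw [Nat.add_sub_cancel]; exact he) (i₀ := i) hi hn
  have h6 := g.prodA
  change ∏ i ∈ range (Q.k + 1), ext1 μ.1 i * (Q.sys3 T.N).AA T.N c μ ν X i = X at h6
  have h6' := g'.prodA
  change ∏ i ∈ range (Q.k + 1), ext1 μ.1 i * (Q.sys3 T.N).AA T.N c' μ ν X' i = X' at h6'
  rw [← h6, ← h6']
  refine prod_congr rfl fun j hj => ?_
  have h7 := (hres j (mem_range.1 hj)).2.2.1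
  rw [h7]

theorem ex_last (hQ : Q.Ok) (h : Q.Lg3 N) {T : Dat} (hT : T.N = N) (hD : 0 < T.D) {μ : (Q.sys3 N).TX} (hμ : μ ∈ (Q.sys3 N).MX) {ν : (Q.sys3 N).TY}
    (hν : ν ∈ (Q.sys3 N).MY) {X : ℕ} (hX : T.D * T.N < X) {c : (Q.sys3 N).Col} {e t : ℕ → ℕ} (g : (Q.sys3 N).Good T c μ ν X e t) :
    (e Q.k : ℝ) ≤ (N : ℝ) ^ (4 * ((Q.k : ℝ) + 1) * Q.e1) := by
  subst hT
  have h3 : T.N < X := by
    have h4 : T.N ≤ T.D * T.N := Nat.le_mul_of_pos_left _ hD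
    omega
  have cy := g.cyc
  change Cyc T.N (Q.k + 1) ((Q.sys3 T.N).AA T.N c μ ν X) _ (ext1 μ.1) (ext1 ν.1) e t at cy
  have h4 := cy.ltE (fun i _ => X1_py hQ h hν i) (Nat.lt_succ_self Q.k)
  have h5 := g.prodA
  change ∏ i ∈ range (Q.k + 1), ext1 μ.1 i * (Q.sys3 T.N).AA T.N c μ ν X i = X at h5
  rw [prod_mul_distrib, prod_range_succ (fun i => (Q.sys3 T.N).AA T.N c μ ν X i), ← mul_assoc] at h5
  have h6 : e Q.k * (Q.sys3 T.N).AA T.N c μ ν X Q.k < ((∏ i ∈ range (Q.k + 1), ext1 μ.1 i) * ∏ i ∈ range Q.k, (Q.sys3 T.N).AA T.N c μ ν X i) *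
      (Q.sys3 T.N).AA T.N c μ ν X Q.k := by
    rw [h5]; omega
  have h7 := Nat.lt_of_mul_lt_mul_right h6
  have h8 := X1_prod hQ h c hμ ν X
  refine le_trans ?_ (small_x3 hQ h hμ)
  exact_mod_cast (h7.le.trans h8)

end MPar

end Pool.Agent.Lib.TC
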