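import Pool.Agent.Lib.MP_7b7e48_nt.BR3.H
import Pool.Agent.Lib.MP_7b7e48_nt.T3S.N

/-!
# T3S.XR (40 minutes): the marks of the old system

`xr x e = ext1 x ((e / nit) * (nit + 2) + e % nit)` with `e / nit < k`, `e % nit < nit` (`nit > 0` as `e < k * nit`): the index is `< k (nit + 2)`, its quotient by `nit + 2` is `e / nit`, its remainder `e % nit < nit`, so the element is in
`OX3 (e / nit) (e % nit) = OXs (e / nit) (e % nit)`. The same for `yr` with `np + 1`, `np + 2`. `gx_xr`: `gx (xr x) i t = ext1 (xr x) (i nit + t) = gx3 x i t` for `i < k`, `t < nit`. `sel3_sub`: `sel_spec`.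
-/

set_option autoImplicit false

open Finset

namespace Pool.Agent.Lib.TC

namespace MPar

variable {Q : MPar} {N : ℕ}

private theorem XR_idx {k m i t : ℕ} (hi : i < k) (ht : t < m) :
    i * m + t < k * m ∧ (i * m + t) / m = i ∧ (i * m + t) % m = t := by
  have hm : 0 < m := by omega
  refine ⟨?_, ?_, ?_⟩
  · calc i * m + t < i * m + m := by omega
      _ = (i + 1) * m := by ring
      _ ≤ k * m := Nat.mul_le_mul_right m hi
  · rw [mul_comm, Nat.mul_add_div hm, Nat.div_eq_of_lt ht, add_zero]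
  · rw [mul_comm, Nat.mul_add_mod, Nat.mod_eq_of_lt ht]

theorem gx3_mem {x : Fin (Q.k * (Q.nit N + 2)) → ℕ} (hx : x ∈ Fintype.piFinset (Q.sys3 N).OX) {i t : ℕ} (hi : i < Q.k) (ht : t < Q.nit N + 2) :
    Q.gx3 N x i t ∈ Q.OX3 N i t := by
  obtain ⟨h1, h2, h3⟩ := XR_idx hi ht
  have h4 := Fintype.mem_piFinset.1 hx ⟨i * (Q.nit N + 2) + t, h1⟩
  have h5 : x ⟨i * (Q.nit N + 2) + t, h1⟩ ∈ Q.OX3 N ((i * (Q.nit N + 2) + t) / (Q.nit N + 2))
    ((i * (Q.nit N + 2) + t) % (Q.nit N + 2)) := h4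
  rw [h2, h3] at h5
  unfold gx3 ext1
  rw [dif_pos h1]
  exact h5

theorem gy3_mem {y : Fin (Q.k * (Q.np N + 2)) → ℕ} (hy : y ∈ Fintype.piFinset (Q.sys3 N).OY) {i t : ℕ} (hi : i < Q.k) (ht : t < Q.np N + 2) :
    Q.gy3 N y i t ∈ Q.OY3 N i t := by
  obtain ⟨h1, h2, h3⟩ := XR_idx hi ht
  have h4 := Fintype.mem_piFinset.1 hy ⟨i * (Q.np N + 2) + t, h1⟩
  have h5 : y ⟨i * (Q.np N + 2) + t, h1⟩ ∈ Q.OY3 N ((i * (Q.np N + 2) + t) / (Q.np N + 2))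
    ((i * (Q.np N + 2) + t) % (Q.np N + 2)) := h4
  rw [h2, h3] at h5
  unfold gy3 ext1
  rw [dif_pos h1]
  exact h5

theorem xr_mem {x : Fin (Q.k * (Q.nit N + 2)) → ℕ} (hx : x ∈ Fintype.piFinset (Q.sys3 N).OX) : Q.xr N x ∈ Fintype.piFinset (Q.sys N).OX := by
  refine Fintype.mem_piFinset.2 ?_
  intro e
  have he : (e : ℕ) < Q.k * Q.nit N := e.2
  have hm : 0 < Q.nit N := by
    rcases Nat.eq_zero_or_pos (Q.nit N) with h | h
    · rw [h, Nat.mul_zero] at he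
      omega
    · exact h
  have h1 : (e : ℕ) / Q.nit N < Q.k := (Nat.div_lt_iff_lt_mul hm).2 he
  have h2 : (e : ℕ) % Q.nit N < Q.nit N := Nat.mod_lt _ hm
  have h3 := gx3_mem hx h1 (show (e : ℕ) % Q.nit N < Q.nit N + 2 by omega)
  unfold OX3 at h3
  rw [if_pos h2] at h3
  exact h3

theorem yr_mem {y : Fin (Q.k * (Q.np N + 2)) → ℕ} (hy : y ∈ Fintype.piFinset (Q.sys3 N).OY) : Q.yr N y ∈ Fintype.piFinset (Q.sys N).OY := by
  refine Fintype.mem_piFinset.2 ?_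
  intro e
  have he : (e : ℕ) < Q.k * (Q.np N + 1) := e.2
  have hm : 0 < Q.np N + 1 := Nat.succ_pos _
  have h1 : (e : ℕ) / (Q.np N + 1) < Q.k := (Nat.div_lt_iff_lt_mul hm).2 he
  have h2 : (e : ℕ) % (Q.np N + 1) < Q.np N + 1 := Nat.mod_lt _ hm
  have h3 := gy3_mem hy h1 (show (e : ℕ) % (Q.np N + 1) < Q.np N + 2 by omega)
  unfold OY3 at h3
  rw [if_pos h2] at h3
  exact h3

theorem gx_xr (x : Fin (Q.k * (Q.nit N + 2)) → ℕ) {i t : ℕ} (hi : i < Q.k) (ht : t < Q.nit N) : Q.gx N (Q.xr N x) i t = Q.gx3 N x i t := by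
  obtain ⟨h1, h2, h3⟩ := XR_idx hi ht
  unfold gx
  rw [ext1, dif_pos h1]
  show Q.gx3 N x ((i * Q.nit N + t) / Q.nit N) ((i * Q.nit N + t) % Q.nit N) = _
  rw [h2, h3]

theorem gy_yr (y : Fin (Q.k * (Q.np N + 2)) → ℕ) {i t : ℕ} (hi : i < Q.k) (ht : t < Q.np N + 1) : Q.gy N (Q.yr N y) i t = Q.gy3 N y i t := by
  obtain ⟨h1, h2, h3⟩ := XR_idx hi ht
  unfold gy
  rw [ext1, dif_pos h1]
  show Q.gy3 N y ((i * (Q.np N + 1) + t) / (Q.np N + 1)) ((i * (Q.np N + 1) + t) % (Q.np N + 1)) = _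
  rw [h2, h3]

theorem sel3_sub (hQ : Q.Ok) (h : Q.Lg N) {x : Fin (Q.k * (Q.nit N + 2)) → ℕ} (hx : x ∈ Fintype.piFinset (Q.sys3 N).OX)
    {y : Fin (Q.k * (Q.np N + 2)) → ℕ} (hy : y ∈ Fintype.piFinset (Q.sys3 N).OY) (c : FE (Q.n0 N) → Fin (Q.k + 1))
    {u w : Fin (Q.n0 N) → ℕ} (hu : u ∈ Fintype.piFinset (Q.sys3 N).FX) (hw : w ∈ Fintype.piFinset (Q.sys3 N).FY) {i : ℕ} (hi : i < Q.k) :
    Q.sel3 N c (fun f => cell N (u f)) (fun f => cell N (w f)) x y i ⊆ range (Q.nit N) :=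
  (sel_spec hQ h (xr_mem hx) (yr_mem hy) c hu hw hi).1

end MPar

end Pool.Agent.Lib.TC
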